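import Mathlib

/-!
# The augmentation ideal of a finitely generated perfect group is idempotent
-/

set_option autoImplicit false

namespace Pool.Agent.H34R2.AugIdem

open scoped commutatorElement

variable {k : Type*} [CommRing k] {G : Type*} [Group G] {n : ℕ} (g : Fin n → G)

/-- The element `g - 1`. -/
noncomputable def d (k : Type*) [CommRing k] {G : Type*} [Group G] (x : G) : MonoidAlgebra k G :=
  MonoidAlgebra.single x 1 - 1

theorem d_mul (x y : G) : d k (x * y) = d k x * MonoidAlgebra.single y 1 + d k y := by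
  simp only [d, sub_mul, one_mul, MonoidAlgebra.single_mul_single, mul_one]
  abel

theorem d_one : d k (1 : G) = 0 := by
  rw [d, ← MonoidAlgebra.one_def, sub_self]

theorem d_inv (x : G) : d k x⁻¹ = - (d k x * MonoidAlgebra.single x⁻¹ 1) := by
  simp only [d, sub_mul, one_mul, MonoidAlgebra.single_mul_single, mul_one, mul_inv_cancel,
    ← MonoidAlgebra.one_def]
  abel

theorem d_comm (x y : G) : d k ⁅x, y⁆ =
    (d k x * d k y - d k y * d k x) * MonoidAlgebra.single (x⁻¹ * y⁻¹) 1 := by
  have h1 : d k x * d k y - d k y * d k x =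
      MonoidAlgebra.single (x * y) 1 - MonoidAlgebra.single (y * x) 1 := by
    simp only [d, sub_mul, mul_sub, one_mul, mul_one, MonoidAlgebra.single_mul_single]
    abel
  rw [h1, sub_mul, MonoidAlgebra.single_mul_single, MonoidAlgebra.single_mul_single, d,
    commutatorElement_def, mul_one]
  have h2 : y * x * (x⁻¹ * y⁻¹) = 1 := by group
  have h3 : x * y * (x⁻¹ * y⁻¹) = x * y * x⁻¹ * y⁻¹ := by group
  rw [h2, h3, ← MonoidAlgebra.one_def]

/-- The right ideal generated by the `g l - 1`. -/
def S1 (x : MonoidAlgebra k G) : Prop :=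
  ∃ c : Fin n → MonoidAlgebra k G, x = ∑ l, d k (g l) * c l

/-- The right ideal generated by the products `(g i - 1) * (g l - 1)`. -/
def S2 (x : MonoidAlgebra k G) : Prop :=
  ∃ c : Fin n → Fin n → MonoidAlgebra k G, x = ∑ i, ∑ l, d k (g i) * d k (g l) * c i l

variable {g}

theorem S1_zero : S1 g (0 : MonoidAlgebra k G) := ⟨0, by simp⟩

theorem S1_add {x y : MonoidAlgebra k G} (hx : S1 g x) (hy : S1 g y) : S1 g (x + y) := by
  obtain ⟨c, rfl⟩ := hx
  obtain ⟨c', rfl⟩ := hy
  exact ⟨fun l => c l + c' l, by simp only [mul_add, Finset.sum_add_distrib]⟩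

theorem S1_mul {x : MonoidAlgebra k G} (hx : S1 g x) (y : MonoidAlgebra k G) : S1 g (x * y) := by
  obtain ⟨c, rfl⟩ := hx
  exact ⟨fun l => c l * y, by simp only [Finset.sum_mul, mul_assoc]⟩

theorem S1_neg {x : MonoidAlgebra k G} (hx : S1 g x) : S1 g (-x) := by
  have := S1_mul hx (-1)
  simpa using this

theorem S1_sub {x y : MonoidAlgebra k G} (hx : S1 g x) (hy : S1 g y) : S1 g (x - y) := by
  rw [sub_eq_add_neg]; exact S1_add hx (S1_neg hy)

theorem S2_zero : S2 g (0 : MonoidAlgebra k G) := ⟨0, by simp⟩

theorem S2_add {x y : MonoidAlgebra k G} (hx : S2 g x) (hy : S2 g y) : S2 g (x + y) := by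
  obtain ⟨c, rfl⟩ := hx
  obtain ⟨c', rfl⟩ := hy
  exact ⟨fun i l => c i l + c' i l, by simp only [mul_add, Finset.sum_add_distrib]⟩

theorem S2_mul {x : MonoidAlgebra k G} (hx : S2 g x) (y : MonoidAlgebra k G) : S2 g (x * y) := by
  obtain ⟨c, rfl⟩ := hx
  exact ⟨fun i l => c i l * y, by simp only [Finset.sum_mul, mul_assoc]⟩

theorem S2_neg {x : MonoidAlgebra k G} (hx : S2 g x) : S2 g (-x) := by
  have := S2_mul hx (-1)
  simpa using this

theorem S2_sub {x y : MonoidAlgebra k G} (hx : S2 g x) (hy : S2 g y) : S2 g (x - y) := by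
  rw [sub_eq_add_neg]; exact S2_add hx (S2_neg hy)

theorem S1_d (hg : Subgroup.closure (Set.range g) = ⊤) (x : G) : S1 g (d k x) := by
  classical
  have hx : x ∈ Subgroup.closure (Set.range g) := by rw [hg]; trivial
  induction hx using Subgroup.closure_induction with
  | mem x hx =>
    obtain ⟨l, rfl⟩ := hx
    refine ⟨fun l' => if l' = l then 1 else 0, ?_⟩
    simp
  | one => rw [d_one]; exact S1_zero
  | mul x y _ _ hx hy => rw [d_mul]; exact S1_add (S1_mul hx _) hy
  | inv x _ hx => rw [d_inv]; exact S1_neg (S1_mul hx _)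

theorem S1_left (hg : Subgroup.closure (Set.range g) = ⊤) (c : MonoidAlgebra k G) (y : G) :
    S1 g (c * d k y) := by
  induction c using MonoidAlgebra.induction_linear with
  | zero => rw [zero_mul]; exact S1_zero
  | add a b ha hb => rw [add_mul]; exact S1_add ha hb
  | single a r =>
    have h : (MonoidAlgebra.single a r : MonoidAlgebra k G) * d k y =
        (d k (a * y) - d k a) * MonoidAlgebra.single 1 r := by
      simp only [d, sub_mul, mul_sub, one_mul, mul_one, MonoidAlgebra.single_mul_single]
      abel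
    rw [h]
    exact S1_mul (S1_sub (S1_d hg _) (S1_d hg _)) _

theorem S2_prod (hg : Subgroup.closure (Set.range g) = ⊤) (x y : G) : S2 g (d k x * d k y) := by
  obtain ⟨c, hc⟩ := S1_d (k := k) hg x
  choose e he using fun l => S1_left (k := k) hg (c l) y
  refine ⟨e, ?_⟩
  rw [hc, Finset.sum_mul]
  refine Finset.sum_congr rfl fun l _ => ?_
  rw [mul_assoc, he, Finset.mul_sum]
  simp only [mul_assoc]

theorem S2_d (hg : Subgroup.closure (Set.range g) = ⊤) (x : G) (hx : x ∈ commutator G) :
    S2 g (d k x) := by
  let H : Subgroup G :=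
    { carrier := {x | S2 g (d k x)}
      mul_mem' := fun {a b} ha hb => by
        change S2 g (d k (a * b))
        rw [d_mul]
        exact S2_add (S2_mul ha _) hb
      one_mem' := by
        change S2 g (d k (1 : G))
        rw [d_one]
        exact S2_zero
      inv_mem' := fun {a} ha => by
        change S2 g (d k a⁻¹)
        rw [d_inv]
        exact S2_neg (S2_mul ha _) }
  have h : commutator G ≤ H := by
    rw [commutator_def, Subgroup.commutator_le]
    intro a _ b _
    change S2 g (d k ⁅a, b⁆)
    rw [d_comm]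
    exact S2_mul (S2_sub (S2_prod hg _ _) (S2_prod hg _ _)) _
  exact h hx

/-- The structure constants. -/
theorem exists_c (hg : Subgroup.closure (Set.range g) = ⊤) (hp : commutator G = ⊤) :
    ∃ c : Fin n → Fin n → Fin n → MonoidAlgebra k G,
      ∀ j, d k (g j) = ∑ i, ∑ l, d k (g i) * d k (g l) * c i l j := by
  choose c hc using fun j => S2_d (k := k) hg (g j) (by rw [hp]; trivial)
  exact ⟨fun i l j => c j i l, hc⟩

/-- The augmentation. -/
noncomputable def aug (k : Type*) [CommRing k] (G : Type*) [Group G] : MonoidAlgebra k G →+* k :=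
  (MonoidAlgebra.lift k k G (1 : G →* k)).toRingHom

theorem aug_d (x : G) : aug k G (d k x) = 0 := by
  simp [aug, d]

/-- If `G` is infinite then no nonzero element is killed by right multiplication by all
`g l - 1`. -/
theorem eq_zero_of_mul [Infinite G] (hg : Subgroup.closure (Set.range g) = ⊤)
    (x : MonoidAlgebra k G) (hx : ∀ l, x * d k (g l) = 0) : x = 0 := by
  have h1 : ∀ y : G, x * MonoidAlgebra.single y 1 = x := by
    intro y
    have hy : y ∈ Subgroup.closure (Set.range g) := by rw [hg]; trivial
    induction hy using Subgroup.closure_induction with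
    | mem y hy =>
      obtain ⟨l, rfl⟩ := hy
      have := hx l
      rw [d, mul_sub, mul_one, sub_eq_zero] at this
      exact this
    | one => rw [← MonoidAlgebra.one_def, mul_one]
    | mul a b _ _ ha hb =>
      have : (MonoidAlgebra.single (a * b) 1 : MonoidAlgebra k G) =
          MonoidAlgebra.single a 1 * MonoidAlgebra.single b 1 := by
        rw [MonoidAlgebra.single_mul_single, mul_one]
      rw [this, ← mul_assoc, ha, hb]
    | inv a _ ha =>
      conv_lhs => rw [← ha]
      rw [mul_assoc, MonoidAlgebra.single_mul_single, mul_inv_cancel, mul_one,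
        ← MonoidAlgebra.one_def, mul_one]
  have h2 : ∀ y z : G, x.coeff (z * y⁻¹) = x.coeff z := by
    intro y z
    have := congrArg (fun f => MonoidAlgebra.coeff f z) (h1 y)
    simp only [MonoidAlgebra.coeff_mul_single_apply, mul_one] at this
    exact this
  obtain ⟨w, hw⟩ := Infinite.exists_notMem_finset x.coeff.support
  have hw0 : x.coeff w = 0 := by rwa [Finsupp.notMem_support_iff] at hw
  apply MonoidAlgebra.coeff_injective
  ext z
  have := h2 (w⁻¹ * z) z
  rw [mul_inv_rev, inv_inv, mul_inv_cancel_left, hw0] at this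
  rw [← this]
  simp

end Pool.Agent.H34R2.AugIdem
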