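import Mathlib

/-!
# An infinite perfect torsion-free virtually abelian group

`Φ` is the free group on the elements of `A₅`, `N` the kernel of `Φ → A₅`, `E = Φ / [N, N]` and
`G = [E, E]`. The group `G` is finitely generated, perfect, torsion-free, infinite and has a
finitely generated abelian normal subgroup of finite index.
-/

set_option autoImplicit false

namespace Pool.Agent.H34R2.GroupPerf

open Subgroup
open scoped commutatorElement

theorem freeGroup_mem_commutator {X : Type*} (h : FreeGroup X) (n : ℕ) (hn : n ≠ 0)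
    (hh : h ^ n ∈ commutator (FreeGroup X)) : h ∈ commutator (FreeGroup X) := by
  rw [← Abelianization.ker_of, MonoidHom.mem_ker] at hh ⊢
  rw [map_pow] at hh
  let a : FreeAbelianGroup X := Additive.ofMul (Abelianization.of h)
  have h1 : n • a = 0 := hh
  suffices h4 : a = 0 from h4
  clear_value a
  have h2 : n • FreeAbelianGroup.equivFinsupp X a = 0 := by
    rw [← map_nsmul, h1, map_zero]
  have h3 : FreeAbelianGroup.equivFinsupp X a = 0 := by
    ext x
    have := DFunLike.congr_fun h2 x
    simp only [Finsupp.coe_smul, Pi.smul_apply, Finsupp.coe_zero, Pi.zero_apply] at this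
    rcases smul_eq_zero.1 this with h | h
    · exact absurd h hn
    · simpa using h
  exact (FreeAbelianGroup.equivFinsupp X).map_eq_zero_iff.1 h3

theorem isFree_mem_commutator {H : Type*} [Group H] [IsFreeGroup H] (h : H) (n : ℕ) (hn : n ≠ 0)
    (hh : h ^ n ∈ commutator H) : h ∈ commutator H := by
  let e := IsFreeGroup.toFreeGroup H
  have hmap : ∀ x : H, x ∈ commutator H ↔ e x ∈ commutator (FreeGroup (IsFreeGroup.Generators H)) := by
    intro x
    have : (commutator H).map e.toMonoidHom = commutator (FreeGroup (IsFreeGroup.Generators H)) := by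
      rw [commutator_def, commutator_def, map_commutator]
      have htop : map e.toMonoidHom ⊤ = ⊤ := by
        rw [← MonoidHom.range_eq_map]
        exact MonoidHom.range_eq_top_of_surjective _ e.surjective
      rw [htop]
    rw [← this, Subgroup.mem_map]
    constructor
    · intro hx; exact ⟨x, hx, rfl⟩
    · rintro ⟨y, hy, hyx⟩
      have : y = x := e.injective hyx
      rwa [← this]
  rw [hmap] at hh ⊢
  rw [map_pow] at hh
  exact freeGroup_mem_commutator _ n hn hh

theorem sub_mem_commutator {Φ : Type*} [Group Φ] [IsFreeGroup Φ] (H : Subgroup Φ) (g : Φ)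
    (hg : g ∈ H) (n : ℕ) (hn : n ≠ 0) (hh : g ^ n ∈ ⁅H, H⁆) : g ∈ ⁅H, H⁆ := by
  rw [← Subgroup.map_subtype_commutator] at hh ⊢
  have : IsFreeGroup H := subgroupIsFreeOfIsFree H
  obtain ⟨x, hx, hxg⟩ := hh
  have hx' : x = (⟨g, hg⟩ : H) ^ n := by
    apply Subtype.ext
    rw [SubgroupClass.coe_pow]
    exact hxg
  rw [hx'] at hx
  exact ⟨⟨g, hg⟩, isFree_mem_commutator _ n hn hx, rfl⟩

/-- If `Φ` is free and `N` is normal, then `Φ / [N, N]` is torsion-free. -/
theorem mem_commutator_of_pow_mem {Φ : Type*} [Group Φ] [IsFreeGroup Φ] (N : Subgroup Φ)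
    [N.Normal] (g : Φ) (n : ℕ) (hn : n ≠ 0) (hh : g ^ n ∈ ⁅N, N⁆) : g ∈ ⁅N, N⁆ := by
  let H : Subgroup Φ := N ⊔ zpowers g
  have hNH : N ≤ H := le_sup_left
  have hgH : g ∈ H := (le_sup_right : zpowers g ≤ H) (mem_zpowers g)
  have h1 : g ∈ ⁅H, H⁆ := sub_mem_commutator H g hgH n hn (commutator_mono hNH hNH hh)
  have h2 : ⁅H, H⁆ ≤ N := by
    have hmap : map (QuotientGroup.mk' N) H = zpowers (QuotientGroup.mk' N g) := by
      rw [Subgroup.map_sup, MonoidHom.map_zpowers]
      have : map (QuotientGroup.mk' N) N = ⊥ := by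
        rw [Subgroup.map_eq_bot_iff, QuotientGroup.ker_mk']
      rw [this, bot_sup_eq]
    have hbot : map (QuotientGroup.mk' N) ⁅H, H⁆ = ⊥ := by
      rw [map_commutator, hmap, Subgroup.commutator_eq_bot_iff_le_centralizer]
      intro x hx
      rw [mem_centralizer_iff]
      intro y hy
      obtain ⟨a, rfl⟩ := mem_zpowers_iff.1 hx
      obtain ⟨b, rfl⟩ := mem_zpowers_iff.1 hy
      rw [← zpow_add, ← zpow_add, add_comm]
    rw [Subgroup.map_eq_bot_iff, QuotientGroup.ker_mk'] at hbot
    exact hbot
  exact sub_mem_commutator N g (h2 h1) n hn hh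

/-- The alternating group on five letters. -/
abbrev A5 : Type := alternatingGroup (Fin 5)

/-- The free group on the elements of `A₅`. -/
abbrev Phi : Type := FreeGroup A5

/-- The canonical surjection. -/
def piHom : Phi →* A5 := FreeGroup.lift id

theorem piHom_surj : Function.Surjective piHom := by
  intro a
  exact ⟨FreeGroup.of a, by simp [piHom]⟩

/-- The kernel. -/
abbrev N : Subgroup Phi := piHom.ker

/-- The group `Φ / [N, N]`. -/
abbrev E : Type := Phi ⧸ ⁅N, N⁆

/-- The perfect group. -/
abbrev G : Type := commutator E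

theorem E_torsionfree (x : E) (n : ℕ) (hn : n ≠ 0) (hx : x ^ n = 1) : x = 1 := by
  obtain ⟨g, rfl⟩ := QuotientGroup.mk'_surjective _ x
  rw [← map_pow] at hx
  rw [QuotientGroup.mk'_apply, QuotientGroup.eq_one_iff] at hx ⊢
  exact mem_commutator_of_pow_mem N g n hn hx

theorem G_torsionfree (x : G) (n : ℕ) (hn : n ≠ 0) (hx : x ^ n = 1) : x = 1 := by
  apply Subtype.ext
  have := E_torsionfree x.1 n hn (by rw [← SubgroupClass.coe_pow, hx]; rfl)
  rw [this]; rfl

/-- The induced map to `A₅`. -/
def piE : E →* A5 := QuotientGroup.lift _ piHom (by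
  intro x hx
  have h : ⁅N, N⁆ ≤ N := commutator_le_left N N
  exact h hx)

theorem piE_surj : Function.Surjective piE := by
  intro a
  obtain ⟨g, hg⟩ := piHom_surj a
  exact ⟨QuotientGroup.mk g, hg⟩

/-- The abelian normal subgroup of finite index of `E`. -/
abbrev L : Subgroup E := piE.ker

theorem L_comm (x y : E) (hx : x ∈ L) (hy : y ∈ L) : x * y = y * x := by
  obtain ⟨g, rfl⟩ := QuotientGroup.mk'_surjective _ x
  obtain ⟨h, rfl⟩ := QuotientGroup.mk'_surjective _ y
  have hg : g ∈ N := hx
  have hh : h ∈ N := hy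
  rw [← map_mul, ← map_mul]
  rw [QuotientGroup.mk'_apply, QuotientGroup.mk'_apply, QuotientGroup.eq]
  have : (g * h)⁻¹ * (h * g) = ⁅h⁻¹, g⁻¹⁆ := by
    rw [commutatorElement_def]; group
  rw [this]
  exact commutator_mem_commutator (inv_mem hh) (inv_mem hg)

theorem A5_perfect : commutator A5 = ⊤ :=
  commutator_alternatingGroup_eq_top (by simp)

theorem A5_nontrivial : Nontrivial A5 := by
  have : IsSimpleGroup A5 := alternatingGroup.isSimpleGroup (by simp)
  infer_instance

theorem map_commutator_E : map piE (commutator E) = ⊤ := by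
  rw [commutator_def, map_commutator]
  have : map piE ⊤ = ⊤ := by
    rw [← MonoidHom.range_eq_map]; exact MonoidHom.range_eq_top_of_surjective _ piE_surj
  rw [this, ← commutator_def, A5_perfect]

theorem map_commutator_E2 : map piE ⁅commutator E, commutator E⁆ = ⊤ := by
  rw [map_commutator, map_commutator_E, ← commutator_def, A5_perfect]

theorem commutator_E_le : commutator E ≤ ⁅commutator E, commutator E⁆ := by
  set D : Subgroup E := ⁅commutator E, commutator E⁆ with hD
  -- every element of `E` is a product of an element of `D` and one of `L`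
  have hDL : ∀ x : E, ∃ d ∈ D, ∃ l ∈ L, x = d * l := by
    intro x
    have hx : piE x ∈ map piE D := by rw [hD, map_commutator_E2]; trivial
    obtain ⟨d, hd, hdx⟩ := hx
    refine ⟨d, hd, d⁻¹ * x, ?_, by group⟩
    rw [MonoidHom.mem_ker, map_mul, map_inv, hdx, inv_mul_cancel]
  have : D.Normal := inferInstance
  rw [commutator_def, Subgroup.commutator_le]
  intro x _ y _
  rw [← QuotientGroup.eq_one_iff, ← QuotientGroup.mk'_apply, map_commutatorElement,
    commutatorElement_eq_one_iff_mul_comm]
  obtain ⟨d, hd, l, hl, rfl⟩ := hDL x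
  obtain ⟨d', hd', l', hl', rfl⟩ := hDL y
  have h1 : QuotientGroup.mk' D d = 1 := by
    rw [QuotientGroup.mk'_apply, QuotientGroup.eq_one_iff]; exact hd
  have h2 : QuotientGroup.mk' D d' = 1 := by
    rw [QuotientGroup.mk'_apply, QuotientGroup.eq_one_iff]; exact hd'
  rw [map_mul, map_mul, h1, h2, one_mul, one_mul, ← map_mul, ← map_mul, L_comm l l' hl hl']

theorem G_perfect : commutator G = ⊤ := by
  have h : ⁅commutator E, commutator E⁆ = commutator E :=
    le_antisymm (commutator_le_left _ _) commutator_E_le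
  have := Subgroup.isPerfect_iff.2 h
  exact this.commutator_eq_top

theorem G_nontrivial : Nontrivial G := by
  by_contra h
  rw [not_nontrivial_iff_subsingleton] at h
  have hbot : commutator E = ⊥ := by
    rw [eq_bot_iff]
    intro x hx
    rw [Subgroup.mem_bot]
    have := h.elim (⟨x, hx⟩ : G) 1
    exact congrArg Subtype.val this
  have h1 := map_commutator_E
  rw [hbot, Subgroup.map_bot] at h1
  have := A5_nontrivial
  exact bot_ne_top h1

theorem G_infinite : Infinite G := by
  by_contra h
  rw [not_infinite_iff_finite] at h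
  obtain ⟨x, y, hxy⟩ := G_nontrivial
  have h1 : ∀ z : G, z = 1 := fun z =>
    G_torsionfree z (Nat.card G) Nat.card_pos.ne' (pow_card_eq_one')
  exact hxy ((h1 x).trans (h1 y).symm)

/-- A subgroup of a finitely generated abelian group is finitely generated. -/
theorem fg_of_commGroup {A : Type*} [CommGroup A] [Group.FG A] (B : Subgroup A) : B.FG := by
  have h1 : Module.Finite ℤ (Additive A) := by
    rw [Module.Finite.iff_addGroup_fg]
    exact GroupFG.iff_add_fg.1 inferInstance
  have h2 : (AddSubgroup.toIntSubmodule (Subgroup.toAddSubgroup B)).FG := IsNoetherian.noetherian _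
  rw [Subgroup.fg_iff_add_fg]
  exact (Submodule.fg_iff_addSubgroup_fg _).1 h2

/-- A subgroup contained in a finitely generated commutative subgroup is finitely generated. -/
theorem fg_of_le {H : Type*} [Group H] (M B : Subgroup H) (hM : M.FG)
    (hc : ∀ x ∈ M, ∀ y ∈ M, x * y = y * x) (hB : B ≤ M) : B.FG := by
  let inst : CommGroup M :=
    { (inferInstance : Group M) with
      mul_comm := fun a b => Subtype.ext (hc a.1 a.2 b.1 b.2) }
  have : Group.FG M := (Group.fg_iff_subgroup_fg M).2 hM
  have h := @fg_of_commGroup M inst this (B.subgroupOf M)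
  have h2 : B = (B.subgroupOf M).map M.subtype := by
    rw [Subgroup.map_subgroupOf_eq_of_le hB]
  rw [h2]
  obtain ⟨s, hs⟩ := h
  classical
  refine ⟨s.image M.subtype, ?_⟩
  rw [← hs, MonoidHom.map_closure, Finset.coe_image]

theorem L_fg : L.FG := by
  have : Group.FG E := inferInstance
  have : Finite A5 := inferInstance
  have : L.FiniteIndex := inferInstance
  exact (Group.fg_iff_subgroup_fg L).1 (Subgroup.fg_of_index_ne_zero L)

/-- The abelian normal subgroup of finite index of `G`. -/
abbrev B : Subgroup G := L.subgroupOf (commutator E)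

theorem B_comm (x y : G) (hx : x ∈ B) (hy : y ∈ B) : x * y = y * x :=
  Subtype.ext (L_comm x.1 y.1 hx hy)

theorem B_fg : B.FG := by
  have h1 : (L ⊓ commutator E).FG := fg_of_le L _ L_fg (fun x hx y hy => L_comm x y hx hy) inf_le_left
  obtain ⟨s, hs⟩ := h1
  have hsub : ∀ x ∈ s, x ∈ commutator E := by
    intro x hx
    have : x ∈ L ⊓ commutator E := by rw [← hs]; exact subset_closure hx
    exact this.2
  classical
  refine ⟨s.attach.image (fun x => (⟨x.1, hsub x.1 x.2⟩ : G)), ?_⟩
  apply Subgroup.map_injective (commutator E).subtype_injective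
  rw [MonoidHom.map_closure, Subgroup.subgroupOf_map_subtype, ← hs]
  congr 1
  ext x
  constructor
  · rintro ⟨y, hy, rfl⟩
    rw [Finset.coe_image] at hy
    obtain ⟨a, -, rfl⟩ := hy
    exact a.2
  · intro hx
    refine ⟨⟨x, hsub x hx⟩, ?_, rfl⟩
    rw [Finset.coe_image]
    exact ⟨⟨x, hx⟩, Finset.mem_coe.2 (Finset.mem_attach _ _), rfl⟩

instance B_finiteIndex : B.FiniteIndex := by
  have : Finite A5 := inferInstance
  have : L.FiniteIndex := inferInstance
  infer_instance

instance B_normal : B.Normal := inferInstance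

theorem fg_of_finiteIndex {H : Type*} [Group H] (M : Subgroup H) (hM : M.FG) [M.FiniteIndex] :
    Group.FG H := by
  classical
  have hfin : Finite (H ⧸ M) := inferInstance
  obtain ⟨s, hs⟩ := hM
  let f : H ⧸ M → H := Quotient.out
  have hfin2 : (Set.range f).Finite := Set.finite_range f
  rw [Group.fg_def, Subgroup.fg_iff]
  refine ⟨↑s ∪ Set.range f, ?_, s.finite_toSet.union hfin2⟩
  rw [eq_top_iff]
  rintro x -
  have h1 : f (x : H ⧸ M) ∈ closure (↑s ∪ Set.range f) :=
    subset_closure (Or.inr ⟨_, rfl⟩)
  have h2 : (f (x : H ⧸ M))⁻¹ * x ∈ M := by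
    rw [← QuotientGroup.eq]
    exact Quotient.out_eq' _
  have h3 : M ≤ closure (↑s ∪ Set.range f) :=
    hs.symm.le.trans (closure_mono Set.subset_union_left)
  have := mul_mem h1 (h3 h2)
  rwa [mul_inv_cancel_left] at this

theorem G_fg : Group.FG G := fg_of_finiteIndex B B_fg

end Pool.Agent.H34R2.GroupPerf
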