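import Mathlib

/-!
# Group rings of finitely generated virtually abelian groups are Noetherian
-/

set_option autoImplicit false

namespace Pool.Agent.H34R2.NoethGroupRing

theorem noetherian_comm {k : Type*} [CommRing k] [IsNoetherianRing k] {B : Type*} [CommGroup B]
    [Group.FG B] : IsNoetherianRing (MonoidAlgebra k B) := by
  have : Monoid.FG B := Group.fg_iff_monoid_fg.1 inferInstance
  have : Algebra.FiniteType k (MonoidAlgebra k B) := MonoidAlgebra.finiteType_of_fg
  exact Algebra.FiniteType.isNoetherianRing k _

theorem noetherian_of_subgroup {k : Type*} [CommRing k] {G : Type*} [Group G] (B : Subgroup G)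
    [B.FiniteIndex] (hN : IsNoetherianRing (MonoidAlgebra k B)) :
    IsNoetherianRing (MonoidAlgebra k G) := by
  classical
  let φ : MonoidAlgebra k B →+* MonoidAlgebra k G :=
    MonoidAlgebra.mapDomainRingHom k B.subtype
  let : Module (MonoidAlgebra k B) (MonoidAlgebra k G) := Module.compHom _ φ
  have hsmul : ∀ (r : MonoidAlgebra k B) (x : MonoidAlgebra k G), r • x = φ r * x :=
    fun r x => rfl
  have : IsScalarTower (MonoidAlgebra k B) (MonoidAlgebra k G) (MonoidAlgebra k G) :=
    ⟨fun r s m => by simp only [hsmul, smul_eq_mul, mul_assoc]⟩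
  have hfin : Finite (G ⧸ B) := inferInstance
  let f : G ⧸ B → MonoidAlgebra k G := fun q => MonoidAlgebra.single (Quotient.out q)⁻¹ 1
  have hspan : Submodule.span (MonoidAlgebra k B) (Set.range f) = ⊤ := by
    rw [eq_top_iff]
    rintro x -
    induction x using MonoidAlgebra.induction_linear with
    | zero => exact Submodule.zero_mem _
    | add a b ha hb => exact Submodule.add_mem _ ha hb
    | single g r =>
      let q : G ⧸ B := ((g⁻¹ : G) : G ⧸ B)
      have hb : (Quotient.out q)⁻¹ * g⁻¹ ∈ B := by
        rw [← QuotientGroup.eq]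
        exact Quotient.out_eq' _
      have hb' : g * Quotient.out q ∈ B := by
        have := B.inv_mem hb
        rwa [mul_inv_rev, inv_inv, inv_inv] at this
      have h1 : (MonoidAlgebra.single g r : MonoidAlgebra k G) =
          (MonoidAlgebra.single (⟨g * Quotient.out q, hb'⟩ : B) r : MonoidAlgebra k B) • f q := by
        rw [hsmul]
        simp only [φ, f, MonoidAlgebra.mapDomainRingHom_apply, MonoidAlgebra.mapDomain_single,
          MonoidAlgebra.single_mul_single, Subgroup.coe_subtype, mul_one, mul_inv_cancel_right]
      rw [h1]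
      exact Submodule.smul_mem _ _ (Submodule.subset_span ⟨q, rfl⟩)
  have : Module.Finite (MonoidAlgebra k B) (MonoidAlgebra k G) :=
    ⟨⟨(Set.finite_range f).toFinset, by rw [Set.Finite.coe_toFinset]; exact hspan⟩⟩
  have h2 : IsNoetherian (MonoidAlgebra k B) (MonoidAlgebra k G) :=
    isNoetherian_of_isNoetherianRing_of_finite _ _
  exact isNoetherian_of_tower (MonoidAlgebra k B) h2

theorem noetherian_virtually_abelian {k : Type*} [CommRing k] [IsNoetherianRing k] {G : Type*}
    [Group G] (B : Subgroup G) [B.FiniteIndex] (hB : B.FG)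
    (hc : ∀ x ∈ B, ∀ y ∈ B, x * y = y * x) : IsNoetherianRing (MonoidAlgebra k G) := by
  apply noetherian_of_subgroup B
  let inst : CommGroup B :=
    { (inferInstance : Group B) with
      mul_comm := fun a b => Subtype.ext (hc a.1 a.2 b.1 b.2) }
  have : Group.FG B := (Group.fg_iff_subgroup_fg B).2 hB
  exact @noetherian_comm k _ _ B inst this

end Pool.Agent.H34R2.NoethGroupRing
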