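import Mathlib

set_option autoImplicit false

/-! Basic definitions and the one-step interpolation lemmas used for power series over a von
Neumann regular ring. -/

namespace Pool.Agent.H34R2.PS

open PowerSeries MulOpposite

/-- `B` is von Neumann regular. -/
def VNReg (B : Type*) [Ring B] : Prop := ∀ a : B, ∃ x, a * x * a = a

/-- Countable interpolation: if `a i * b j = 0` for all `i, j : ℕ`, there is `h` with
`a i * h = 0` and `h * b j = b j` for all `i, j`. -/
def Interp (B : Type*) [Ring B] : Prop :=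
  ∀ a b : ℕ → B, (∀ i j, a i * b j = 0) → ∃ h, (∀ i, a i * h = 0) ∧ ∀ j, h * b j = b j

theorem Interp.countable {B : Type*} [Ring B] (hB : Interp B) {I J : Type*} [Countable I]
    [Countable J] (a : I → B) (b : J → B) (hab : ∀ i j, a i * b j = 0) :
    ∃ h, (∀ i, a i * h = 0) ∧ ∀ j, h * b j = b j := by
  have e1 := Encodable.ofCountable I
  have e2 := Encodable.ofCountable J
  obtain ⟨h, h1, h2⟩ := hB (fun n => (Encodable.decode (α := I) n).elim 0 a)
    (fun n => (Encodable.decode (α := J) n).elim 0 b) (by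
      intro i j
      rcases Encodable.decode (α := I) i with _ | x
      · simp
      · rcases Encodable.decode (α := J) j with _ | y
        · simp
        · simpa using hab x y)
  refine ⟨h, fun i => ?_, fun j => ?_⟩
  · simpa using h1 (Encodable.encode i)
  · simpa using h2 (Encodable.encode j)

section Reg

variable {A : Type*} [Ring A]

theorem reg_add (hreg : VNReg A) (e n : A) (he : e * e = e) :
    ∃ c m, (e * c + n * m) * e = e ∧ (e * c + n * m) * n = n := by
  obtain ⟨x, hx⟩ := hreg ((1 - e) * n)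
  refine ⟨1 - n * x * (1 - e), x * (1 - e), ?_, ?_⟩
  · have h : (e * (1 - n * x * (1 - e)) + n * (x * (1 - e))) * e
        = e * e + (1 - e) * n * x * (e - e * e) := by noncomm_ring
    rw [h, he, sub_self, mul_zero, add_zero]
  · have h : (e * (1 - n * x * (1 - e)) + n * (x * (1 - e))) * n
        = e * n + ((1 - e) * n) * x * ((1 - e) * n) := by noncomm_ring
    rw [h, hx]
    noncomm_ring

theorem reg3 (hreg : VNReg A) (n0 n1 n2 : A) :
    ∃ m0 m1 m2, (n0 * m0 + n1 * m1 + n2 * m2) * n0 = n0 ∧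
      (n0 * m0 + n1 * m1 + n2 * m2) * n1 = n1 ∧ (n0 * m0 + n1 * m1 + n2 * m2) * n2 = n2 := by
  obtain ⟨x, hx⟩ := hreg n0
  have he : (n0 * x) * (n0 * x) = n0 * x := by rw [← mul_assoc, hx]
  obtain ⟨c1, m1, h1, h1'⟩ := reg_add hreg (n0 * x) n1 he
  set e1 := n0 * x * c1 + n1 * m1 with he1
  have hid1 : e1 * e1 = e1 := by
    have h3 : e1 * (n0 * x * c1 + n1 * m1) = (e1 * (n0 * x)) * c1 + (e1 * n1) * m1 := by
      noncomm_ring
    rw [h1, h1', ← he1] at h3
    exact h3
  obtain ⟨c2, m2, h2, h2'⟩ := reg_add hreg e1 n2 hid1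
  refine ⟨x * c1 * c2, m1 * c2, m2, ?_, ?_, ?_⟩
  · have : n0 * (x * c1 * c2) + n1 * (m1 * c2) + n2 * m2 = e1 * c2 + n2 * m2 := by
      rw [he1]; noncomm_ring
    rw [this]
    have h0 : e1 * n0 = n0 := by
      calc e1 * n0 = e1 * (n0 * x * n0) := by rw [hx]
        _ = (e1 * (n0 * x)) * n0 := by noncomm_ring
        _ = n0 := by rw [h1, hx]
    calc (e1 * c2 + n2 * m2) * n0 = (e1 * c2 + n2 * m2) * (e1 * n0) := by rw [h0]
      _ = ((e1 * c2 + n2 * m2) * e1) * n0 := by noncomm_ring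
      _ = n0 := by rw [h2, h0]
  · have : n0 * (x * c1 * c2) + n1 * (m1 * c2) + n2 * m2 = e1 * c2 + n2 * m2 := by
      rw [he1]; noncomm_ring
    rw [this]
    calc (e1 * c2 + n2 * m2) * n1 = (e1 * c2 + n2 * m2) * (e1 * n1) := by rw [h1']
      _ = ((e1 * c2 + n2 * m2) * e1) * n1 := by noncomm_ring
      _ = n1 := by rw [h2, h1']
  · have : n0 * (x * c1 * c2) + n1 * (m1 * c2) + n2 * m2 = e1 * c2 + n2 * m2 := by
      rw [he1]; noncomm_ring
    rw [this, h2']

/-- The elimination lemma behind the interpolation: `H` is a `3 × 3` matrix. -/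
theorem elim3 (hreg : VNReg A) (H : Matrix (Fin 3) (Fin 3) A) :
    ∃ f u v : A,
      (∀ r : Fin 3 → A, Matrix.vecMul r H = 0 → r 0 * f + r 1 * u = 0) ∧
      ∀ c : Fin 3 → A, Matrix.mulVec H c = c → (1 - f) * c 0 = v * c 2 := by
  obtain ⟨m0, m1, m2, hn0, hn1, hn2⟩ := reg3 hreg (H 2 0) (H 2 1) (H 2 2)
  -- `E = 1 - m n`
  set n0 := H 2 0
  set n1 := H 2 1
  set n2 := H 2 2
  set e := n0 * m0 + n1 * m1 + n2 * m2 with he
  -- `w` = first row of `H` times `m`
  set w0 := H 0 0 * m0 + H 0 1 * m1 + H 0 2 * m2 with hw0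
  set w1 := H 1 0 * m0 + H 1 1 * m1 + H 1 2 * m2 with hw1
  obtain ⟨p0, p1, p2, hp0, hp1, hp2⟩ := reg3 hreg (H 0 0 - w0 * n0) (H 0 1 - w0 * n1)
    (H 0 2 - w0 * n2)
  set f := (H 0 0 - w0 * n0) * p0 + (H 0 1 - w0 * n1) * p1 + (H 0 2 - w0 * n2) * p2 with hf
  refine ⟨f, (H 1 0 - w1 * n0) * p0 + (H 1 1 - w1 * n1) * p1 + (H 1 2 - w1 * n2) * p2,
    (1 - f) * w0, ?_, ?_⟩
  · intro r hr
    have hr0 := congrFun hr 0
    have hr1 := congrFun hr 1
    have hr2 := congrFun hr 2
    simp only [Matrix.vecMul, dotProduct, Fin.sum_univ_three, Pi.zero_apply] at hr0 hr1 hr2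
    have hw2 : n0 * m0 + n1 * m1 + n2 * m2 = e := rfl
    -- `r w = 0` where `w = H m`
    have key : r 0 * w0 + r 1 * w1 + r 2 * e = 0 := by
      have : r 0 * w0 + r 1 * w1 + r 2 * e =
          (r 0 * H 0 0 + r 1 * H 1 0 + r 2 * H 2 0) * m0 +
          (r 0 * H 0 1 + r 1 * H 1 1 + r 2 * H 2 1) * m1 +
          (r 0 * H 0 2 + r 1 * H 1 2 + r 2 * H 2 2) * m2 := by
        rw [hw0, hw1, he]; noncomm_ring
      rw [this, hr0, hr1, hr2]; simp
    have k0 : r 0 * (H 0 0 - w0 * n0) + r 1 * (H 1 0 - w1 * n0) = 0 := by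
      have : r 0 * (H 0 0 - w0 * n0) + r 1 * (H 1 0 - w1 * n0) =
          (r 0 * H 0 0 + r 1 * H 1 0 + r 2 * n0) - (r 0 * w0 + r 1 * w1 + r 2 * e) * n0
            + r 2 * (e * n0 - n0) := by noncomm_ring
      rw [this, hr0, key, hn0]; simp
    have k1 : r 0 * (H 0 1 - w0 * n1) + r 1 * (H 1 1 - w1 * n1) = 0 := by
      have : r 0 * (H 0 1 - w0 * n1) + r 1 * (H 1 1 - w1 * n1) =
          (r 0 * H 0 1 + r 1 * H 1 1 + r 2 * n1) - (r 0 * w0 + r 1 * w1 + r 2 * e) * n1
            + r 2 * (e * n1 - n1) := by noncomm_ring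
      rw [this, hr1, key, hn1]; simp
    have k2 : r 0 * (H 0 2 - w0 * n2) + r 1 * (H 1 2 - w1 * n2) = 0 := by
      have : r 0 * (H 0 2 - w0 * n2) + r 1 * (H 1 2 - w1 * n2) =
          (r 0 * H 0 2 + r 1 * H 1 2 + r 2 * n2) - (r 0 * w0 + r 1 * w1 + r 2 * e) * n2
            + r 2 * (e * n2 - n2) := by noncomm_ring
      rw [this, hr2, key, hn2]; simp
    have : r 0 * f + r 1 * ((H 1 0 - w1 * n0) * p0 + (H 1 1 - w1 * n1) * p1 +
        (H 1 2 - w1 * n2) * p2) =
        (r 0 * (H 0 0 - w0 * n0) + r 1 * (H 1 0 - w1 * n0)) * p0 +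
        (r 0 * (H 0 1 - w0 * n1) + r 1 * (H 1 1 - w1 * n1)) * p1 +
        (r 0 * (H 0 2 - w0 * n2) + r 1 * (H 1 2 - w1 * n2)) * p2 := by
      rw [hf]; noncomm_ring
    rw [this, k0, k1, k2]; simp
  · intro c hc
    have hc0 := congrFun hc 0
    have hc2 := congrFun hc 2
    simp only [Matrix.mulVec, dotProduct, Fin.sum_univ_three] at hc0 hc2
    have hc2' : n0 * c 0 + n1 * c 1 + n2 * c 2 = c 2 := hc2
    have : (1 - f) * c 0 = (1 - f) * (H 0 0 - w0 * n0) * c 0 + (1 - f) * (H 0 1 - w0 * n1) * c 1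
        + (1 - f) * (H 0 2 - w0 * n2) * c 2 + (1 - f) * w0 * (n0 * c 0 + n1 * c 1 + n2 * c 2)
        + (1 - f) * (c 0 - (H 0 0 * c 0 + H 0 1 * c 1 + H 0 2 * c 2)) := by noncomm_ring
    rw [this, hc0, hc2', sub_self, mul_zero, add_zero, sub_mul 1 f (H 0 0 - w0 * n0),
      sub_mul 1 f (H 0 1 - w0 * n1), sub_mul 1 f (H 0 2 - w0 * n2), hp0, hp1, hp2]
    simp

/-- Countable interpolation with one free unknown on each side. -/
theorem G3 (hreg : VNReg A) (hS : Interp (Matrix (Fin 3) (Fin 3) A)) {I J : Type*}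
    [Countable I] [Countable J] (r0 r1 r2 : I → A) (c0 c1 c2 : J → A)
    (h : ∀ i j, r0 i * c0 j + r1 i * c1 j + r2 i * c2 j = 0) :
    ∃ f u v, (∀ i, r0 i * f + r1 i * u = 0) ∧ ∀ j, (1 - f) * c0 j = v * c2 j := by
  obtain ⟨H, h1, h2⟩ := hS.countable
    (fun i : I => (Matrix.of ![![r0 i, r1 i, r2 i], 0, 0] : Matrix (Fin 3) (Fin 3) A))
    (fun j : J => (Matrix.of ![![c0 j, 0, 0], ![c1 j, 0, 0], ![c2 j, 0, 0]] :
      Matrix (Fin 3) (Fin 3) A)) (by
        intro i j
        ext x y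
        fin_cases x <;> fin_cases y <;> simp [Matrix.mul_apply, Fin.sum_univ_three, h])
  obtain ⟨f, u, v, hf, hc⟩ := elim3 hreg H
  refine ⟨f, u, v, fun i => ?_, fun j => ?_⟩
  · have := hf ![r0 i, r1 i, r2 i] (by
      ext y
      have := congrFun (congrFun (h1 i) 0) y
      simpa [Matrix.mul_apply, Matrix.vecMul, dotProduct, Fin.sum_univ_three] using this)
    simpa using this
  · have := hc ![c0 j, c1 j, c2 j] (by
      ext y
      have := congrFun (congrFun (h2 j) y) 0
      fin_cases y <;>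
      simpa [Matrix.mul_apply, Matrix.mulVec, dotProduct, Fin.sum_univ_three] using this)
    simpa using this

/-- The case of one unknown. -/
theorem G1 (hreg : VNReg A) (hS : Interp (Matrix (Fin 3) (Fin 3) A)) {I J : Type*}
    [Countable I] [Countable J] (a : I → A) (b : J → A) (h : ∀ i j, a i * b j = 0) :
    ∃ f, (∀ i, a i * f = 0) ∧ ∀ j, f * b j = b j := by
  obtain ⟨f, u, v, h1, h2⟩ := G3 hreg hS a (fun _ => 0) (fun _ => 0) b (fun _ => 0) (fun _ => 0)
    (by intro i j; simp [h])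
  refine ⟨f, fun i => by simpa using h1 i, fun j => ?_⟩
  have := h2 j
  simp only [sub_mul, one_mul, mul_zero] at this
  exact (sub_eq_zero.1 this).symm

/-- `E1`: simultaneous adjustment. -/
theorem E1 (hreg : VNReg A) (hS : Interp (Matrix (Fin 3) (Fin 3) A)) {q ε : ℕ → A}
    (hqo : ∀ k l, k ≠ l → q k * q l = 0) (hεo : ∀ k l, k ≠ l → ε k * ε l = 0)
    {I J : Type*} [Countable I] [Countable J] (t s : ℕ → A) (d : I → A) (e : J → A)
    (ht : ∀ k, q k * t k = t k) (hs : ∀ j, s j * ε j = s j)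
    (hde : ∀ i l, d i * e l = 0) (hte : ∀ l, ∃ u, ∀ k, t k * e l = q k * u)
    (hds : ∀ i, ∃ v, ∀ j, d i * s j = v * ε j) :
    ∃ p, (∀ i, d i * p = 0) ∧ (∃ u, ∀ k, t k * p = q k * u) ∧ (∀ l, p * e l = e l) ∧
      ∃ v, ∀ j, (1 - p) * s j = v * ε j := by
  choose b hb using hte
  choose w hw using hds
  set S : ℕ → A := fun j => ∑ k ∈ Finset.range (j + 1), t k * s j
  set T : ℕ → A := fun k => ∑ j ∈ Finset.range k, t k * s j
  have hS' : ∀ k j, q k * S j = if k ≤ j then t k * s j else 0 := by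
    intro k j
    simp only [S, Finset.mul_sum]
    have : ∀ k', q k * (t k' * s j) = if k' = k then t k * s j else 0 := by
      intro k'
      split_ifs with hk
      · subst hk; rw [← mul_assoc, ht]
      · rw [← ht k', ← mul_assoc, ← mul_assoc, hqo k k' (Ne.symm hk)]; simp
    simp only [this]
    rw [Finset.sum_ite_eq' (Finset.range (j + 1)) k]
    simp
  have hT' : ∀ k j, T k * ε j = if j < k then t k * s j else 0 := by
    intro k j
    simp only [T, Finset.sum_mul]
    have : ∀ j', (t k * s j') * ε j = if j' = j then t k * s j else 0 := by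
      intro j'
      split_ifs with hk
      · subst hk; rw [mul_assoc, hs]
      · rw [← hs j', mul_assoc, mul_assoc, hεo j' j hk]; simp
    simp only [this]
    rw [Finset.sum_ite_eq' (Finset.range k) j]
    simp
  obtain ⟨f, u, v, h1, h2⟩ := G3 hreg hS
    (Sum.elim t d) (Sum.elim (fun k => - q k) (fun _ => 0)) (Sum.elim (fun k => - T k) (fun i => - w i))
    (Sum.elim s e) (Sum.elim S b) (Sum.elim ε (fun _ => 0)) (by
      rintro (k | i) (j | l)
      · simp only [Sum.elim_inl]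
        have e1 := hS' k j
        have e2 := hT' k j
        have : t k * s j + -q k * S j + -T k * ε j = t k * s j - (q k * S j) - (T k * ε j) := by
          noncomm_ring
        rw [this, e1, e2]
        by_cases hkj : k ≤ j
        · simp [hkj, not_lt.2 hkj]
        · simp [hkj, not_le.1 hkj]
      · simp only [Sum.elim_inl, Sum.elim_inr, hb l k]
        noncomm_ring
      · simp only [Sum.elim_inl, Sum.elim_inr, hw i j]
        noncomm_ring
      · simp [hde i l])
  refine ⟨f, fun i => by simpa using h1 (Sum.inr i), ⟨u, fun k => ?_⟩, fun l => ?_, v, fun j => ?_⟩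
  · have := h1 (Sum.inl k)
    simp only [Sum.elim_inl, neg_mul] at this
    exact sub_eq_zero.1 (by rw [sub_eq_add_neg]; exact this)
  · have := h2 (Sum.inr l)
    simp only [Sum.elim_inr, mul_zero, sub_mul, one_mul] at this
    exact (sub_eq_zero.1 this).symm
  · simpa using h2 (Sum.inl j)

end Reg

end Pool.Agent.H34R2.PS
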