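import Pool.Agent.H34R2.PSBasic

set_option autoImplicit false

/-! One-sided completion of truncated annihilators in power series rings over a von Neumann
regular ring with countable interpolation. -/

namespace Pool.Agent.H34R2.PS

open PowerSeries MulOpposite

section Coeff

variable {A : Type*} [Ring A]

theorem coeff_mul_low (z F : A⟦X⟧) (m : ℕ) (h : ∀ i < m, coeff i F = 0) :
    (∀ i < m, coeff i (z * F) = 0) ∧ coeff m (z * F) = coeff 0 z * coeff m F := by
  constructor
  · intro i hi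
    rw [coeff_mul]
    refine Finset.sum_eq_zero fun p hp => ?_
    rw [Finset.HasAntidiagonal.mem_antidiagonal] at hp
    rw [h p.2 (by omega), mul_zero]
  · rw [coeff_mul, Finset.sum_eq_single (0, m)]
    · rintro ⟨x, y⟩ hp hne
      rw [Finset.HasAntidiagonal.mem_antidiagonal] at hp
      simp only at hp
      have : y < m := by
        rcases Nat.eq_zero_or_pos x with h0 | h0
        · exfalso; apply hne; subst h0; simp at hp; rw [hp]
        · omega
      rw [h y this, mul_zero]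
    · intro hn
      exact absurd (by simp) hn

theorem coeff_mul_low' (z F : A⟦X⟧) (m : ℕ) (h : ∀ i < m, coeff i F = 0) :
    (∀ i < m, coeff i (F * z) = 0) ∧ coeff m (F * z) = coeff m F * coeff 0 z := by
  constructor
  · intro i hi
    rw [coeff_mul]
    refine Finset.sum_eq_zero fun p hp => ?_
    rw [Finset.HasAntidiagonal.mem_antidiagonal] at hp
    rw [h p.1 (by omega), zero_mul]
  · rw [coeff_mul, Finset.sum_eq_single (m, 0)]
    · rintro ⟨x, y⟩ hp hne
      rw [Finset.HasAntidiagonal.mem_antidiagonal] at hp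
      simp only at hp
      have : x < m := by
        rcases Nat.eq_zero_or_pos y with h0 | h0
        · exfalso; apply hne; subst h0; simp at hp; rw [hp]
        · omega
      rw [h x this, zero_mul]
    · intro hn
      exact absurd (by simp) hn

theorem coeff_mul_congr (z U V : A⟦X⟧) (i : ℕ) (h : ∀ j ≤ i, coeff j U = coeff j V) :
    coeff i (z * U) = coeff i (z * V) := by
  rw [coeff_mul, coeff_mul]
  refine Finset.sum_congr rfl fun p hp => ?_
  rw [Finset.HasAntidiagonal.mem_antidiagonal] at hp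
  rw [h p.2 (by omega)]

theorem coeff_mul_congr' (z U V : A⟦X⟧) (i : ℕ) (h : ∀ j ≤ i, coeff j U = coeff j V) :
    coeff i (U * z) = coeff i (V * z) := by
  rw [coeff_mul, coeff_mul]
  refine Finset.sum_congr rfl fun p hp => ?_
  rw [Finset.HasAntidiagonal.mem_antidiagonal] at hp
  rw [h p.1 (by omega)]

/-- The updated approximate solution. -/
noncomputable def upd (K : A⟦X⟧) (p u : A) (N : ℕ) : A⟦X⟧ := K * C p - X ^ N * C u

theorem coeff_upd_lt (K : A⟦X⟧) (p u : A) (N i : ℕ) (hi : i < N) :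
    coeff i (upd K p u N) = coeff i K * p := by
  rw [upd, map_sub, coeff_mul_C, coeff_X_pow_mul', if_neg (not_le.2 hi), sub_zero]

theorem coeff_upd_eq (K : A⟦X⟧) (p u : A) (N : ℕ) :
    coeff N (upd K p u N) = coeff N K * p - u := by
  rw [upd, map_sub, coeff_mul_C, coeff_X_pow_mul', if_pos le_rfl, Nat.sub_self, coeff_zero_C]

theorem coeff_mul_upd_lt (z K : A⟦X⟧) (p u : A) (N i : ℕ) (hi : i < N) :
    coeff i (z * upd K p u N) = coeff i (z * K) * p := by
  have : z * upd K p u N = (z * K) * C p - X ^ N * (z * C u) := by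
    rw [upd, mul_sub, ← mul_assoc, ← mul_assoc, ← mul_assoc, (commute_X_pow z N).eq]
  rw [this, map_sub, coeff_mul_C, coeff_X_pow_mul', if_neg (not_le.2 hi), sub_zero]

theorem coeff_mul_upd_eq (z K : A⟦X⟧) (p u : A) (N : ℕ) :
    coeff N (z * upd K p u N) = coeff N (z * K) * p - coeff 0 z * u := by
  have : z * upd K p u N = (z * K) * C p - X ^ N * (z * C u) := by
    rw [upd, mul_sub, ← mul_assoc, ← mul_assoc, ← mul_assoc, (commute_X_pow z N).eq]
  rw [this, map_sub, coeff_mul_C, coeff_X_pow_mul', if_pos le_rfl, Nat.sub_self, coeff_mul_C]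

/-- Limits of stabilising sequences. -/
theorem lim_exists (F : ℕ → A⟦X⟧) (m : ℕ)
    (h : ∀ n, ∀ i < m + n, coeff i (F (n + 1)) = coeff i (F n)) :
    ∃ U : A⟦X⟧, ∀ n, ∀ i < m + n, coeff i U = coeff i (F n) := by
  have hst : ∀ n d, ∀ i < m + n, coeff i (F (n + d)) = coeff i (F n) := by
    intro n d
    induction d with
    | zero => intro i _; rfl
    | succ d ih =>
      intro i hi
      rw [← add_assoc, h (n + d) i (by omega), ih i hi]
  refine ⟨mk fun i => coeff i (F (i + 1)), fun n i hi => ?_⟩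
  rw [coeff_mk]
  rcases le_total n (i + 1) with hn | hn
  · obtain ⟨d, hd⟩ := Nat.exists_eq_add_of_le hn
    rw [hd, hst n d i hi]
  · obtain ⟨d, hd⟩ := Nat.exists_eq_add_of_le hn
    rw [hd, hst (i + 1) d i (by omega)]

end Coeff

/-- Normalised families of left and right equations. -/
structure Dat (A : Type*) [Ring A] where
  q : ℕ → A
  ε : ℕ → A
  z : ℕ → A⟦X⟧
  y : ℕ → A⟦X⟧
  hqo : ∀ k l, k ≠ l → q k * q l = 0
  hεo : ∀ k l, k ≠ l → ε k * ε l = 0
  hz : ∀ k, C (q k) * z k = z k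
  hz0 : ∀ k, coeff 0 (z k) = q k
  hy : ∀ j, y j * C (ε j) = y j
  hy0 : ∀ j, coeff 0 (y j) = ε j
  hzy : ∀ k j, z k * y j = 0

namespace Dat

variable {A : Type*} [Ring A] (D : Dat A)

theorem hq (k : ℕ) : D.q k * D.q k = D.q k := by
  have := congrArg (coeff 0) (D.hz k)
  rwa [coeff_C_mul, D.hz0] at this

theorem hε (k : ℕ) : D.ε k * D.ε k = D.ε k := by
  have := congrArg (coeff 0) (D.hy k)
  rwa [coeff_mul_C, D.hy0] at this

theorem hqε (k j : ℕ) : D.q k * D.ε j = 0 := by
  have := congrArg (coeff 0) (D.hzy k j)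
  rw [coeff_zero_eq_constantCoeff, map_mul] at this
  rw [← D.hz0, ← D.hy0]
  simpa using this

/-- `U` is annihilated by all the `z k`. -/
def LT (U : A⟦X⟧) : Prop := ∀ k, D.z k * U = 0

/-- `W` annihilates all the `y j`. -/
def RT (W : A⟦X⟧) : Prop := ∀ j, W * D.y j = 0

/-- `H` is a left solution modulo `X ^ m`. -/
def Llev (m : ℕ) (H : A⟦X⟧) : Prop := ∀ k, ∀ i < m, coeff i (D.z k * H) = 0

/-- `G` is a right solution modulo `X ^ m`. -/
def Rlev (m : ℕ) (G : A⟦X⟧) : Prop := ∀ j, ∀ i < m, coeff i (G * D.y j) = 0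

/-- `F` agrees modulo `X ^ m` with a true left solution. -/
def LExt (m : ℕ) (F : A⟦X⟧) : Prop := ∃ U, D.LT U ∧ ∀ i < m, coeff i U = coeff i F

/-- `F` agrees modulo `X ^ m` with a true right solution. -/
def RExt (m : ℕ) (F : A⟦X⟧) : Prop := ∃ W, D.RT W ∧ ∀ i < m, coeff i W = coeff i F

variable {D}

theorem LT.mul {U : A⟦X⟧} (h : D.LT U) (V : A⟦X⟧) : D.LT (U * V) := fun k => by
  rw [← mul_assoc, h k, zero_mul]

theorem LT.add {U V : A⟦X⟧} (h : D.LT U) (h' : D.LT V) : D.LT (U + V) := fun k => by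
  rw [mul_add, h k, h' k, add_zero]

theorem LT.X_pow_mul {U : A⟦X⟧} (h : D.LT U) (N : ℕ) : D.LT (X ^ N * U) := fun k => by
  rw [← mul_assoc, (commute_X_pow (D.z k) N).eq, mul_assoc, h k, mul_zero]

theorem LT.q_coeff_zero {U : A⟦X⟧} (h : D.LT U) (k : ℕ) : D.q k * coeff 0 U = 0 := by
  have := congrArg (coeff 0) (h k)
  rw [coeff_zero_eq_constantCoeff, map_mul] at this
  rw [← D.hz0]
  simpa using this

theorem q_mul_coeff (H : A⟦X⟧) (k N : ℕ) :
    D.q k * coeff N (D.z k * H) = coeff N (D.z k * H) := by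
  rw [← coeff_C_mul, ← mul_assoc, D.hz]

/-- The limit of a stabilising sequence of left solutions of increasing level is a true left
solution. -/
theorem LT_of_lim {F : ℕ → A⟦X⟧} {m : ℕ} {U : A⟦X⟧}
    (hU : ∀ n, ∀ i < m + n, coeff i U = coeff i (F n)) (hF : ∀ n, D.Llev (m + n) (F n)) :
    D.LT U := by
  intro k
  ext i
  rw [coeff_mul_congr (D.z k) U (F (i + 1)) i (fun j hj => hU (i + 1) j (by omega)),
    hF (i + 1) k i (by omega), map_zero]

variable (hreg : VNReg A) (hS : Interp (Matrix (Fin 3) (Fin 3) A))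

include hreg hS

/-- One-sided completion. -/
theorem T1 (m : ℕ) (H : A⟦X⟧) (hH : D.Llev m H) (a b : A) (haa : a * a = a) (hba : b * a = 0)
    (hHa : D.LExt m (H * C a)) (s : ℕ → A) (hs : ∀ j, s j * D.ε j = s j)
    (hbs : ∃ v, ∀ j, b * s j = v * D.ε j) :
    ∃ P, b * P = 0 ∧ P * a = a ∧ (∃ v, ∀ j, (1 - P) * s j = v * D.ε j) ∧
      D.LExt m (H * C P) := by
  obtain ⟨U0', hU0', hU0H'⟩ := hHa
  obtain ⟨U0, hU0, hU0a, hU0H⟩ : ∃ U0, D.LT U0 ∧ U0 * C a = U0 ∧
      ∀ i < m, coeff i H * a = coeff i U0 := by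
    refine ⟨U0' * C a, hU0'.mul _, ?_, fun i hi => ?_⟩
    · rw [mul_assoc, ← map_mul, haa]
    · rw [coeff_mul_C, hU0H' i hi, coeff_mul_C, mul_assoc, haa]
  let State : ℕ → Type _ := fun n =>
    {K : A⟦X⟧ // D.Llev (m + n) K ∧ ∀ i < m + n, coeff i K * a = coeff i U0}
  have step : ∀ n (K : State n), ∃ K' : State (n + 1), ∃ p, p * a = a ∧
      (∃ v, ∀ j, (1 - p) * s j = v * D.ε j) ∧ ∀ i < m + n, coeff i K'.1 = coeff i K.1 * p := by
    rintro n ⟨K, hK, hKU⟩
    set N := m + n with hN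
    set β := coeff N K * a - coeff N U0 with hβ
    have hβa : β * a = β := by
      rw [hβ, sub_mul, mul_assoc, haa]
      congr 1
      rw [← coeff_mul_C, hU0a]
    have hta : ∀ k, coeff N (D.z k * K) * a = D.q k * β := by
      intro k
      have h1 := (coeff_mul_low (D.z k) (K * C a - U0) N (fun i hi => by
        rw [map_sub, coeff_mul_C, hKU i hi, sub_self])).2
      rw [mul_sub, hU0 k, sub_zero, ← mul_assoc, coeff_mul_C, map_sub, coeff_mul_C, D.hz0] at h1
      exact h1
    obtain ⟨p, -, ⟨u0, hu0⟩, hpa, hps⟩ := E1 hreg hS D.hqo D.hεo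
      (fun k => coeff N (D.z k * K)) s (fun i : Empty => i.elim) (fun _ : Unit => a)
      (fun k => q_mul_coeff K k N) hs (fun i => i.elim) (fun _ => ⟨β, hta⟩) (fun i => i.elim)
    have hpa : p * a = a := hpa ()
    set u := u0 * (1 - a) + β with hu
    have hua : u * a = β := by
      rw [hu, add_mul, mul_assoc, sub_mul, one_mul, haa, sub_self, mul_zero, zero_add, hβa]
    refine ⟨⟨upd K p u N, fun k i hi => ?_, fun i hi => ?_⟩, p, hpa, hps, fun i hi => ?_⟩
    · rcases Nat.lt_succ_iff_lt_or_eq.1 (show i < N + 1 by omega) with hi | rfl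
      · rw [coeff_mul_upd_lt _ _ _ _ _ _ hi, hK k i hi, zero_mul]
      · rw [coeff_mul_upd_eq, D.hz0, hu0, hu, mul_add, ← hta, mul_sub, mul_one, mul_sub,
          ← mul_assoc, ← hu0, mul_assoc _ p a, hpa]
        abel
    · rcases Nat.lt_succ_iff_lt_or_eq.1 (show i < N + 1 by omega) with hi | rfl
      · rw [coeff_upd_lt _ _ _ _ _ hi, mul_assoc, hpa, hKU i hi]
      · rw [coeff_upd_eq, sub_mul, mul_assoc, hpa, hua, hβ]
        abel
    · exact coeff_upd_lt _ _ _ _ _ hi
  choose next p hp1 hp2 hp3 using step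
  let seq : ∀ n, State n := fun n =>
    Nat.rec (motive := State) ⟨H, by simpa using hH, by simpa using hU0H⟩
      (fun n K => next n K) n
  have hseq : ∀ n, seq (n + 1) = next n (seq n) := fun n => rfl
  set pn : ℕ → A := fun n => p n (seq n) with hpn
  obtain ⟨P, hP1, -, hP3, v, hP4⟩ := E1 hreg hS D.hqo D.hεo (fun _ => 0) s
    (fun o : Option ℕ => o.elim b (fun n => 1 - pn n)) (fun _ : Unit => a)
    (by simp) hs (by
      rintro (_ | n) -
      · exact hba
      · simp only [Option.elim, sub_mul, one_mul, hpn, hp1, sub_self])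
    (fun _ => ⟨0, by simp⟩) (by
      rintro (_ | n)
      · exact hbs
      · exact hp2 n (seq n))
  have hP1' : ∀ n, pn n * P = P := fun n => by
    have := hP1 (some n)
    simp only [Option.elim, sub_mul, one_mul] at this
    exact (sub_eq_zero.1 this).symm
  refine ⟨P, hP1 none, hP3 (), ⟨v, hP4⟩, ?_⟩
  obtain ⟨U, hU⟩ := lim_exists (fun n => (seq n).1 * C P) m (by
    intro n i hi
    simp only [coeff_mul_C]
    rw [hseq, hp3 n (seq n) i hi, mul_assoc]
    congr 1
    exact hP1' n)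
  refine ⟨U, LT_of_lim hU (fun n k i hi => ?_), fun i hi => hU 0 i hi⟩
  rw [← mul_assoc, coeff_mul_C, (seq n).2.1 k i hi, zero_mul]

end Dat

end Pool.Agent.H34R2.PS
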