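import Pool.Agent.H34R2.PSCore

set_option autoImplicit false

/-! Completion of the simultaneous problem `P * ε j = ε j`, and the two-sided recursion. -/

namespace Pool.Agent.H34R2.PS

open PowerSeries MulOpposite

namespace Dat

variable {A : Type*} [Ring A] {D : Dat A}

section

variable (hreg : VNReg A) (hS : Interp (Matrix (Fin 3) (Fin 3) A))

include hreg hS

theorem T0 (s : ℕ → A) (hs : ∀ j, s j * D.ε j = s j) (hqs : ∀ k j, D.q k * s j = 0) :
    ∃ U, D.LT U ∧ ∃ v, ∀ j, (1 - coeff 0 U) * s j = v * D.ε j := by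
  obtain ⟨h0, hq0, h0s⟩ := G1 hreg hS D.q s hqs
  obtain ⟨P, -, -, ⟨v, hv⟩, U, hU, hUH⟩ := T1 hreg hS (D := D) 1 (C h0) (by
    intro k i hi
    obtain rfl : i = 0 := by omega
    rw [coeff_mul_C, D.hz0, hq0]) 0 0 (by simp) (by simp) ⟨0, fun k => by simp, fun i _ => by simp⟩
    s hs ⟨0, by simp⟩
  refine ⟨U, hU, h0 * v, fun j => ?_⟩
  rw [hUH 0 (by omega), ← map_mul, coeff_zero_C, mul_assoc, ← hv j, sub_mul, one_mul, sub_mul,
    one_mul, mul_sub, h0s, mul_assoc]

theorem RI (s : ℕ → A) (hs : ∀ j, s j * D.ε j = s j) (hqs : ∀ k j, D.q k * s j = 0) :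
    ∃ y0, (∀ k, D.q k * y0 = 0) ∧ ∀ j, ∃ V, D.LT V ∧ coeff 0 V = s j - y0 * D.ε j := by
  obtain ⟨U, hU, v, hv⟩ := T0 hreg hS s hs hqs
  obtain ⟨h, hqh, hh⟩ := G1 hreg hS D.q (fun j => v * D.ε j) (fun k j => by
    rw [← hv, ← mul_assoc, mul_sub, mul_one, hU.q_coeff_zero, sub_zero, hqs])
  refine ⟨h * v, fun k => by rw [← mul_assoc, hqh, zero_mul], fun j => ⟨U * C (s j), hU.mul _, ?_⟩⟩
  rw [coeff_mul_C, mul_assoc h v, hh, ← hv, sub_mul, one_mul, sub_sub_cancel]

/-- Claim F. -/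
theorem claimF (d : A) (hd : ∀ j, d * D.ε j = 0) :
    ∃ U, D.LT U ∧ (∀ j, coeff 0 U * D.ε j = D.ε j) ∧ d * coeff 0 U = 0 := by
  obtain ⟨h0, hrow, h0ε⟩ := G1 hreg hS (fun o : Option ℕ => o.elim d D.q) D.ε (by
    rintro (_ | k) j
    · exact hd j
    · exact D.hqε k j)
  have hd0 : d * h0 = 0 := hrow none
  have hq0 : ∀ k, D.q k * h0 = 0 := fun k => hrow (some k)
  let State : ℕ → Type _ := fun n =>
    {K : A⟦X⟧ // D.Llev (1 + n) K ∧ ∀ j, D.LExt (1 + n) (K * C (D.ε j))}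
  have step : ∀ n (K : State n), ∃ K' : State (n + 1), ∃ p, (∀ j, p * D.ε j = D.ε j) ∧
      ∀ i < 1 + n, coeff i K'.1 = coeff i K.1 * p := by
    rintro n ⟨K, hK, hKU⟩
    set N := 1 + n with hN
    choose Y' hY' hYK' using hKU
    set Y : ℕ → A⟦X⟧ := fun j => Y' j * C (D.ε j) with hYdef
    have hY : ∀ j, D.LT (Y j) := fun j => (hY' j).mul _
    have hYK : ∀ j, ∀ i < N, coeff i (Y j) = coeff i K * D.ε j := by
      intro j i hi
      rw [hYdef, coeff_mul_C, hYK' j i hi, coeff_mul_C, mul_assoc, D.hε]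
    have hYε : ∀ j i, coeff i (Y j) * D.ε j = coeff i (Y j) := by
      intro j i
      rw [hYdef, coeff_mul_C, mul_assoc, D.hε]
    set β : ℕ → A := fun j => coeff N K * D.ε j - coeff N (Y j) with hβ
    have hβε : ∀ j, β j * D.ε j = β j := by
      intro j
      simp only [hβ]
      rw [sub_mul, mul_assoc, D.hε, hYε]
    have htε : ∀ j k, coeff N (D.z k * K) * D.ε j = D.q k * β j := by
      intro j k
      have h1 := (coeff_mul_low (D.z k) (K * C (D.ε j) - Y j) N (fun i hi => by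
        rw [map_sub, coeff_mul_C, hYK j i hi, sub_self])).2
      rw [mul_sub, hY j k, sub_zero, ← mul_assoc, coeff_mul_C, map_sub, coeff_mul_C, D.hz0] at h1
      exact h1
    obtain ⟨p, -, ⟨u, hu⟩, hpε, -⟩ := E1 hreg hS D.hqo D.hεo
      (fun k => coeff N (D.z k * K)) (fun _ => 0) (fun i : Empty => i.elim) D.ε
      (fun k => q_mul_coeff K k N) (by simp) (fun i => i.elim) (fun j => ⟨β j, htε j⟩)
      (fun i => i.elim)
    obtain ⟨y0, hqy, hV⟩ := RI hreg hS (D := D) (fun j => β j - u * D.ε j) (fun j => by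
      rw [sub_mul, hβε, mul_assoc, D.hε]) (fun k j => by
      rw [mul_sub, ← htε, ← mul_assoc, ← hu, mul_assoc, hpε, sub_self])
    choose V hVL hV0 using hV
    refine ⟨⟨upd K p (u + y0) N, fun k i hi => ?_, fun j => ⟨Y j + X ^ N * V j, ?_, ?_⟩⟩, p, hpε,
      fun i hi => ?_⟩
    · rcases Nat.lt_succ_iff_lt_or_eq.1 (show i < N + 1 by omega) with hi | rfl
      · rw [coeff_mul_upd_lt _ _ _ _ _ _ hi, hK k i hi, zero_mul]
      · rw [coeff_mul_upd_eq, D.hz0, hu, mul_add, hqy, add_zero, sub_self]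
    · exact (hY j).add ((hVL j).X_pow_mul N)
    · intro i hi
      rcases Nat.lt_succ_iff_lt_or_eq.1 (show i < N + 1 by omega) with hi | rfl
      · rw [coeff_mul_C, coeff_upd_lt _ _ _ _ _ hi, map_add, coeff_X_pow_mul',
          if_neg (not_le.2 hi), add_zero, mul_assoc, hpε, hYK j i hi]
      · rw [coeff_mul_C, coeff_upd_eq, map_add, coeff_X_pow_mul', if_pos le_rfl, Nat.sub_self,
          hV0, sub_mul, mul_assoc, hpε, add_mul]
        have hβj : β j = coeff N K * D.ε j - coeff N (Y j) := rfl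
        rw [hβj]
        generalize coeff N (Y j) = Z1
        abel
    · exact coeff_upd_lt _ _ _ _ _ hi
  choose next p hp1 hp3 using step
  let seq : ∀ n, State n := fun n =>
    Nat.rec (motive := State) ⟨C h0, by
      intro k i hi
      obtain rfl : i = 0 := Nat.lt_one_iff.1 hi
      rw [coeff_mul_C, D.hz0, hq0], by
      intro j
      refine ⟨D.y j, fun k => D.hzy k j, fun i hi => ?_⟩
      obtain rfl : i = 0 := Nat.lt_one_iff.1 hi
      rw [D.hy0, coeff_mul_C, coeff_zero_C, h0ε]⟩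
      (fun n K => next n K) n
  have hseq : ∀ n, seq (n + 1) = next n (seq n) := fun n => rfl
  set pn : ℕ → A := fun n => p n (seq n) with hpn
  obtain ⟨P, hP1, hP3⟩ := G1 hreg hS (fun n => 1 - pn n) D.ε
    (by intro n j; simp only [sub_mul, one_mul, hpn, hp1, sub_self])
  have hP1' : ∀ n, pn n * P = P := fun n => by
    have := hP1 n
    simp only [sub_mul, one_mul] at this
    exact (sub_eq_zero.1 this).symm
  obtain ⟨U, hU⟩ := lim_exists (fun n => (seq n).1 * C P) 1 (by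
    intro n i hi
    simp only [coeff_mul_C]
    rw [hseq, hp3 n (seq n) i hi, mul_assoc]
    congr 1
    exact hP1' n)
  have hU0 : coeff 0 U = h0 * P := by
    rw [hU 0 0 (by omega), coeff_mul_C]
    congr 1
    exact coeff_zero_C h0
  refine ⟨U, LT_of_lim hU (fun n k i hi => ?_), fun j => ?_, ?_⟩
  · rw [← mul_assoc, coeff_mul_C, (seq n).2.1 k i hi, zero_mul]
  · rw [hU0, mul_assoc, hP3, h0ε]
  · rw [hU0, ← mul_assoc, hd0, zero_mul]

end

end Dat

/-! ### The opposite ring -/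

section Op

variable {A : Type*} [Ring A]

/-- The anti-isomorphism of power series rings. -/
noncomputable def opPS (f : A⟦X⟧) : Aᵐᵒᵖ⟦X⟧ := mk fun n => op (coeff n f)

/-- The inverse of `opPS`. -/
noncomputable def unopPS (f : Aᵐᵒᵖ⟦X⟧) : A⟦X⟧ := mk fun n => unop (coeff n f)

@[simp] theorem coeff_opPS (f : A⟦X⟧) (n : ℕ) : coeff n (opPS f) = op (coeff n f) := coeff_mk _ _

@[simp] theorem coeff_unopPS (f : Aᵐᵒᵖ⟦X⟧) (n : ℕ) : coeff n (unopPS f) = unop (coeff n f) :=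
  coeff_mk _ _

@[simp] theorem opPS_unopPS (f : Aᵐᵒᵖ⟦X⟧) : opPS (unopPS f) = f := by
  ext n; simp

theorem opPS_mul (f g : A⟦X⟧) : opPS (f * g) = opPS g * opPS f := by
  ext n
  rw [coeff_opPS, coeff_mul, coeff_mul, ← Finset.Nat.sum_antidiagonal_swap]
  simp [Finset.op_sum]

theorem opPS_C (a : A) : opPS (C a) = C (op a) := by
  ext n
  rw [coeff_opPS, coeff_C, coeff_C]
  split_ifs <;> rfl

theorem opPS_injective : Function.Injective (opPS (A := A)) := by
  intro f g h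
  ext n
  have := congrArg (coeff n) h
  rw [coeff_opPS, coeff_opPS] at this
  exact op_injective this

theorem opPS_zero : opPS (0 : A⟦X⟧) = 0 := by
  ext n; simp

theorem VNReg.op (h : VNReg A) : VNReg Aᵐᵒᵖ := fun a => by
  obtain ⟨x, hx⟩ := h a.unop
  refine ⟨MulOpposite.op x, ?_⟩
  apply unop_injective
  rw [unop_mul, unop_mul, unop_op, ← mul_assoc, hx]

theorem Interp.op_matrix {n : ℕ} (h : Interp (Matrix (Fin n) (Fin n) A)) :
    Interp (Matrix (Fin n) (Fin n) Aᵐᵒᵖ) := by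
  intro a b hab
  -- transposition
  let φ : Matrix (Fin n) (Fin n) A → Matrix (Fin n) (Fin n) Aᵐᵒᵖ := fun M => (M.map op).transpose
  let ψ : Matrix (Fin n) (Fin n) Aᵐᵒᵖ → Matrix (Fin n) (Fin n) A := fun M =>
    (M.map unop).transpose
  have hφψ : ∀ M, φ (ψ M) = M := fun M => by
    ext i j; simp [φ, ψ]
  have hφmul : ∀ M N, φ (M * N) = φ N * φ M := by
    intro M N
    ext i j
    simp [φ, Matrix.mul_apply, Finset.op_sum]
  have hφ0 : φ 0 = 0 := by ext i j; simp [φ]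
  have hφinj : ∀ M N, φ M = φ N → M = N := by
    intro M N hMN
    ext i j
    have := congrFun (congrFun hMN j) i
    simpa [φ] using this
  obtain ⟨k, h1, h2⟩ := h (fun i => ψ (b i)) (fun j => ψ (a j)) (by
    intro i j
    apply hφinj
    rw [hφmul, hφψ, hφψ, hab, hφ0])
  refine ⟨φ (1 - k), fun i => ?_, fun j => ?_⟩
  · rw [← hφψ (a i), ← hφmul, sub_mul, one_mul, h2, sub_self, hφ0]
  · rw [← hφψ (b j), ← hφmul, mul_sub, mul_one, h1, sub_zero]

namespace Dat

/-- The opposite datum. -/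
noncomputable def op (D : Dat A) : Dat Aᵐᵒᵖ where
  q k := MulOpposite.op (D.ε k)
  ε k := MulOpposite.op (D.q k)
  z k := opPS (D.y k)
  y k := opPS (D.z k)
  hqo k l h := by rw [← op_mul, D.hεo l k h.symm, op_zero]
  hεo k l h := by rw [← op_mul, D.hqo l k h.symm, op_zero]
  hz k := by rw [← opPS_C, ← opPS_mul, D.hy]
  hz0 k := by rw [coeff_opPS, D.hy0]
  hy k := by rw [← opPS_C, ← opPS_mul, D.hz]
  hy0 k := by rw [coeff_opPS, D.hz0]
  hzy k j := by rw [← opPS_mul, D.hzy, opPS_zero]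

variable {D : Dat A}

theorem LT_op {W : A⟦X⟧} : D.op.LT (opPS W) ↔ D.RT W := by
  unfold LT RT
  refine forall_congr' fun j => ?_
  show opPS (D.y j) * opPS W = 0 ↔ _
  rw [← opPS_mul, ← opPS_zero, opPS_injective.eq_iff]

theorem LT_op' {W : Aᵐᵒᵖ⟦X⟧} : D.op.LT W ↔ D.RT (unopPS W) := by
  rw [← LT_op, opPS_unopPS]

theorem Llev_op {W : A⟦X⟧} {m : ℕ} : D.op.Llev m (opPS W) ↔ D.Rlev m W := by
  unfold Llev Rlev
  refine forall_congr' fun j => forall_congr' fun i => forall_congr' fun _ => ?_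
  show coeff i (opPS (D.y j) * opPS W) = 0 ↔ _
  rw [← opPS_mul, coeff_opPS, op_eq_zero_iff]

theorem LExt_op {W : A⟦X⟧} {m : ℕ} : D.op.LExt m (opPS W) ↔ D.RExt m W := by
  constructor
  · rintro ⟨U, hU, hUW⟩
    refine ⟨unopPS U, LT_op'.1 hU, fun i hi => ?_⟩
    rw [coeff_unopPS, hUW i hi, coeff_opPS, unop_op]
  · rintro ⟨U, hU, hUW⟩
    refine ⟨opPS U, LT_op.2 hU, fun i hi => ?_⟩
    rw [coeff_opPS, hUW i hi, coeff_opPS]

variable (hreg : VNReg A) (hS : Interp (Matrix (Fin 3) (Fin 3) A))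

include hreg hS

/-- The mirror image of `T1`. -/
theorem T1' (m : ℕ) (G : A⟦X⟧) (hG : D.Rlev m G) (a b : A) (hbb : b * b = b) (hba : b * a = 0)
    (hbG : D.RExt m (C b * G)) (t : ℕ → A) (ht : ∀ k, D.q k * t k = t k)
    (hta : ∃ u, ∀ k, t k * a = D.q k * u) :
    ∃ Q, Q * a = 0 ∧ b * Q = b ∧ (∃ u, ∀ k, t k * (1 - Q) = D.q k * u) ∧
      D.RExt m (C Q * G) := by
  obtain ⟨u, hu⟩ := hta
  obtain ⟨P, h1, h2, ⟨v, hv⟩, h4⟩ := T1 (D := D.op) hreg.op hS.op_matrix m (opPS G)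
    (Llev_op.2 hG) (MulOpposite.op b) (MulOpposite.op a) (by rw [← op_mul, hbb])
    (by rw [← op_mul, hba, op_zero])
    (by rw [← opPS_C, ← opPS_mul, LExt_op]; exact hbG) (fun k => MulOpposite.op (t k))
    (fun k => by
      show MulOpposite.op (t k) * MulOpposite.op (D.q k) = _
      rw [← op_mul, ht])
    ⟨MulOpposite.op u, fun k => by
      show _ = MulOpposite.op u * MulOpposite.op (D.q k)
      rw [← op_mul, ← op_mul, hu]⟩
  refine ⟨unop P, ?_, ?_, ⟨unop v, fun k => ?_⟩, ?_⟩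
  · apply op_injective
    rw [op_mul, op_unop, h1, op_zero]
  · apply op_injective
    rw [op_mul, op_unop, h2]
  · apply op_injective
    rw [op_mul, op_sub, op_unop, op_one, op_mul, op_unop]
    exact hv k
  · rw [← LExt_op, opPS_mul, opPS_C, op_unop]
    exact h4

/-- The mirror image of Claim F. -/
theorem claimF' (d : A) (hd : ∀ k, D.q k * d = 0) :
    ∃ W, D.RT W ∧ (∀ k, D.q k * coeff 0 W = D.q k) ∧ coeff 0 W * d = 0 := by
  obtain ⟨U, h1, h2, h3⟩ := claimF (D := D.op) hreg.op hS.op_matrix (MulOpposite.op d) (fun k => by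
    show MulOpposite.op d * MulOpposite.op (D.q k) = 0
    rw [← op_mul, hd, op_zero])
  refine ⟨unopPS U, LT_op'.1 h1, fun k => ?_, ?_⟩
  · apply op_injective
    rw [coeff_unopPS, op_mul, op_unop]
    exact h2 k
  · apply op_injective
    rw [coeff_unopPS, op_mul, op_unop, op_zero]
    exact h3

end Dat

end Op

end Pool.Agent.H34R2.PS
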