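import Pool.Agent.H34R2.PSCore2

set_option autoImplicit false

/-! The two-sided recursion. -/

namespace Pool.Agent.H34R2.PS

open PowerSeries MulOpposite

namespace Dat

variable {A : Type*} [Ring A] {D : Dat A}

theorem RT.mul {W : A⟦X⟧} (h : D.RT W) (V : A⟦X⟧) : D.RT (V * W) := fun k => by
  rw [mul_assoc, h k, mul_zero]

theorem mul_ε_coeff (G : A⟦X⟧) (j N : ℕ) :
    coeff N (G * D.y j) * D.ε j = coeff N (G * D.y j) := by
  rw [← coeff_mul_C, mul_assoc, D.hy]

theorem RT_of_lim {F : ℕ → A⟦X⟧} {m : ℕ} {W : A⟦X⟧}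
    (hW : ∀ n, ∀ i < m + n, coeff i W = coeff i (F n)) (hF : ∀ n, D.Rlev (m + n) (F n)) :
    D.RT W := by
  intro k
  ext i
  rw [coeff_mul_congr' (D.y k) W (F (i + 1)) i (fun j hj => hW (i + 1) j (by omega)),
    hF (i + 1) k i (by omega), map_zero]

/-- The updated approximate right solution. -/
noncomputable def upd' (K : A⟦X⟧) (p u : A) (N : ℕ) : A⟦X⟧ := C p * K - X ^ N * C u

theorem coeff_upd'_lt (K : A⟦X⟧) (p u : A) (N i : ℕ) (hi : i < N) :
    coeff i (upd' K p u N) = p * coeff i K := by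
  rw [upd', map_sub, coeff_C_mul, coeff_X_pow_mul', if_neg (not_le.2 hi), sub_zero]

theorem coeff_upd'_eq (K : A⟦X⟧) (p u : A) (N : ℕ) :
    coeff N (upd' K p u N) = p * coeff N K - u := by
  rw [upd', map_sub, coeff_C_mul, coeff_X_pow_mul', if_pos le_rfl, Nat.sub_self, coeff_zero_C]

theorem coeff_upd'_mul_lt (y K : A⟦X⟧) (p u : A) (N i : ℕ) (hi : i < N) :
    coeff i (upd' K p u N * y) = p * coeff i (K * y) := by
  rw [upd', sub_mul, map_sub, mul_assoc, coeff_C_mul, mul_assoc, coeff_X_pow_mul',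
    if_neg (not_le.2 hi), sub_zero]

theorem coeff_upd'_mul_eq (y K : A⟦X⟧) (p u : A) (N : ℕ) :
    coeff N (upd' K p u N * y) = p * coeff N (K * y) - u * coeff 0 y := by
  rw [upd', sub_mul, map_sub, mul_assoc, coeff_C_mul, mul_assoc, coeff_X_pow_mul', if_pos le_rfl,
    Nat.sub_self, coeff_C_mul]

/-- State of the two-sided recursion at level `m + 1`. -/
structure St (D : Dat A) (m : ℕ) where
  H : A⟦X⟧
  G : A⟦X⟧
  a : A
  b : A
  haa : a * a = a
  hbb : b * b = b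
  hba : b * a = 0
  hH : D.Llev (m + 1) H
  hG : D.Rlev (m + 1) G
  hHa : D.LExt (m + 1) (H * C a)
  hbG : D.RExt (m + 1) (C b * G)

/-- The idempotent generating `P A`. -/
theorem exists_idem (hreg : VNReg A) (P : A) : ∃ a w, a = P * w ∧ a * a = a ∧ a * P = P := by
  obtain ⟨w, hw⟩ := hreg P
  exact ⟨P * w, w, rfl, by rw [← mul_assoc, hw], hw⟩

/-- The idempotent generating `A Q`. -/
theorem exists_idem' (hreg : VNReg A) (Q : A) : ∃ b w, b = w * Q ∧ b * b = b ∧ Q * b = Q := by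
  obtain ⟨w, hw⟩ := hreg Q
  refine ⟨w * Q, w, rfl, ?_, ?_⟩
  · rw [mul_assoc, ← mul_assoc Q, hw]
  · rw [← mul_assoc, hw]

variable (hreg : VNReg A) (hS : Interp (Matrix (Fin 3) (Fin 3) A))

include hreg hS

theorem St.step (m : ℕ) (S : St D m) : ∃ S' : St D (m + 1),
    (∀ i < m + 1, coeff i S'.H = coeff i S.H * (1 - S'.b)) ∧
    (∀ i < m + 1, coeff i S'.G = (1 - S'.a) * coeff i S.G) ∧
    S'.a * S.a = S.a ∧ S.b * S'.b = S.b := by
  obtain ⟨H, G, a, b, haa, hbb, hba, hH, hG, hHa, hbG⟩ := S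
  set N := m + 1 with hN
  -- first half: improve `a` and `G`
  obtain ⟨W0, hW0, hW0b, hW0G⟩ : ∃ W, D.RT W ∧ C b * W = W ∧
      ∀ i < N, b * coeff i G = coeff i W := by
    obtain ⟨W, hW, hWG⟩ := hbG
    refine ⟨C b * W, hW.mul _, ?_, fun i hi => ?_⟩
    · rw [← mul_assoc, ← map_mul, hbb]
    · rw [coeff_C_mul, hWG i hi, coeff_C_mul, ← mul_assoc, hbb]
  set v := b * coeff N G - coeff N W0 with hv
  have hbv : b * v = v := by
    rw [hv, mul_sub, ← mul_assoc, hbb]
    congr 1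
    rw [← coeff_C_mul, hW0b]
  have hbs : ∀ j, b * coeff N (G * D.y j) = v * D.ε j := by
    intro j
    have h1 := (coeff_mul_low' (D.y j) (C b * G - W0) N (fun i hi => by
      rw [map_sub, coeff_C_mul, hW0G i hi, sub_self])).2
    rw [sub_mul, hW0 j, sub_zero, mul_assoc, coeff_C_mul, map_sub, coeff_C_mul, D.hy0] at h1
    exact h1
  obtain ⟨P, hbP, hPa, ⟨v1, hv1⟩, hHP⟩ := T1 hreg hS N H hH a b haa hba hHa
    (fun j => coeff N (G * D.y j)) (fun j => mul_ε_coeff G j N) ⟨v, hbs⟩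
  obtain ⟨a', w, ha'w, ha'a', ha'P⟩ := exists_idem hreg P
  have hba' : b * a' = 0 := by rw [ha'w, ← mul_assoc, hbP, zero_mul]
  have ha'a : a' * a = a := by rw [← hPa, ← mul_assoc, ha'P]
  have hHa' : D.LExt N (H * C a') := by
    obtain ⟨U, hU, hUH⟩ := hHP
    refine ⟨U * C w, hU.mul _, fun i hi => ?_⟩
    rw [coeff_mul_C, hUH i hi, coeff_mul_C, coeff_mul_C, ha'w, mul_assoc]
  have hv1' : ∀ j, (1 - a') * coeff N (G * D.y j) = ((1 - a') * v1) * D.ε j := by
    intro j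
    rw [mul_assoc, ← hv1, ← mul_assoc, mul_sub, mul_one, sub_mul 1 a' P, ha'P, one_mul, sub_self,
      sub_zero]
  set v2 := (1 - b) * ((1 - a') * v1) + v with hv2
  have hv2ε : ∀ j, v2 * D.ε j = (1 - a') * coeff N (G * D.y j) := by
    intro j
    rw [hv2, add_mul, ← hbs, mul_assoc (1 - b), ← hv1', sub_mul 1 b, one_mul, ← mul_assoc b,
      mul_sub b, hba', mul_one, sub_zero, sub_add_cancel]
  have hbv2 : b * v2 = v := by
    rw [hv2, mul_add, ← mul_assoc, mul_sub, mul_one, hbb, sub_self, zero_mul, zero_add, hbv]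
  set G' := upd' G (1 - a') v2 N with hG'
  have hG'lev : D.Rlev (N + 1) G' := by
    intro j i hi
    rcases Nat.lt_succ_iff_lt_or_eq.1 hi with hi | rfl
    · rw [hG', coeff_upd'_mul_lt _ _ _ _ _ _ hi, hG j i hi, mul_zero]
    · rw [hG', coeff_upd'_mul_eq, D.hy0, hv2ε, sub_self]
  have hbG' : D.RExt (N + 1) (C b * G') := by
    refine ⟨W0, hW0, fun i hi => ?_⟩
    rw [coeff_C_mul]
    rcases Nat.lt_succ_iff_lt_or_eq.1 hi with hi | rfl
    · rw [hG', coeff_upd'_lt _ _ _ _ _ hi, ← mul_assoc, mul_sub, mul_one, hba', sub_zero,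
        hW0G i hi]
    · rw [hG', coeff_upd'_eq, mul_sub, ← mul_assoc, mul_sub, mul_one, hba', sub_zero, hbv2, hv]
      abel
  -- second half: improve `b` and `H`
  obtain ⟨U0, hU0, hU0a, hU0H⟩ : ∃ U, D.LT U ∧ U * C a' = U ∧
      ∀ i < N, coeff i H * a' = coeff i U := by
    obtain ⟨U, hU, hUH⟩ := hHa'
    refine ⟨U * C a', hU.mul _, ?_, fun i hi => ?_⟩
    · rw [mul_assoc, ← map_mul, ha'a']
    · rw [coeff_mul_C, hUH i hi, coeff_mul_C, mul_assoc, ha'a']
  set β := coeff N H * a' - coeff N U0 with hβ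
  have hβa : β * a' = β := by
    rw [hβ, sub_mul, mul_assoc, ha'a']
    congr 1
    rw [← coeff_mul_C, hU0a]
  have hta : ∀ k, coeff N (D.z k * H) * a' = D.q k * β := by
    intro k
    have h1 := (coeff_mul_low (D.z k) (H * C a' - U0) N (fun i hi => by
      rw [map_sub, coeff_mul_C, hU0H i hi, sub_self])).2
    rw [mul_sub, hU0 k, sub_zero, ← mul_assoc, coeff_mul_C, map_sub, coeff_mul_C, D.hz0] at h1
    exact h1
  obtain ⟨Q, hQa, hbQ, ⟨u1, hu1⟩, hQG⟩ := T1' hreg hS (N + 1) G' hG'lev a' b hbb hba' hbG'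
    (fun k => coeff N (D.z k * H)) (fun k => q_mul_coeff H k N) ⟨β, hta⟩
  obtain ⟨b', w', hb'w, hb'b', hQb'⟩ := exists_idem' hreg Q
  have hba'' : b' * a' = 0 := by rw [hb'w, mul_assoc, hQa, mul_zero]
  have hbb'' : b * b' = b := by rw [← hbQ, mul_assoc, hQb']
  have hbG'' : D.RExt (N + 1) (C b' * G') := by
    obtain ⟨W, hW, hWG⟩ := hQG
    refine ⟨C w' * W, hW.mul _, fun i hi => ?_⟩
    rw [coeff_C_mul, hWG i hi, coeff_C_mul, coeff_C_mul, hb'w, mul_assoc]
  have hu1' : ∀ k, coeff N (D.z k * H) * (1 - b') = D.q k * (u1 * (1 - b')) := by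
    intro k
    rw [← mul_assoc, ← hu1, mul_assoc, sub_mul 1 Q, one_mul, mul_sub Q, hQb', mul_one, sub_self,
      sub_zero]
  set u2 := (u1 * (1 - b')) * (1 - a') + β with hu2
  have hu2q : ∀ k, D.q k * u2 = coeff N (D.z k * H) * (1 - b') := by
    intro k
    rw [hu2, mul_add, ← hta, ← mul_assoc, ← hu1', mul_sub (coeff N (D.z k * H) * (1 - b')),
      mul_one, mul_assoc _ (1 - b') a', sub_mul 1 b', hba'', one_mul, sub_zero, sub_add_cancel]
  have hu2a : u2 * a' = β := by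
    rw [hu2, add_mul, mul_assoc, sub_mul, one_mul, ha'a', sub_self, mul_zero, zero_add, hβa]
  set H' := upd H (1 - b') u2 N with hH'
  refine ⟨⟨H', G', a', b', ha'a', hb'b', hba'', ?_, hG'lev, ?_, hbG''⟩, ?_, ?_, ha'a, hbb''⟩
  · intro k i hi
    rcases Nat.lt_succ_iff_lt_or_eq.1 hi with hi | rfl
    · rw [hH', coeff_mul_upd_lt _ _ _ _ _ _ hi, hH k i hi, zero_mul]
    · rw [hH', coeff_mul_upd_eq, D.hz0, hu2q, sub_self]
  · refine ⟨U0, hU0, fun i hi => ?_⟩
    rw [coeff_mul_C]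
    rcases Nat.lt_succ_iff_lt_or_eq.1 hi with hi | rfl
    · rw [hH', coeff_upd_lt _ _ _ _ _ hi, mul_assoc, sub_mul, one_mul, hba'', sub_zero,
        hU0H i hi]
    · rw [hH', coeff_upd_eq, sub_mul, mul_assoc, sub_mul, one_mul, hba'', sub_zero, hu2a, hβ]
      abel
  · intro i hi
    exact coeff_upd_lt _ _ _ _ _ hi
  · intro i hi
    exact coeff_upd'_lt _ _ _ _ _ hi

theorem exists_St_zero : ∃ S : St D 0, S.H = C (1 - S.b) ∧ S.G = C (1 - S.a) := by
  obtain ⟨U, hU, hUε, -⟩ := claimF (D := D) hreg hS 0 (by simp)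
  obtain ⟨a, w, haw, haa, haP⟩ := exists_idem hreg (coeff 0 U)
  have haε : ∀ j, a * D.ε j = D.ε j := fun j => by rw [← hUε j, ← mul_assoc, haP]
  have hqa : ∀ k, D.q k * a = 0 := fun k => by
    rw [haw, ← mul_assoc, hU.q_coeff_zero, zero_mul]
  obtain ⟨W, hW, hWq, hWa⟩ := claimF' (D := D) hreg hS a hqa
  obtain ⟨b, w', hbw, hbb, hQb⟩ := exists_idem' hreg (coeff 0 W)
  have hqb : ∀ k, D.q k * b = D.q k := fun k => by rw [← hWq k, mul_assoc, hQb]
  have hba : b * a = 0 := by rw [hbw, mul_assoc, hWa, mul_zero]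
  refine ⟨⟨C (1 - b), C (1 - a), a, b, haa, hbb, hba, ?_, ?_, ?_, ?_⟩, rfl, rfl⟩
  · intro k i hi
    obtain rfl : i = 0 := Nat.lt_one_iff.1 hi
    rw [coeff_mul_C, D.hz0, mul_sub, hqb, mul_one, sub_self]
  · intro j i hi
    obtain rfl : i = 0 := Nat.lt_one_iff.1 hi
    rw [coeff_C_mul, D.hy0, sub_mul, haε, one_mul, sub_self]
  · refine ⟨U * C w, hU.mul _, fun i hi => ?_⟩
    obtain rfl : i = 0 := Nat.lt_one_iff.1 hi
    rw [coeff_mul_C, ← haw, ← map_mul, coeff_zero_C, sub_mul, hba, one_mul, sub_zero]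
  · refine ⟨C w' * W, hW.mul _, fun i hi => ?_⟩
    obtain rfl : i = 0 := Nat.lt_one_iff.1 hi
    rw [coeff_C_mul, ← hbw, ← map_mul, coeff_zero_C, mul_sub, hba, mul_one, sub_zero]

/-- The main step: `1` is congruent modulo `X` to a sum of a true left and a true right
solution. -/
theorem main_step : ∃ U W, D.LT U ∧ D.RT W ∧ coeff 0 U + coeff 0 W = 1 := by
  obtain ⟨S0, hS0H, hS0G⟩ := exists_St_zero (D := D) hreg hS
  choose next h1 h2 h3 h4 using St.step (D := D) hreg hS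
  let seq : ∀ n, St D n := fun n => Nat.rec (motive := fun n => St D n) S0 (fun n S => next n S) n
  have hseq : ∀ n, seq (n + 1) = next n (seq n) := fun n => rfl
  have haa : ∀ n d, (seq (n + d)).a * (seq n).a = (seq n).a := by
    intro n d
    induction d with
    | zero => exact (seq n).haa
    | succ d ih =>
      have e1 : (seq (n + (d + 1))).a * (seq (n + d)).a = (seq (n + d)).a := h3 _ _
      rw [← ih, ← mul_assoc, e1]
  have hbb : ∀ n d, (seq n).b * (seq (n + d)).b = (seq n).b := by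
    intro n d
    induction d with
    | zero => exact (seq n).hbb
    | succ d ih =>
      have e1 : (seq (n + d)).b * (seq (n + (d + 1))).b = (seq (n + d)).b := h4 _ _
      rw [← ih, mul_assoc, e1]
  have hba : ∀ m n, (seq m).b * (seq n).a = 0 := by
    intro m n
    rcases le_total m n with h | h
    · obtain ⟨d, rfl⟩ := Nat.exists_eq_add_of_le h
      rw [← hbb m d, mul_assoc, (seq (m + d)).hba, mul_zero]
    · obtain ⟨d, rfl⟩ := Nat.exists_eq_add_of_le h
      rw [← haa n d, ← mul_assoc, (seq (n + d)).hba, zero_mul]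
  obtain ⟨P, hP1, hP2⟩ := G1 hreg hS (fun n => (seq n).b) (fun n => (seq n).a) hba
  obtain ⟨U, hU⟩ := lim_exists (fun n => (seq n).H * C P) 1 (by
    intro n i hi
    simp only [coeff_mul_C]
    have e1 : coeff i (seq (n + 1)).H = coeff i (seq n).H * (1 - (seq (n + 1)).b) :=
      h1 n (seq n) i (by omega)
    rw [e1, mul_assoc, sub_mul, one_mul, hP1, sub_zero])
  obtain ⟨W, hW⟩ := lim_exists (fun n => C (1 - P) * (seq n).G) 1 (by
    intro n i hi
    simp only [coeff_C_mul]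
    have e1 : coeff i (seq (n + 1)).G = (1 - (seq (n + 1)).a) * coeff i (seq n).G :=
      h2 n (seq n) i (by omega)
    rw [e1, ← mul_assoc, mul_sub, mul_one, sub_mul 1 P, hP2, one_mul, sub_self, sub_zero])
  refine ⟨U, W, LT_of_lim hU fun n k i hi => ?_, RT_of_lim hW fun n k i hi => ?_, ?_⟩
  · rw [← mul_assoc, coeff_mul_C, (seq n).hH k i (by omega), zero_mul]
  · rw [mul_assoc, coeff_C_mul, (seq n).hG k i (by omega), mul_zero]
  · have e1 : coeff 0 U = P := by
      rw [hU 0 0 (by omega), coeff_mul_C]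
      have : coeff 0 (seq 0).H = 1 - (seq 0).b := by
        have : (seq 0).H = C (1 - (seq 0).b) := hS0H
        rw [this, coeff_zero_C]
      rw [this, sub_mul, one_mul, hP1, sub_zero]
    have e2 : coeff 0 W = 1 - P := by
      rw [hW 0 0 (by omega), coeff_C_mul]
      have : coeff 0 (seq 0).G = 1 - (seq 0).a := by
        have : (seq 0).G = C (1 - (seq 0).a) := hS0G
        rw [this, coeff_zero_C]
      rw [this, mul_sub, mul_one, sub_mul, one_mul, hP2, sub_self, sub_zero]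
    rw [e1, e2, add_sub_cancel]

end Dat

end Pool.Agent.H34R2.PS
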