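import Pool.Agent.H34R2.PSCore3

set_option autoImplicit false

/-! Normal forms and the interpolation property of the power series ring. -/

namespace Pool.Agent.H34R2.PS

open PowerSeries MulOpposite

variable {A : Type*} [Ring A]

theorem exists_X_mul {φ : A⟦X⟧} (h : coeff 0 φ = 0) : ∃ g, φ = X * g :=
  X_dvd_iff.2 (by rwa [← coeff_zero_eq_constantCoeff_apply])

/-- One step of the normalisation of a power series. -/
theorem normal_step (hreg : VNReg A) (Q : A) (Z g : A⟦X⟧) (hQ : Q * Q = Q)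
    (hZ : coeff 0 Z = Q) :
    ∃ (q' : A) (z' g' : A⟦X⟧), q' * q' = q' ∧ q' * Q = 0 ∧ Q * q' = 0 ∧ C q' * z' = z' ∧
      coeff 0 z' = q' ∧ (∀ h, Z * h = 0 → z' * h = 0 → g * h = X * (g' * h)) ∧
      (∀ h, Z * h = 0 → g * h = 0 → z' * h = 0 ∧ g' * h = 0) := by
  set g0 := coeff 0 g with hg0
  obtain ⟨w, hw⟩ := hreg (g0 * (1 - Q))
  set e := w * (g0 * (1 - Q)) with he
  have h1Q : (1 - Q) * (1 - Q) = 1 - Q := by
    rw [sub_mul, one_mul, mul_sub, mul_one, hQ, sub_self, sub_zero]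
  have heQ : e * Q = 0 := by
    rw [he, mul_assoc, mul_assoc, sub_mul, one_mul, hQ, sub_self, mul_zero, mul_zero]
  have he1 : e * (1 - Q) = e := by rw [mul_sub, mul_one, heQ, sub_zero]
  have hee : e * e = e := by
    conv_lhs => rw [he, mul_assoc, ← mul_assoc (g0 * (1 - Q)), hw]
  set q' := (1 - Q) * e with hq'
  have hq'e : q' * e = q' := by rw [hq', mul_assoc, hee]
  have hq'q' : q' * q' = q' := by
    conv_lhs => rw [hq']
    rw [mul_assoc, ← mul_assoc e, he1, hee]
  have hq'Q : q' * Q = 0 := by rw [hq', mul_assoc, heQ, mul_zero]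
  have hQq' : Q * q' = 0 := by
    rw [hq', ← mul_assoc, mul_sub, mul_one, hQ, sub_self, zero_mul]
  set z' := C (q' * w) * (g - C g0 * Z) with hz'
  have hz0 : coeff 0 z' = q' := by
    rw [hz', coeff_C_mul, map_sub, coeff_C_mul, hZ, ← hg0]
    have : q' * w * (g0 - g0 * Q) = q' * (w * (g0 * (1 - Q))) := by
      rw [mul_sub g0, mul_one, mul_assoc]
    rw [this, ← he, hq'e]
  have hcz : coeff 0 ((g - C g0 * Z) - C (g0 * (1 - Q)) * z') = 0 := by
    rw [map_sub, map_sub, coeff_C_mul, coeff_C_mul, hZ, hz0, ← hg0, hq', mul_assoc g0,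
      ← mul_assoc (1 - Q), h1Q, ← mul_assoc, he, ← mul_assoc, hw, mul_sub, mul_one, sub_self]
  obtain ⟨g', hg'⟩ := exists_X_mul hcz
  refine ⟨q', z', g', hq'q', hq'Q, hQq', ?_, hz0, fun h hZh hzh => ?_, fun h hZh hgh => ?_⟩
  · rw [hz', ← mul_assoc, ← map_mul, ← mul_assoc, hq'q']
  · have : (g - C g0 * Z - C (g0 * (1 - Q)) * z') * h = g * h := by
      rw [sub_mul, sub_mul, mul_assoc (C g0), hZh, mul_assoc (C _) z', hzh, mul_zero, mul_zero,
        sub_zero, sub_zero]
    rw [← this, hg', mul_assoc]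
  · have h1 : z' * h = 0 := by
      rw [hz', mul_assoc, sub_mul, mul_assoc (C g0), hZh, hgh, mul_zero, sub_zero, mul_zero]
    refine ⟨h1, ?_⟩
    have : (g - C g0 * Z - C (g0 * (1 - Q)) * z') * h = 0 := by
      rw [sub_mul, sub_mul, mul_assoc (C g0), hZh, mul_assoc (C _) z', h1, mul_zero, mul_zero,
        sub_zero, sub_zero, hgh]
    rw [hg', mul_assoc] at this
    apply X_mul_cancel
    rw [this, mul_zero]

/-- The normal form of a power series for left equations. -/
theorem normal_form (hreg : VNReg A) (f : A⟦X⟧) : ∃ (q : ℕ → A) (z : ℕ → A⟦X⟧),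
    (∀ k l, k ≠ l → q k * q l = 0) ∧ (∀ k, C (q k) * z k = z k) ∧ (∀ k, coeff 0 (z k) = q k) ∧
    ∀ h, f * h = 0 ↔ ∀ k, z k * h = 0 := by
  let State : Type _ := {s : A × A⟦X⟧ × A⟦X⟧ // s.1 * s.1 = s.1 ∧ coeff 0 s.2.1 = s.1}
  have step : ∀ s : State, ∃ (q' : A) (z' g' : A⟦X⟧), q' * q' = q' ∧ q' * s.1.1 = 0 ∧
      s.1.1 * q' = 0 ∧ C q' * z' = z' ∧ coeff 0 z' = q' ∧
      (∀ h, s.1.2.1 * h = 0 → z' * h = 0 → s.1.2.2 * h = X * (g' * h)) ∧
      (∀ h, s.1.2.1 * h = 0 → s.1.2.2 * h = 0 → z' * h = 0 ∧ g' * h = 0) :=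
    fun s => normal_step hreg s.1.1 s.1.2.1 s.1.2.2 s.2.1 s.2.2
  choose q' z' g' e1 e2 e3 e4 e5 e6 e7 using step
  let next : State → State := fun s => ⟨(s.1.1 + q' s, s.1.2.1 + z' s, g' s), by
    simp only [add_mul, mul_add, s.2.1, e1, e2, e3, add_zero, zero_add], by
    simp only [map_add, s.2.2, e5]⟩
  let s0 : State := ⟨(0, 0, f), by simp, by simp⟩
  let seq : ℕ → State := fun n => Nat.rec s0 (fun _ s => next s) n
  have hseq : ∀ n, seq (n + 1) = next (seq n) := fun n => rfl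
  have hQs : ∀ n, (seq (n + 1)).1.1 = (seq n).1.1 + q' (seq n) := fun n => rfl
  have hZs : ∀ n, (seq (n + 1)).1.2.1 = (seq n).1.2.1 + z' (seq n) := fun n => rfl
  have hgs : ∀ n, (seq (n + 1)).1.2.2 = g' (seq n) := fun n => rfl
  have hQ : ∀ i d, q' (seq i) * (seq (i + 1 + d)).1.1 = q' (seq i) ∧
      (seq (i + 1 + d)).1.1 * q' (seq i) = q' (seq i) := by
    intro i d
    induction d with
    | zero =>
      rw [add_zero, hQs, mul_add, add_mul, e1, e2, e3, zero_add]
      exact ⟨rfl, rfl⟩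
    | succ d ih =>
      obtain ⟨ih1, ih2⟩ := ih
      rw [← add_assoc, hQs, mul_add, add_mul, ih1, ih2]
      constructor
      · have : q' (seq i) * q' (seq (i + 1 + d)) = 0 := by
          rw [← ih1, mul_assoc, e3, mul_zero]
        rw [this, add_zero]
      · have : q' (seq (i + 1 + d)) * q' (seq i) = 0 := by
          rw [← ih2, ← mul_assoc, e2, zero_mul]
        rw [this, add_zero]
  refine ⟨fun n => q' (seq n), fun n => z' (seq n), ?_, fun k => e4 _, fun k => e5 _, ?_⟩
  · intro k l hkl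
    rcases lt_or_gt_of_ne hkl with h | h
    · obtain ⟨d, rfl⟩ := Nat.exists_eq_add_of_le (Nat.succ_le_of_lt h)
      have := (hQ k d).1
      show q' (seq k) * q' (seq (k + 1 + d)) = 0
      rw [← this, mul_assoc, e3, mul_zero]
    · obtain ⟨d, rfl⟩ := Nat.exists_eq_add_of_le (Nat.succ_le_of_lt h)
      have := (hQ l d).2
      show q' (seq (l + 1 + d)) * q' (seq l) = 0
      rw [← this, ← mul_assoc, e2, zero_mul]
  · intro h
    constructor
    · intro hf
      have key : ∀ n, (seq n).1.2.1 * h = 0 ∧ (seq n).1.2.2 * h = 0 := by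
        intro n
        induction n with
        | zero => exact ⟨zero_mul h, hf⟩
        | succ n ih =>
          obtain ⟨h1, h2⟩ := e7 (seq n) h ih.1 ih.2
          rw [hZs, hgs, add_mul, ih.1, h1, add_zero]
          exact ⟨rfl, h2⟩
      exact fun k => (e7 (seq k) h (key k).1 (key k).2).1
    · intro hz
      have hZ : ∀ n, (seq n).1.2.1 * h = 0 := by
        intro n
        induction n with
        | zero => exact zero_mul h
        | succ n ih => rw [hZs, add_mul, ih, hz, add_zero]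
      have key : ∀ n, f * h = X ^ n * ((seq n).1.2.2 * h) := by
        intro n
        induction n with
        | zero => rw [pow_zero, one_mul]; rfl
        | succ n ih => rw [ih, e6 (seq n) h (hZ n) (hz n), hgs, pow_succ, mul_assoc]
      ext i
      rw [key (i + 1), coeff_X_pow_mul', if_neg (by omega), map_zero]

/-- The normal form of a power series for right equations. -/
theorem normal_form' (hreg : VNReg A) (g : A⟦X⟧) : ∃ (ε : ℕ → A) (y : ℕ → A⟦X⟧),
    (∀ k l, k ≠ l → ε k * ε l = 0) ∧ (∀ k, y k * C (ε k) = y k) ∧ (∀ k, coeff 0 (y k) = ε k) ∧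
    ∀ h, h * g = 0 ↔ ∀ k, h * y k = 0 := by
  obtain ⟨q, z, h1, h2, h3, h4⟩ := normal_form hreg.op (opPS g)
  refine ⟨fun k => unop (q k), fun k => unopPS (z k), fun k l hkl => ?_, fun k => ?_,
    fun k => ?_, fun h => ?_⟩
  · apply op_injective
    rw [op_mul, op_unop, op_unop, h1 l k hkl.symm, op_zero]
  · apply opPS_injective
    rw [opPS_mul, opPS_C, op_unop, opPS_unopPS, h2]
  · rw [coeff_unopPS, h3]
  · rw [← opPS_injective.eq_iff, opPS_mul, opPS_zero, h4]
    refine forall_congr' fun k => ?_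
    rw [← opPS_injective.eq_iff (a := h * _), opPS_mul, opPS_zero, opPS_unopPS]

/-- One step towards the interpolation property. -/
theorem PF_step (hreg : VNReg A) (hS : Interp (Matrix (Fin 3) (Fin 3) A)) (f g : A⟦X⟧)
    (hfg : f * g = 0) : ∃ U W, f * U = 0 ∧ W * g = 0 ∧ coeff 0 U + coeff 0 W = 1 := by
  obtain ⟨q, z, h1, h2, h3, h4⟩ := normal_form hreg f
  obtain ⟨ε, y, h1', h2', h3', h4'⟩ := normal_form' hreg g
  have hzy : ∀ k j, z k * y j = 0 := by
    intro k
    rw [← h4' (z k)]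
    exact (h4 g).1 hfg k
  let D : Dat A := ⟨q, ε, z, y, h1, h1', h2, h3, h2', h3', hzy⟩
  obtain ⟨U, W, hU, hW, hUW⟩ := Dat.main_step (D := D) hreg hS
  exact ⟨U, W, (h4 U).2 hU, (h4' W).2 hW, hUW⟩

/-- **Core theorem**: over a von Neumann regular ring `A` with countable interpolation for
`3 × 3` matrices, `f * g = 0` in `A⟦X⟧` implies `f * h = 0` and `h * g = g` for some `h`. -/
theorem PF (hreg : VNReg A) (hS : Interp (Matrix (Fin 3) (Fin 3) A)) (f g : A⟦X⟧)
    (hfg : f * g = 0) : ∃ h, f * h = 0 ∧ h * g = g := by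
  have step : ∀ D : {D : A⟦X⟧ // f * (D * g) = 0}, ∃ U c, f * U = 0 ∧
      D.1 * g = U * (D.1 * g) + X * (c * (D.1 * g)) := by
    rintro ⟨D, hD⟩
    obtain ⟨U, W, hU, hW, hUW⟩ := PF_step hreg hS f (D * g) hD
    obtain ⟨c, hc⟩ := exists_X_mul (φ := 1 - U - W) (by
      rw [map_sub, map_sub, sub_sub, hUW]; simp)
    refine ⟨U, c, hU, ?_⟩
    have : (1 - U - W) * (D * g) = X * (c * (D * g)) := by rw [hc, mul_assoc]
    rw [sub_mul, sub_mul, one_mul, hW, sub_zero] at this
    rw [← this]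
    abel
  choose U c hU hc using step
  let next : {D : A⟦X⟧ // f * (D * g) = 0} → {D : A⟦X⟧ // f * (D * g) = 0} := fun D =>
    ⟨c D * D.1, by
      have h1 := congrArg (f * ·) (hc D)
      simp only [mul_add] at h1
      rw [D.2, ← mul_assoc f (U D), hU, zero_mul, zero_add, ← mul_assoc f X,
        (commute_X f).eq, mul_assoc X] at h1
      apply X_mul_cancel
      rw [mul_zero, mul_assoc, ← h1]⟩
  let seq : ℕ → {D : A⟦X⟧ // f * (D * g) = 0} := fun n =>
    Nat.rec ⟨1, by rw [one_mul, hfg]⟩ (fun _ s => next s) n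
  have hseq : ∀ n, (seq (n + 1)).1 = c (seq n) * (seq n).1 := fun n => rfl
  let F : ℕ → A⟦X⟧ := fun n => ∑ k ∈ Finset.range n, X ^ k * (U (seq k) * (seq k).1)
  have hFs : ∀ n, F (n + 1) = F n + X ^ n * (U (seq n) * (seq n).1) := fun n =>
    Finset.sum_range_succ _ _
  have hfF : ∀ n, f * F n = 0 := by
    intro n
    induction n with
    | zero => simp [F]
    | succ n ih =>
      rw [hFs, mul_add, ih, zero_add, ← mul_assoc, (commute_X_pow f n).eq, mul_assoc,
        ← mul_assoc f, hU, zero_mul, mul_zero]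
  have hFg : ∀ n, F n * g + X ^ n * ((seq n).1 * g) = g := by
    intro n
    induction n with
    | zero =>
      have : (seq 0).1 = 1 := rfl
      simp [F, this]
    | succ n ih =>
      rw [hFs, hseq, add_mul, pow_succ, mul_assoc (c (seq n)), mul_assoc (X ^ n) X, add_assoc,
        mul_assoc (X ^ n), ← mul_add, mul_assoc (U (seq n)), ← hc (seq n)]
      exact ih
  obtain ⟨h, hh⟩ := lim_exists F 0 (by
    intro n i hi
    rw [hFs, map_add, coeff_X_pow_mul', if_neg (by omega), add_zero])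
  refine ⟨h, ?_, ?_⟩
  · ext i
    rw [coeff_mul_congr f h (F (i + 1)) i (fun j hj => hh (i + 1) j (by omega)), hfF]
  · ext i
    rw [coeff_mul_congr' g h (F (i + 1)) i (fun j hj => hh (i + 1) j (by omega))]
    have := congrArg (coeff i) (hFg (i + 1))
    rw [map_add, coeff_X_pow_mul', if_neg (by omega), add_zero] at this
    exact this

end Pool.Agent.H34R2.PS
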