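import Pool.Agent.H34R2.PSCore4

set_option autoImplicit false

/-! Matrices: von Neumann regularity, interpolation and power series. -/

namespace Pool.Agent.H34R2.PS

open PowerSeries MulOpposite

variable {A : Type*} [Ring A]

theorem regfam (hreg : VNReg A) {ι : Type*} [DecidableEq ι] (r : ι → A) (s : Finset ι) :
    ∃ y : ι → A, (∀ i ∈ s, (∑ j ∈ s, r j * y j) * r i = r i) ∧
      (∑ j ∈ s, r j * y j) * (∑ j ∈ s, r j * y j) = ∑ j ∈ s, r j * y j := by
  induction s using Finset.induction_on with
  | empty => exact ⟨0, by simp, by simp⟩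
  | insert a s ha ih =>
    obtain ⟨y, hy1, hy2⟩ := ih
    set e := ∑ j ∈ s, r j * y j with he
    obtain ⟨c, m, h1, h2⟩ := reg_add hreg e (r a) hy2
    have hsum : ∑ j ∈ insert a s, r j * (if j = a then m else y j * c) = e * c + r a * m := by
      rw [Finset.sum_insert ha, if_pos rfl, he, Finset.sum_mul, add_comm]
      congr 1
      refine Finset.sum_congr rfl fun j hj => ?_
      rw [if_neg (fun h : j = a => ha (h ▸ hj)), mul_assoc]
    refine ⟨fun j => if j = a then m else y j * c, ?_, ?_⟩
    · intro i hi
      rw [hsum]
      rcases Finset.mem_insert.1 hi with rfl | hi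
      · exact h2
      · rw [← hy1 i hi, ← mul_assoc, h1]
    · rw [hsum]
      conv_lhs => rw [mul_add (e * c + r a * m), ← mul_assoc, ← mul_assoc, h1, h2]

theorem VNReg.matrix (hreg : VNReg A) (ι : Type*) [Fintype ι] [DecidableEq ι] :
    VNReg (Matrix ι ι A) := by
  intro M
  have key : ∀ s : Finset ι, ∃ X : Matrix ι ι A,
      (Matrix.diagonal (fun i => if i ∈ s then (1 : A) else 0) * M) * X *
        (Matrix.diagonal (fun i => if i ∈ s then (1 : A) else 0) * M) =
      Matrix.diagonal (fun i => if i ∈ s then (1 : A) else 0) * M := by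
    intro s
    induction s using Finset.induction_on with
    | empty => exact ⟨0, by ext i j; simp⟩
    | insert a s ha ih =>
      obtain ⟨X, hX⟩ := ih
      set D : Matrix ι ι A := Matrix.diagonal (fun i => if i ∈ s then (1 : A) else 0) with hD
      set E : Matrix ι ι A := Matrix.diagonal (fun i => if i = a then (1 : A) else 0) with hE
      have hDE : Matrix.diagonal (fun i => if i ∈ insert a s then (1 : A) else 0) = D + E := by
        rw [hD, hE, Matrix.diagonal_add]
        congr 1
        funext i
        by_cases h : i = a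
        · subst h; simp [ha]
        · simp [h]
      have hDE0 : D * E = 0 := by
        rw [hD, hE, Matrix.diagonal_mul_diagonal]
        ext i j
        rw [Matrix.diagonal_apply]
        by_cases h : i = a
        · subst h; simp [ha]
        · simp [h]
      have hED0 : E * D = 0 := by
        rw [hD, hE, Matrix.diagonal_mul_diagonal]
        ext i j
        rw [Matrix.diagonal_apply]
        by_cases h : i = a
        · subst h; simp [ha]
        · simp [h]
      have hDD : D * D = D := by
        rw [hD, Matrix.diagonal_mul_diagonal]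
        congr 1
        funext i
        split_ifs <;> simp
      have hEE : E * E = E := by
        rw [hE, Matrix.diagonal_mul_diagonal]
        congr 1
        funext i
        split_ifs <;> simp
      set e := X * (D * M) with he
      set ρ : ι → A := fun j => (M * (1 - e)) a j with hρ
      obtain ⟨y, hy, -⟩ := regfam hreg ρ Finset.univ
      set Y : Matrix ι ι A := Matrix.of fun j k => if k = a then y j else 0 with hY
      have hEapp : ∀ (N : Matrix ι ι A) i j, (E * N) i j = if i = a then N a j else 0 := by
        intro N i j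
        rw [hE, Matrix.diagonal_mul]
        by_cases h : i = a
        · subst h; simp
        · simp [h]
      have hr' : (E * (M * (1 - e))) * Y * (E * (M * (1 - e))) = E * (M * (1 - e)) := by
        ext i j
        rw [mul_assoc, mul_assoc E, hEapp, hEapp]
        by_cases h : i = a
        · rw [if_pos h, if_pos h, Matrix.mul_apply]
          have h1 : ∀ k, (Y * (E * (M * (1 - e)))) k j = y k * ρ j := by
            intro k
            rw [Matrix.mul_apply, Finset.sum_eq_single a]
            · rw [hEapp, if_pos rfl, hY]
              simp [hρ]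
            · intro l _ hl
              rw [hY]
              simp [hl]
            · intro h; exact absurd (Finset.mem_univ a) h
          simp only [h1]
          have h2 := hy j (Finset.mem_univ j)
          rw [Finset.sum_mul] at h2
          have h3 : ∑ k, (M * (1 - e)) a k * (y k * ρ j) = ∑ k, ρ k * y k * ρ j :=
            Finset.sum_congr rfl fun k _ => by rw [mul_assoc]
          rw [h3, h2]
        · rw [if_neg h, if_neg h]
      have hMe : (D * M) * e = D * M := by rw [he, ← mul_assoc, hX]
      have hee : e * e = e := by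
        conv_lhs => rw [he, mul_assoc, ← mul_assoc (D * M), hX]
      refine ⟨X * D - (1 - e) * Y * E * M * X * D + (1 - e) * Y * E, ?_⟩
      rw [hDE]
      have h1 : (X * D - (1 - e) * Y * E * M * X * D + (1 - e) * Y * E) * ((D + E) * M)
          = e + (1 - e) * Y * (E * (M * (1 - e))) := by
        have : (X * D - (1 - e) * Y * E * M * X * D + (1 - e) * Y * E) * ((D + E) * M)
          = X * ((D * D) * M) + X * (D * E) * M
            - (1 - e) * Y * E * M * (X * ((D * D) * M)) - (1 - e) * Y * E * M * X * (D * E) * M
            + (1 - e) * Y * (E * D) * M + (1 - e) * Y * (E * E) * M := by noncomm_ring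
        rw [this, hDE0, hED0, hDD, hEE, ← he]
        noncomm_ring
      rw [mul_assoc, h1]
      have h2 : ((D + E) * M) * (e + (1 - e) * Y * (E * (M * (1 - e)))) =
          (D * M) * e + (D * M - (D * M) * e) * Y * (E * (M * (1 - e)))
            + (E * M) * e + (E * (M * (1 - e))) * Y * (E * (M * (1 - e))) := by noncomm_ring
      rw [h2, hr', hMe]
      noncomm_ring
  obtain ⟨X, hX⟩ := key Finset.univ
  refine ⟨X, ?_⟩
  simpa using hX

/-- Transfer of interpolation along a ring isomorphism. -/
theorem Interp.of_equiv {B B' : Type*} [Ring B] [Ring B'] (φ : B ≃+* B') (h : Interp B) :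
    Interp B' := by
  intro a b hab
  obtain ⟨k, h1, h2⟩ := h (fun i => φ.symm (a i)) (fun j => φ.symm (b j)) (by
    intro i j
    rw [← map_mul, hab, map_zero])
  refine ⟨φ k, fun i => ?_, fun j => ?_⟩
  · apply φ.symm.injective
    rw [map_mul, φ.symm_apply_apply, h1, map_zero]
  · apply φ.symm.injective
    rw [map_mul, φ.symm_apply_apply, h2]

theorem Interp.matrix_matrix {m n : ℕ} (h : Interp (Matrix (Fin (m * n)) (Fin (m * n)) A)) :
    Interp (Matrix (Fin m) (Fin m) (Matrix (Fin n) (Fin n) A)) :=
  Interp.of_equiv ((Matrix.reindexRingEquiv A (finProdFinEquiv (m := m) (n := n)).symm).trans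
    (Matrix.compRingEquiv (Fin m) (Fin n) A).symm) h

section MatPS

variable {ι : Type*} [Fintype ι] [DecidableEq ι]

/-- Matrices over power series as power series over matrices. -/
noncomputable def toPS (M : Matrix ι ι A⟦X⟧) : (Matrix ι ι A)⟦X⟧ :=
  mk fun n => M.map (coeff n)

/-- Power series over matrices as matrices over power series. -/
noncomputable def ofPS (F : (Matrix ι ι A)⟦X⟧) : Matrix ι ι A⟦X⟧ :=
  Matrix.of fun i j => mk fun n => coeff n F i j

theorem toPS_ofPS (F : (Matrix ι ι A)⟦X⟧) : toPS (ofPS F) = F := by
  ext n i j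
  simp [toPS, ofPS]

theorem ofPS_toPS (M : Matrix ι ι A⟦X⟧) : ofPS (toPS M) = M := by
  ext i j n
  simp [toPS, ofPS]

theorem toPS_mul (M N : Matrix ι ι A⟦X⟧) : toPS (M * N) = toPS M * toPS N := by
  ext n i j
  rw [coeff_mul, Matrix.sum_apply]
  simp only [toPS, coeff_mk, Matrix.map_apply, Matrix.mul_apply, map_sum, coeff_mul]
  rw [Finset.sum_comm]

theorem toPS_zero : toPS (0 : Matrix ι ι A⟦X⟧) = 0 := by
  ext n i j
  simp [toPS]

theorem toPS_injective : Function.Injective (toPS (A := A) (ι := ι)) :=
  Function.LeftInverse.injective ofPS_toPS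

end MatPS

/-- The interpolation property for products of two matrices. -/
def PFn (R : Type*) [Ring R] (n : ℕ) : Prop :=
  ∀ f g : Matrix (Fin n) (Fin n) R, f * g = 0 → ∃ h, f * h = 0 ∧ h * g = g

theorem PFn_powerSeries (hreg : VNReg A) (hS : ∀ n, Interp (Matrix (Fin n) (Fin n) A)) (n : ℕ) :
    PFn A⟦X⟧ n := by
  intro f g hfg
  obtain ⟨h, h1, h2⟩ := PF (hreg.matrix (Fin n)) (Interp.matrix_matrix (hS (3 * n)))
    (toPS f) (toPS g) (by rw [← toPS_mul, hfg, toPS_zero])
  refine ⟨ofPS h, ?_, ?_⟩
  · apply toPS_injective
    rw [toPS_mul, toPS_ofPS, h1, toPS_zero]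
  · apply toPS_injective
    rw [toPS_mul, toPS_ofPS, h2]

end Pool.Agent.H34R2.PS
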