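import Pool.Agent.H34R2.PSMat

set_option autoImplicit false

/-! Necessity: matrix interpolation over `A⟦X⟧` gives regularity and countable interpolation over
`A`. -/

namespace Pool.Agent.H34R2.PS

open PowerSeries MulOpposite

variable {A : Type*} [Ring A]

theorem vnreg_of_PF (h : PFn A⟦X⟧ 2) : VNReg A := by
  intro a
  obtain ⟨H, h1, h2⟩ := h !![C a, X; 0, 0] !![X, 0; - C a, 0] (by
    ext i j n
    fin_cases i <;> fin_cases j <;> simp [Matrix.mul_apply, Fin.sum_univ_two, (commute_X (C a)).eq])
  have e1 := congrArg (coeff 0) (congrFun (congrFun h1 0) 0)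
  have e2 := congrArg (coeff 1) (congrFun (congrFun h2 0) 0)
  rw [Matrix.mul_apply, Fin.sum_univ_two] at e1 e2
  simp only [Matrix.of_apply, Matrix.cons_val', Matrix.cons_val_zero, Matrix.cons_val_one,
    Matrix.cons_val_fin_one, map_add, coeff_C_mul, coeff_zero_X_mul, add_zero,
    Matrix.zero_apply, map_zero, mul_neg, map_neg, coeff_mul_C, coeff_one_X] at e1 e2
  have e3 : coeff 1 (H 0 0 * X) = coeff 0 (H 0 0) := coeff_succ_mul_X 0 _
  rw [e3] at e2
  refine ⟨- coeff 1 (H 0 1), ?_⟩
  have e4 := congrArg (a * ·) e2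
  simp only [mul_add, mul_one, e1, mul_neg, zero_add] at e4
  rw [mul_neg, neg_mul, mul_assoc]
  exact e4

/-- Orthogonalisation of a sequence, for left multiplication. -/
theorem orth_seq (hreg : VNReg A) (a : ℕ → A) : ∃ q : ℕ → A, (∀ k, q k * q k = q k) ∧
    (∀ k l, k ≠ l → q k * q l = 0) ∧ ∀ h, (∀ i, a i * h = 0) ↔ ∀ k, q k * h = 0 := by
  let State : Type _ := {Q : A // Q * Q = Q}
  have step : ∀ (n : ℕ) (s : State), ∃ q' : A, q' * q' = q' ∧ q' * s.1 = 0 ∧ s.1 * q' = 0 ∧
      (∀ h, s.1 * h = 0 → (a n * h = 0 ↔ q' * h = 0)) := by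
    rintro n ⟨Q, hQ⟩
    obtain ⟨w, hw⟩ := hreg (a n * (1 - Q))
    have h1Q : (1 - Q) * (1 - Q) = 1 - Q := by
      rw [sub_mul, one_mul, mul_sub, mul_one, hQ, sub_self, sub_zero]
    set e := w * (a n * (1 - Q)) with he
    have heQ : e * Q = 0 := by
      rw [he, mul_assoc, mul_assoc, sub_mul, one_mul, hQ, sub_self, mul_zero, mul_zero]
    have he1 : e * (1 - Q) = e := by rw [mul_sub, mul_one, heQ, sub_zero]
    have hee : e * e = e := by
      conv_lhs => rw [he, mul_assoc, ← mul_assoc (a n * (1 - Q)), hw]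
    refine ⟨(1 - Q) * e, ?_, ?_, ?_, fun h hh => ?_⟩
    · rw [mul_assoc, ← mul_assoc e, he1, hee]
    · show (1 - Q) * e * Q = 0
      rw [mul_assoc, heQ, mul_zero]
    · show Q * ((1 - Q) * e) = 0
      rw [← mul_assoc, mul_sub, mul_one, hQ, sub_self, zero_mul]
    · have hh : Q * h = 0 := hh
      have h1 : (1 - Q) * h = h := by rw [sub_mul, one_mul, hh, sub_zero]
      constructor
      · intro hah
        rw [mul_assoc, he, mul_assoc, mul_assoc, h1, hah, mul_zero, mul_zero]
      · intro hqh
        have h2 : a n * h = a n * (1 - Q) * w * (a n * (1 - Q)) * h := by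
          rw [hw, mul_assoc, h1]
        have h3 : a n * (1 - Q) * w * (a n * (1 - Q)) * h =
            a n * ((1 - Q) * e * h) := by
          rw [he]; simp only [mul_assoc]
        rw [h2, h3, hqh, mul_zero]
  choose q' e1 e2 e3 e4 using step
  let next : ℕ → State → State := fun n s => ⟨s.1 + q' n s, by
    simp only [add_mul, mul_add, s.2, e1, e2, e3, add_zero, zero_add]⟩
  let s0 : State := ⟨0, by simp⟩
  let seq : ℕ → State := fun n => Nat.rec s0 next n
  have hQs : ∀ n, (seq (n + 1)).1 = (seq n).1 + q' n (seq n) := fun n => rfl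
  have hQ : ∀ i d, q' i (seq i) * (seq (i + 1 + d)).1 = q' i (seq i) ∧
      (seq (i + 1 + d)).1 * q' i (seq i) = q' i (seq i) := by
    intro i d
    induction d with
    | zero =>
      rw [add_zero, hQs, mul_add, add_mul, e1, e2, e3, zero_add]
      exact ⟨rfl, rfl⟩
    | succ d ih =>
      obtain ⟨ih1, ih2⟩ := ih
      rw [← add_assoc, hQs, mul_add, add_mul, ih1, ih2]
      constructor
      · have : q' i (seq i) * q' (i + 1 + d) (seq (i + 1 + d)) = 0 := by
          rw [← ih1, mul_assoc, e3, mul_zero]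
        rw [this, add_zero]
      · have : q' (i + 1 + d) (seq (i + 1 + d)) * q' i (seq i) = 0 := by
          rw [← ih2, ← mul_assoc, e2, zero_mul]
        rw [this, add_zero]
  refine ⟨fun n => q' n (seq n), fun k => e1 _ _, ?_, fun h => ?_⟩
  · intro k l hkl
    rcases lt_or_gt_of_ne hkl with h | h
    · obtain ⟨d, rfl⟩ := Nat.exists_eq_add_of_le (Nat.succ_le_of_lt h)
      have := (hQ k d).1
      show q' k (seq k) * q' (k + 1 + d) (seq (k + 1 + d)) = 0
      rw [← this, mul_assoc, e3, mul_zero]
    · obtain ⟨d, rfl⟩ := Nat.exists_eq_add_of_le (Nat.succ_le_of_lt h)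
      have := (hQ l d).2
      show q' (l + 1 + d) (seq (l + 1 + d)) * q' l (seq l) = 0
      rw [← this, ← mul_assoc, e2, zero_mul]
  · constructor
    · intro ha
      have key : ∀ n, (seq n).1 * h = 0 := by
        intro n
        induction n with
        | zero => exact zero_mul h
        | succ n ih => rw [hQs, add_mul, ih, zero_add, ← e4 n (seq n) h ih, ha n]
      exact fun k => (e4 k (seq k) h (key k)).1 (ha k)
    · intro hq
      have key : ∀ n, (seq n).1 * h = 0 := by
        intro n
        induction n with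
        | zero => exact zero_mul h
        | succ n ih => rw [hQs, add_mul, ih, zero_add, hq n]
      exact fun k => (e4 k (seq k) h (key k)).2 (hq k)

/-- Orthogonalisation of a sequence, for right multiplication. -/
theorem orth_seq' (hreg : VNReg A) (b : ℕ → A) : ∃ ε : ℕ → A, (∀ k, ε k * ε k = ε k) ∧
    (∀ k l, k ≠ l → ε k * ε l = 0) ∧ ∀ h, (∀ i, h * b i = 0) ↔ ∀ k, h * ε k = 0 := by
  obtain ⟨q, h1, h2, h3⟩ := orth_seq hreg.op (fun i => op (b i))
  refine ⟨fun k => unop (q k), fun k => ?_, fun k l hkl => ?_, fun h => ?_⟩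
  · rw [← unop_mul, h1]
  · rw [← unop_mul, h2 l k hkl.symm, unop_zero]
  · have := h3 (op h)
    constructor
    · intro hb k
      have h4 := this.1 (fun i => by rw [← op_mul, hb, op_zero]) k
      apply op_injective
      rw [op_mul, op_unop, h4, op_zero]
    · intro hε i
      have h4 := this.2 (fun k => by
        rw [← op_unop (q k), ← op_mul, hε, op_zero]) i
      rw [← op_mul] at h4
      exact op_injective (h4.trans op_zero.symm)

/-- Necessity of interpolation, for one ring. -/
theorem interp_of_PF (hreg : VNReg A)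
    (h : ∀ f g : A⟦X⟧, f * g = 0 → ∃ h, f * h = 0 ∧ h * g = g) : Interp A := by
  intro a b hab
  obtain ⟨q, hq, hqo, hqa⟩ := orth_seq hreg a
  obtain ⟨ε, hε, hεo, hεb⟩ := orth_seq' hreg b
  have hqε : ∀ i j, q i * ε j = 0 := by
    intro i
    rw [← hεb (q i)]
    intro j
    exact (hqa (b j)).1 (fun i => hab i j) i
  obtain ⟨H, h1, h2⟩ := h (mk q) (mk ε) (by
    ext n
    rw [coeff_mul]
    simp [hqε])
  refine ⟨coeff 0 H, ?_, ?_⟩
  · rw [hqa]
    intro k
    have e1 := congrArg (coeff k) h1
    rw [coeff_mul, map_zero] at e1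
    have e2 := congrArg (q k * ·) e1
    simp only [mul_zero, Finset.mul_sum, coeff_mk] at e2
    rw [Finset.sum_eq_single (k, 0)] at e2
    · rw [← mul_assoc, hq] at e2
      exact e2
    · rintro ⟨x, y⟩ hp hne
      rw [Finset.HasAntidiagonal.mem_antidiagonal] at hp
      have : k ≠ x := by
        rintro rfl
        apply hne
        simp only [Prod.mk.injEq, true_and]
        simpa using hp
      rw [← mul_assoc, hqo k x this, zero_mul]
    · intro hn
      exact absurd (by simp) hn
  · have h3 : ∀ k, (1 - coeff 0 H) * ε k = 0 := by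
      intro k
      have e1 := congrArg (coeff k) h2
      rw [coeff_mul, coeff_mk] at e1
      have e2 := congrArg (· * ε k) e1
      simp only [Finset.sum_mul, coeff_mk] at e2
      rw [Finset.sum_eq_single (0, k)] at e2
      · rw [mul_assoc, hε] at e2
        rw [sub_mul, one_mul, e2, sub_self]
      · rintro ⟨x, y⟩ hp hne
        rw [Finset.HasAntidiagonal.mem_antidiagonal] at hp
        have : y ≠ k := by
          rintro rfl
          apply hne
          simp only [Prod.mk.injEq, and_true]
          simpa using hp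
        rw [mul_assoc, hεo y k this, mul_zero]
      · intro hn
        exact absurd (by simp) hn
    rw [← hεb] at h3
    intro j
    have := h3 j
    rw [sub_mul, one_mul, sub_eq_zero] at this
    exact this.symm

theorem interp_matrix_of_PF {n : ℕ} (hreg : VNReg A) (h : PFn A⟦X⟧ n) :
    Interp (Matrix (Fin n) (Fin n) A) := by
  refine interp_of_PF (hreg.matrix (Fin n)) fun f g hfg => ?_
  obtain ⟨H, h1, h2⟩ := h (ofPS f) (ofPS g) (by
    apply toPS_injective
    rw [toPS_mul, toPS_ofPS, toPS_ofPS, hfg, toPS_zero])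
  refine ⟨toPS H, ?_, ?_⟩
  · rw [← toPS_ofPS f, ← toPS_mul, h1, toPS_zero]
  · rw [← toPS_ofPS g, ← toPS_mul, h2]

/-- The matrix interpolation property of `A⟦X⟧` in terms of `A`. -/
theorem PFn_powerSeries_iff : (∀ n, PFn A⟦X⟧ n) ↔
    VNReg A ∧ ∀ n, Interp (Matrix (Fin n) (Fin n) A) :=
  ⟨fun h => ⟨vnreg_of_PF (h 2), fun n => interp_matrix_of_PF (vnreg_of_PF (h 2)) (h n)⟩,
    fun h n => PFn_powerSeries h.1 h.2 n⟩

end Pool.Agent.H34R2.PS
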