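import Mathlib

set_option autoImplicit false

/-! Flat modules over noncommutative rings, flat dimension and weak global dimension. -/

universe u

namespace Pool.Agent.H34R2.Wgl

open scoped TensorProduct
open MulOpposite

/-- The subgroup of `M ⊗[ℤ] N` generated by all `m r ⊗ n - m ⊗ r n`, for a right `R`-module `M`
and a left `R`-module `N`. -/
def balRel (R : Type u) [Ring R] (M : Type u) [AddCommGroup M] [Module Rᵐᵒᵖ M]
    (N : Type u) [AddCommGroup N] [Module R N] : AddSubgroup (M ⊗[ℤ] N) :=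
  AddSubgroup.closure {t | ∃ (m : M) (r : R) (n : N),
    t = (op r • m) ⊗ₜ[ℤ] n - m ⊗ₜ[ℤ] (r • n)}

/-- The tensor product `M ⊗_R N` of a right `R`-module `M` and a left `R`-module `N`. -/
abbrev BalTensor (R : Type u) [Ring R] (M : Type u) [AddCommGroup M] [Module Rᵐᵒᵖ M]
    (N : Type u) [AddCommGroup N] [Module R N] : Type u :=
  (M ⊗[ℤ] N) ⧸ balRel R M N

theorem balRel_le_comap (R : Type u) [Ring R] (M : Type u) [AddCommGroup M] [Module Rᵐᵒᵖ M]
    {N N' : Type u} [AddCommGroup N] [Module R N] [AddCommGroup N'] [Module R N']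
    (g : N →ₗ[R] N') :
    balRel R M N ≤ (balRel R M N').comap
      (LinearMap.lTensor M g.toAddMonoidHom.toIntLinearMap).toAddMonoidHom := by
  rw [balRel, AddSubgroup.closure_le]
  rintro _ ⟨m, r, n, rfl⟩
  refine AddSubgroup.subset_closure ⟨m, r, g n, ?_⟩
  simp

/-- The map `M ⊗_R N → M ⊗_R N'` induced by a left `R`-linear map `N → N'`. -/
def BalTensor.map (R : Type u) [Ring R] (M : Type u) [AddCommGroup M] [Module Rᵐᵒᵖ M]
    {N N' : Type u} [AddCommGroup N] [Module R N] [AddCommGroup N'] [Module R N']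
    (g : N →ₗ[R] N') : BalTensor R M N →+ BalTensor R M N' :=
  QuotientAddGroup.map (balRel R M N) (balRel R M N')
    (LinearMap.lTensor M g.toAddMonoidHom.toIntLinearMap).toAddMonoidHom
    (balRel_le_comap R M g)

/-- A right `R`-module `M` is flat if `M ⊗_R -` preserves injectivity of maps of left
`R`-modules. -/
def IsFlat (R : Type u) [Ring R] (M : Type u) [AddCommGroup M] [Module Rᵐᵒᵖ M] : Prop :=
  ∀ (N N' : Type u) [AddCommGroup N] [Module R N] [AddCommGroup N'] [Module R N']
    (g : N →ₗ[R] N'), Function.Injective g → Function.Injective (BalTensor.map R M g)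

/-- `HasFlatRes R n M`: the right `R`-module `M` has a flat resolution of length `n`, that is,
an exact sequence `0 → F n → ⋯ → F 0 → M → 0` with all `F i` flat. -/
def HasFlatRes (R : Type u) [Ring R] :
    ℕ → ∀ (M : Type u) [AddCommGroup M] [Module Rᵐᵒᵖ M], Prop
  | 0, M, _, _ => IsFlat R M
  | n + 1, M, _, _ => ∃ (F : Type u) (_ : AddCommGroup F) (_ : Module Rᵐᵒᵖ F)
      (f : F →ₗ[Rᵐᵒᵖ] M), IsFlat R F ∧ Function.Surjective f ∧
        HasFlatRes R n (LinearMap.ker f)

/-- The flat dimension of a right `R`-module: the least length of a flat resolution, `⊤` if there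
is none. -/
noncomputable def flatDim (R : Type u) [Ring R] (M : Type u) [AddCommGroup M] [Module Rᵐᵒᵖ M] :
    ℕ∞ :=
  sInf {d : ℕ∞ | ∃ n : ℕ, d = n ∧ HasFlatRes R n M}

/-- The weak global dimension of `R`: the supremum of the flat dimensions of all right
`R`-modules. -/
noncomputable def wGlDim (R : Type u) [Ring R] : ℕ∞ :=
  ⨆ M : ModuleCat.{u} Rᵐᵒᵖ, flatDim R M

end Pool.Agent.H34R2.Wgl
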