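import Pool.Agent.H34R2.WglDefs

set_option autoImplicit false

/-! The equational criterion of flatness over a noncommutative ring. -/

universe u

namespace Pool.Agent.H34R2.Wgl

open scoped TensorProduct
open MulOpposite

section Vanish

variable {R : Type u} [Ring R] {M : Type u} [AddCommGroup M] [Module Rᵐᵒᵖ M]
  {N : Type u} [AddCommGroup N] [Module R N] {I : Type*}

/-- `m • κ`, coordinatewise. -/
noncomputable def act (m : M) (κ : I →₀ R) : I →₀ M :=
  κ.mapRange (fun r => op r • m) (by simp)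

@[simp] theorem act_apply (m : M) (κ : I →₀ R) (i : I) : act m κ i = op (κ i) • m := rfl

theorem act_add (m : M) (κ κ' : I →₀ R) : act m (κ + κ') = act m κ + act m κ' := by
  ext i; simp [add_smul]

theorem act_sub (m : M) (κ κ' : I →₀ R) : act m (κ - κ') = act m κ - act m κ' := by
  ext i; simp [sub_smul]

theorem add_act (m m' : M) (κ : I →₀ R) : act (m + m') κ = act m κ + act m' κ := by
  ext i; simp

theorem act_smul (m : M) (r : R) (κ : I →₀ R) : act m (r • κ) = act (op r • m) κ := by
  ext i; simp [mul_smul]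

theorem act_neg (m : M) (κ : I →₀ R) : act (-m) κ = - act m κ := by
  ext i; simp

theorem act_single (m : M) (i : I) : act m (Finsupp.single i (1 : R)) = Finsupp.single i m := by
  ext j
  classical
  rw [act_apply, Finsupp.single_apply, Finsupp.single_apply]
  split_ifs <;> simp

/-- The subgroup of `I →₀ M` generated by `m • κ`, `κ` a relation of the family `v`. -/
noncomputable def MK (M : Type u) [AddCommGroup M] [Module Rᵐᵒᵖ M] (v : I → N) : AddSubgroup (I →₀ M) :=
  AddSubgroup.closure {t | ∃ (m : M) (κ : I →₀ R), Finsupp.linearCombination R v κ = 0 ∧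
    t = act m κ}

theorem mk_act_eq (v : I → N) (m : M) {κ κ' : I →₀ R}
    (h : Finsupp.linearCombination R v κ = Finsupp.linearCombination R v κ') :
    (QuotientAddGroup.mk (act m κ) : (I →₀ M) ⧸ MK (R := R) M v) =
      QuotientAddGroup.mk (act m κ') := by
  rw [QuotientAddGroup.eq]
  refine AddSubgroup.subset_closure ⟨m, κ' - κ, by rw [map_sub, h, sub_self], ?_⟩
  rw [act_sub]
  abel

theorem exists_rep_of_mem_MK (v : I → N) {c : I →₀ M} (hc : c ∈ MK (R := R) M v) :
    ∃ (J : Type) (_ : Fintype J) (m : J → M) (κ : J → I →₀ R),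
      (∀ j, Finsupp.linearCombination R v (κ j) = 0) ∧ c = ∑ j, act (m j) (κ j) := by
  unfold MK at hc
  induction hc using AddSubgroup.closure_induction with
  | mem x hx =>
    obtain ⟨m, κ, h, rfl⟩ := hx
    exact ⟨Unit, inferInstance, fun _ => m, fun _ => κ, fun _ => h, by simp⟩
  | zero => exact ⟨Empty, inferInstance, fun x => x.elim, fun x => x.elim, fun x => x.elim,
      by simp⟩
  | add x y _ _ hx hy =>
    obtain ⟨J, hJ, m, κ, h, rfl⟩ := hx
    obtain ⟨J', hJ', m', κ', h', rfl⟩ := hy
    refine ⟨J ⊕ J', inferInstance, Sum.elim m m', Sum.elim κ κ', ?_, ?_⟩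
    · rintro (j | j)
      · exact h j
      · exact h' j
    · rw [Fintype.sum_sum_type]
      rfl
  | neg x _ hx =>
    obtain ⟨J, hJ, m, κ, h, rfl⟩ := hx
    refine ⟨J, hJ, fun j => - m j, κ, h, ?_⟩
    simp only [act_neg, Finset.sum_neg_distrib]

/-- The vanishing criterion for tensors. -/
theorem mem_MK_of_mem_balRel (v : I → N)
    (hv : Function.Surjective (Finsupp.linearCombination R v)) (c : I →₀ M)
    (h : (c.sum fun i m => m ⊗ₜ[ℤ] v i) ∈ balRel R M N) : c ∈ MK (R := R) M v := by
  classical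
  set φ := Finsupp.linearCombination R v with hφ
  choose σ hσ using hv
  let Q := (I →₀ M) ⧸ MK (R := R) M v
  let f : M →+ N →+ Q := AddMonoidHom.mk' (fun m => AddMonoidHom.mk'
      (fun n => (QuotientAddGroup.mk (act m (σ n)) : Q)) (by
        intro n n'
        rw [← QuotientAddGroup.mk_add, ← act_add]
        exact mk_act_eq v m (by rw [← hφ, map_add, hσ, hσ, hσ]))) (by
      intro m m'
      ext n
      show (QuotientAddGroup.mk (act (m + m') (σ n)) : Q) = QuotientAddGroup.mk (act m (σ n)) +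
        QuotientAddGroup.mk (act m' (σ n))
      rw [add_act, QuotientAddGroup.mk_add])
  let Φ : M ⊗[ℤ] N →+ Q := TensorProduct.liftAddHom f (by
    intro z m n
    rw [map_zsmul, map_zsmul]
    rfl)
  have hΦ : ∀ m n, Φ (m ⊗ₜ n) = (QuotientAddGroup.mk (act m (σ n)) : Q) := fun m n => rfl
  have hker : balRel R M N ≤ Φ.ker := by
    rw [balRel, AddSubgroup.closure_le]
    rintro _ ⟨m, r, n, rfl⟩
    show Φ _ = 0
    rw [map_sub, hΦ, hΦ, sub_eq_zero, ← act_smul]
    exact mk_act_eq v m (by rw [← hφ, map_smul, hσ, hσ])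
  have h1 : Φ (c.sum fun i m => m ⊗ₜ[ℤ] v i) = (QuotientAddGroup.mk c : Q) := by
    have h2 : ∀ i m, Φ (m ⊗ₜ[ℤ] v i) = (QuotientAddGroup.mk (Finsupp.single i m) : Q) := by
      intro i m
      rw [hΦ, ← act_single (R := R)]
      exact mk_act_eq v m (by rw [← hφ, hσ, hφ, Finsupp.linearCombination_single, one_smul])
    rw [Finsupp.sum, map_sum]
    simp only [h2]
    conv_rhs => rw [← Finsupp.sum_single c, Finsupp.sum]
    exact (map_sum (QuotientAddGroup.mk' (MK (R := R) M v)) _ _).symm
  have h2 : Φ (c.sum fun i m => m ⊗ₜ[ℤ] v i) = 0 := hker h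
  rw [h1] at h2
  exact (QuotientAddGroup.eq_zero_iff c).1 h2

end Vanish

/-- The equational criterion. -/
def EqFlat (R : Type u) [Ring R] (M : Type u) [AddCommGroup M] [Module Rᵐᵒᵖ M] : Prop :=
  ∀ (ι : Type) [Fintype ι] (r : ι → R) (m : ι → M), ∑ i, op (r i) • m i = 0 →
    ∃ (κ : Type) (_ : Fintype κ) (m' : κ → M) (b : κ → ι → R),
      (∀ i, m i = ∑ k, op (b k i) • m' k) ∧ ∀ k, ∑ i, b k i * r i = 0

theorem IsFlat.eqFlat {R : Type u} [Ring R] {M : Type u} [AddCommGroup M] [Module Rᵐᵒᵖ M]
    (hM : IsFlat R M) : EqFlat R M := by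
  intro ι _ r m hrm
  let N : Submodule R R := LinearMap.range (Finsupp.linearCombination R r)
  let v : ι → N := fun i => ⟨r i, Finsupp.single i 1, by simp⟩
  have hv : Function.Surjective (Finsupp.linearCombination R v) := by
    rintro ⟨x, c, hc⟩
    refine ⟨c, ?_⟩
    apply Subtype.ext
    have : ((Finsupp.linearCombination R v c : N) : R) =
        Finsupp.linearCombination R (fun i => ((v i : N) : R)) c := by
      rw [← Submodule.subtype_apply, Finsupp.apply_linearCombination]
      rfl
    exact this.trans hc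
  have hinj := hM N R N.subtype N.injective_subtype
  let t : M ⊗[ℤ] N := ∑ i, m i ⊗ₜ[ℤ] v i
  have ht : t ∈ balRel R M N := by
    rw [← QuotientAddGroup.eq_zero_iff]
    apply hinj
    rw [map_zero]
    show (QuotientAddGroup.mk (LinearMap.lTensor M N.subtype.toAddMonoidHom.toIntLinearMap t) :
      BalTensor R M R) = 0
    rw [QuotientAddGroup.eq_zero_iff]
    have e1 : LinearMap.lTensor M N.subtype.toAddMonoidHom.toIntLinearMap t =
        ∑ i, m i ⊗ₜ[ℤ] r i := by
      simp only [t, map_sum]
      rfl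
    rw [e1]
    have e2 : (∑ i, m i ⊗ₜ[ℤ] r i : M ⊗[ℤ] R) =
        - ∑ i, ((op (r i) • m i) ⊗ₜ[ℤ] (1 : R) - m i ⊗ₜ[ℤ] (r i • (1 : R))) := by
      rw [Finset.sum_sub_distrib, ← TensorProduct.sum_tmul, hrm, TensorProduct.zero_tmul]
      simp
    rw [e2]
    refine neg_mem (sum_mem fun i _ => AddSubgroup.subset_closure ⟨m i, r i, 1, rfl⟩)
  have hc := mem_MK_of_mem_balRel v hv (Finsupp.equivFunOnFinite.symm m) (by
    rw [Finsupp.sum_fintype _ _ (by simp)]
    exact ht)
  obtain ⟨J, hJ, m', κ, hκ, hsum⟩ := exists_rep_of_mem_MK v hc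
  refine ⟨J, hJ, m', fun j i => κ j i, fun i => ?_, fun j => ?_⟩
  · have := DFunLike.congr_fun hsum i
    rw [Finsupp.equivFunOnFinite_symm_apply_apply] at this
    rw [this, Finsupp.finsetSum_apply]
    rfl
  · have := congrArg (fun x : N => (x : R)) (hκ j)
    have e3 : ((Finsupp.linearCombination R v (κ j) : N) : R) = ∑ i, κ j i * r i := by
      rw [← Submodule.subtype_apply, Finsupp.apply_linearCombination,
        Finsupp.linearCombination_apply, Finsupp.sum_fintype _ _ (by simp)]
      rfl
    exact e3.symm.trans this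

/-- The equational criterion for finite systems. -/
theorem EqFlat.sys {R : Type u} [Ring R] {M : Type u} [AddCommGroup M] [Module Rᵐᵒᵖ M]
    (hM : EqFlat R M) {ι : Type} [Fintype ι] {X : Type*} (S : Finset X) (r : X → ι → R)
    (m : ι → M) (h : ∀ x ∈ S, ∑ i, op (r x i) • m i = 0) :
    ∃ (κ : Type) (_ : Fintype κ) (m' : κ → M) (b : κ → ι → R),
      (∀ i, m i = ∑ k, op (b k i) • m' k) ∧ ∀ x ∈ S, ∀ k, ∑ i, b k i * r x i = 0 := by
  classical
  induction S using Finset.induction_on with
  | empty =>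
    refine ⟨ι, inferInstance, m, fun k i => if k = i then 1 else 0, fun i => ?_, by simp⟩
    rw [Finset.sum_eq_single i]
    · simp
    · intro k _ hk
      simp [hk]
    · intro h; exact absurd (Finset.mem_univ i) h
  | insert x S hx ih =>
    obtain ⟨κ, hκ, m', b, h1, h2⟩ := ih (fun y hy => h y (Finset.mem_insert_of_mem hy))
    have h3 : ∑ k, op (∑ i, b k i * r x i) • m' k = 0 := by
      rw [← h x (Finset.mem_insert_self x S)]
      simp only [Finset.op_sum, Finset.sum_smul]
      rw [Finset.sum_comm]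
      refine Finset.sum_congr rfl fun i _ => ?_
      rw [h1 i, Finset.smul_sum]
      refine Finset.sum_congr rfl fun k _ => ?_
      rw [op_mul, mul_smul]
    obtain ⟨κ', hκ', m'', b', h4, h5⟩ := hM κ _ m' h3
    refine ⟨κ', hκ', m'', fun k' i => ∑ k, b' k' k * b k i, fun i => ?_, fun y hy k' => ?_⟩
    · rw [h1 i]
      simp only [Finset.op_sum, Finset.sum_smul]
      rw [Finset.sum_comm]
      refine Finset.sum_congr rfl fun k _ => ?_
      rw [h4 k, Finset.smul_sum]
      refine Finset.sum_congr rfl fun k' _ => ?_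
      rw [op_mul, mul_smul]
    · have e1 : ∑ i, (∑ k, b' k' k * b k i) * r y i = ∑ k, b' k' k * ∑ i, b k i * r y i := by
        simp only [Finset.sum_mul, Finset.mul_sum]
        rw [Finset.sum_comm]
        simp only [mul_assoc]
      rw [e1]
      rcases Finset.mem_insert.1 hy with rfl | hy
      · exact h5 k'
      · simp only [h2 y hy, mul_zero, Finset.sum_const_zero]

end Pool.Agent.H34R2.Wgl
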