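import Pool.Agent.H34R2.WglFlat

set_option autoImplicit false

/-! The equational criterion implies flatness. -/

universe u

namespace Pool.Agent.H34R2.Wgl

open scoped TensorProduct
open MulOpposite

variable {R : Type u} [Ring R] {M : Type u} [AddCommGroup M] [Module Rᵐᵒᵖ M]

theorem sum_act_mem {N : Type u} [AddCommGroup N] [Module R N] (m : M) (μ : N →₀ R) :
    ((act m μ).sum fun n m => m ⊗ₜ[ℤ] n) - m ⊗ₜ[ℤ] (Finsupp.linearCombination R id μ) ∈
      balRel R M N := by
  rw [act, Finsupp.sum_mapRange_index (by simp), Finsupp.linearCombination_apply, Finsupp.sum,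
    Finsupp.sum, TensorProduct.tmul_sum, ← Finset.sum_sub_distrib]
  exact sum_mem fun n _ => AddSubgroup.subset_closure ⟨m, μ n, n, rfl⟩

theorem exists_finsupp_rep {M N : Type u} [AddCommGroup M] [AddCommGroup N] (t : M ⊗[ℤ] N) :
    ∃ c : N →₀ M, t = c.sum fun n m => m ⊗ₜ[ℤ] n := by
  classical
  induction t with
  | zero => exact ⟨0, by simp⟩
  | tmul m n => exact ⟨Finsupp.single n m, by rw [Finsupp.sum_single_index (by simp)]⟩
  | add x y hx hy =>
    obtain ⟨c, rfl⟩ := hx
    obtain ⟨d, rfl⟩ := hy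
    exact ⟨c + d, by
      rw [Finsupp.sum_add_index' (by simp) (by intro n m m'; rw [TensorProduct.add_tmul])]⟩

theorem EqFlat.isFlat (hM : EqFlat R M) : IsFlat R M := by
  classical
  intro N N' _ _ _ _ g hg
  rw [injective_iff_map_eq_zero]
  intro t
  obtain ⟨t, rfl⟩ := QuotientAddGroup.mk_surjective t
  intro ht
  obtain ⟨c, rfl⟩ := exists_finsupp_rep t
  have h1 : ((Finsupp.mapDomain g c).sum fun n m => m ⊗ₜ[ℤ] (id n : N')) ∈ balRel R M N' := by
    have ht' : (QuotientAddGroup.mk (LinearMap.lTensor M g.toAddMonoidHom.toIntLinearMap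
      (c.sum fun n m => m ⊗ₜ[ℤ] n)) : BalTensor R M N') = 0 := ht
    rw [QuotientAddGroup.eq_zero_iff] at ht'
    convert ht' using 1
    rw [Finsupp.sum_mapDomain_index (by simp) (by intro n m m'; rw [TensorProduct.add_tmul]),
      Finsupp.sum, Finsupp.sum, map_sum]
    rfl
  have h2 := mem_MK_of_mem_balRel (R := R) (id : N' → N')
    (fun x => ⟨Finsupp.single x 1, by simp⟩) _ h1
  obtain ⟨J, hJ, m, κ, hκ, hsum⟩ := exists_rep_of_mem_MK _ h2
  let S : Finset N' := (Finset.univ.biUnion fun j => (κ j).support).filter (· ∉ Set.range g)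
  obtain ⟨L, hL, m', b, h3, h4⟩ := hM.sys S (fun x j => κ j x) m (by
    intro x hx
    have hx' := (Finset.mem_filter.1 hx).2
    have := DFunLike.congr_fun hsum x
    rw [Finsupp.mapDomain_of_notMem_range _ _ hx', Finsupp.finsetSum_apply] at this
    exact this.symm)
  let lam : L → N' →₀ R := fun l => ∑ j, b l j • κ j
  have hlam0 : ∀ l x, lam l x = ∑ j, b l j * κ j x := by
    intro l x
    simp [lam, Finsupp.finsetSum_apply]
  have hlam1 : ∀ l, Finsupp.linearCombination R id (lam l) = 0 := by
    intro l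
    simp [lam, map_sum, hκ]
  have hlam2 : ∀ l x, x ∉ Set.range g → lam l x = 0 := by
    intro l x hx
    rw [hlam0]
    by_cases hxS : x ∈ Finset.univ.biUnion fun j => (κ j).support
    · exact h4 x (Finset.mem_filter.2 ⟨hxS, hx⟩) l
    · refine Finset.sum_eq_zero fun j _ => ?_
      have : κ j x = 0 := by
        by_contra hne
        exact hxS (Finset.mem_biUnion.2 ⟨j, Finset.mem_univ j, Finsupp.mem_support_iff.2 hne⟩)
      rw [this, mul_zero]
  let μ : L → N →₀ R := fun l => Finsupp.comapDomain g (lam l) hg.injOn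
  have hμ : ∀ l, Finsupp.mapDomain g (μ l) = lam l := by
    intro l
    refine Finsupp.mapDomain_comapDomain g hg (lam l) ?_
    intro x hx
    by_contra hxr
    exact (Finsupp.mem_support_iff.1 (Finset.mem_coe.1 hx)) (hlam2 l x hxr)
  have hμ1 : ∀ l, Finsupp.linearCombination R id (μ l) = 0 := by
    intro l
    apply hg
    rw [map_zero, ← hlam1 l, ← hμ, Finsupp.linearCombination_mapDomain,
      Finsupp.apply_linearCombination]
    rfl
  have hc : c = ∑ l, act (m' l) (μ l) := by
    ext n
    have e1 := DFunLike.congr_fun hsum (g n)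
    rw [Finsupp.mapDomain_apply hg, Finsupp.finsetSum_apply] at e1
    rw [e1, Finsupp.finsetSum_apply]
    have e2 : ∀ l, act (m' l) (μ l) n = ∑ j, op (b l j * κ j (g n)) • m' l := by
      intro l
      rw [act_apply]
      have : μ l n = ∑ j, b l j * κ j (g n) := by
        rw [← hlam0]; rfl
      rw [this, Finset.op_sum, Finset.sum_smul]
    simp only [e2]
    rw [Finset.sum_comm]
    refine Finset.sum_congr rfl fun j _ => ?_
    rw [act_apply, h3 j, Finset.smul_sum]
    refine Finset.sum_congr rfl fun l _ => ?_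
    rw [op_mul, mul_smul]
  rw [QuotientAddGroup.eq_zero_iff, hc, ← Finsupp.sum_finsetSum_index (by simp)
    (by intro n m m'; rw [TensorProduct.add_tmul])]
  refine sum_mem fun l _ => ?_
  have := sum_act_mem (m' l) (μ l)
  rwa [hμ1, TensorProduct.tmul_zero, sub_zero] at this

end Pool.Agent.H34R2.Wgl
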