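import Pool.Agent.H34R2.WglFlat2
import Pool.Agent.H34R2.PSMat

set_option autoImplicit false

/-! Weak global dimension at most one and the matrix interpolation property. -/

universe u

namespace Pool.Agent.H34R2.Wgl

open scoped TensorProduct
open MulOpposite Pool.Agent.H34R2.PS

variable {R : Type u} [Ring R]

/-- The rectangular version of `PFn`. -/
theorem PF_rect (h : ∀ n, PFn R n) {m n p : Type*} [Fintype m] [Fintype n] [Fintype p]
    [DecidableEq m] [DecidableEq n] [DecidableEq p] (f : Matrix m n R) (g : Matrix n p R)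
    (hfg : f * g = 0) : ∃ H : Matrix n n R, f * H = 0 ∧ H * g = g := by
  let F : Matrix (m ⊕ n ⊕ p) (m ⊕ n ⊕ p) R := Matrix.of fun i j =>
    match i, j with
    | Sum.inl s, Sum.inr (Sum.inl t) => f s t
    | _, _ => 0
  let G : Matrix (m ⊕ n ⊕ p) (m ⊕ n ⊕ p) R := Matrix.of fun i j =>
    match i, j with
    | Sum.inr (Sum.inl t), Sum.inr (Sum.inr j) => g t j
    | _, _ => 0
  have hFG : F * G = 0 := by
    ext i j
    rw [Matrix.mul_apply, Fintype.sum_sum_type, Fintype.sum_sum_type]
    rcases i with s | t | x <;> rcases j with s' | t' | x' <;> simp [F, G]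
    have := congrFun (congrFun hfg s) x'
    rw [Matrix.mul_apply] at this
    simpa using this
  let φ := Matrix.reindexRingEquiv R (Fintype.equivFin (m ⊕ n ⊕ p))
  obtain ⟨H0, h1, h2⟩ := h _ (φ F) (φ G) (by rw [← map_mul, hFG, map_zero])
  have h1' : F * φ.symm H0 = 0 := by
    apply φ.injective
    rw [map_mul, φ.apply_symm_apply, h1, map_zero]
  have h2' : φ.symm H0 * G = G := by
    apply φ.injective
    rw [map_mul, φ.apply_symm_apply, h2]
  set H1 := φ.symm H0
  refine ⟨Matrix.of fun a b => H1 (Sum.inr (Sum.inl a)) (Sum.inr (Sum.inl b)), ?_, ?_⟩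
  · ext s b
    have := congrFun (congrFun h1' (Sum.inl s)) (Sum.inr (Sum.inl b))
    rw [Matrix.mul_apply, Fintype.sum_sum_type, Fintype.sum_sum_type] at this
    simpa [F, Matrix.mul_apply] using this
  · ext a j
    have := congrFun (congrFun h2' (Sum.inr (Sum.inl a))) (Sum.inr (Sum.inr j))
    rw [Matrix.mul_apply, Fintype.sum_sum_type, Fintype.sum_sum_type] at this
    simpa [G, Matrix.mul_apply] using this

/-- Submodules of free modules satisfy the equational criterion. -/
theorem eqFlat_of_submodule (h : ∀ n, PFn R n) {I : Type u} (K : Submodule Rᵐᵒᵖ (I →₀ Rᵐᵒᵖ)) :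
    EqFlat R K := by
  classical
  intro ι _ r k hrk
  let S : Finset I := Finset.univ.biUnion fun i => ((k i : K) : I →₀ Rᵐᵒᵖ).support
  have hS : ∀ i s, s ∉ S → ((k i : K) : I →₀ Rᵐᵒᵖ) s = 0 := by
    intro i s hs
    by_contra hne
    exact hs (Finset.mem_biUnion.2 ⟨i, Finset.mem_univ i, Finsupp.mem_support_iff.2 hne⟩)
  let f : Matrix S ι R := Matrix.of fun s i => unop (((k i : K) : I →₀ Rᵐᵒᵖ) s)
  let g : Matrix ι Unit R := Matrix.of fun i _ => r i
  have hcoord : ∀ (c : ι → R) (s : I), ((∑ i, op (c i) • k i : K) : I →₀ Rᵐᵒᵖ) s =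
      op (∑ i, unop (((k i : K) : I →₀ Rᵐᵒᵖ) s) * c i) := by
    intro c s
    rw [Submodule.coe_sum, Finsupp.finsetSum_apply, Finset.op_sum]
    refine Finset.sum_congr rfl fun i _ => ?_
    rw [op_mul, op_unop]
    rfl
  have hfg : f * g = 0 := by
    ext s x
    rw [Matrix.mul_apply]
    have h1 := hcoord r s
    rw [hrk] at h1
    apply op_injective
    exact h1.symm
  obtain ⟨H, h1, h2⟩ := PF_rect h f g hfg
  refine ⟨ι, inferInstance, k, fun t i => (1 - H) t i, fun i => ?_, fun t => ?_⟩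
  · -- `k i = ∑ t, k t (δ - H) t i`
    apply Subtype.ext
    ext s
    rw [hcoord]
    by_cases hs : s ∈ S
    · have e1 := congrFun (congrFun h1 ⟨s, hs⟩) i
      rw [Matrix.mul_apply] at e1
      have e2 : ∑ t, unop (((k t : K) : I →₀ Rᵐᵒᵖ) s) * (1 - H) t i =
          unop (((k i : K) : I →₀ Rᵐᵒᵖ) s) := by
        simp only [Matrix.sub_apply, mul_sub, Finset.sum_sub_distrib]
        have e3 : ∑ t, unop (((k t : K) : I →₀ Rᵐᵒᵖ) s) * H t i = 0 := e1
        rw [e3, sub_zero, Finset.sum_eq_single i]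
        · rw [Matrix.one_apply_eq, mul_one]
        · intro t _ ht
          rw [Matrix.one_apply_ne ht, mul_zero]
        · intro hi; exact absurd (Finset.mem_univ i) hi
      rw [e2, op_unop]
    · rw [hS i s hs]
      symm
      rw [op_eq_zero_iff]
      refine Finset.sum_eq_zero fun t _ => ?_
      rw [hS t s hs, unop_zero, zero_mul]
  · have e1 := congrFun (congrFun h2 t) ()
    rw [Matrix.mul_apply] at e1
    simp only [Matrix.sub_apply, sub_mul, Finset.sum_sub_distrib]
    have e2 : ∑ i, H t i * r i = r t := e1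
    rw [e2, Finset.sum_eq_single t]
    · rw [Matrix.one_apply_eq, one_mul, sub_self]
    · intro i _ hi
      rw [Matrix.one_apply_ne hi.symm, zero_mul]
    · intro hi; exact absurd (Finset.mem_univ t) hi

/-- Transfer of the equational criterion along an isomorphism. -/
theorem EqFlat.of_equiv {M M' : Type u} [AddCommGroup M] [Module Rᵐᵒᵖ M] [AddCommGroup M']
    [Module Rᵐᵒᵖ M'] (e : M ≃ₗ[Rᵐᵒᵖ] M') (h : EqFlat R M) : EqFlat R M' := by
  intro ι _ r m hrm
  obtain ⟨κ, hκ, m', b, h1, h2⟩ := h ι r (fun i => e.symm (m i)) (by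
    simp only [← map_smul, ← map_sum, hrm, map_zero])
  refine ⟨κ, hκ, fun k => e (m' k), b, fun i => ?_, h2⟩
  have := congrArg e (h1 i)
  rw [e.apply_symm_apply, map_sum] at this
  simpa using this

theorem wGlDim_le_one_of_PF (h : ∀ n, PFn R n) : wGlDim R ≤ 1 := by
  refine iSup_le fun M => ?_
  refine sInf_le ⟨1, by simp, ?_⟩
  refine ⟨(M →₀ Rᵐᵒᵖ), inferInstance, inferInstance, Finsupp.linearCombination Rᵐᵒᵖ (id : M → M),
    ?_, fun x => ⟨Finsupp.single x 1, by simp⟩, ?_⟩
  · refine EqFlat.isFlat ?_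
    exact EqFlat.of_equiv Submodule.topEquiv (eqFlat_of_submodule h ⊤)
  · exact EqFlat.isFlat (eqFlat_of_submodule h _)

theorem isFlat_of_subsingleton (M : Type u) [AddCommGroup M] [Module Rᵐᵒᵖ M] [Subsingleton M] :
    IsFlat R M := by
  refine EqFlat.isFlat ?_
  intro ι _ r m _
  exact ⟨Empty, inferInstance, fun x => x.elim, fun x => x.elim, fun i => Subsingleton.elim _ _,
    fun x => x.elim⟩

theorem hasFlatRes_one_of_le (M : Type u) [AddCommGroup M] [Module Rᵐᵒᵖ M]
    (h : flatDim R M ≤ 1) : HasFlatRes R 1 M := by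
  have hne : {d : ℕ∞ | ∃ n : ℕ, d = n ∧ HasFlatRes R n M}.Nonempty := by
    by_contra hne
    rw [Set.not_nonempty_iff_eq_empty] at hne
    rw [flatDim, hne, sInf_empty] at h
    exact absurd h (by simp)
  obtain ⟨n, hn, hM⟩ := csInf_mem hne
  have hn1 : (n : ℕ∞) ≤ 1 := by rw [← hn]; exact h
  have : n ≤ 1 := by exact_mod_cast hn1
  rcases Nat.le_one_iff_eq_zero_or_eq_one.1 this with rfl | rfl
  · refine ⟨M, inferInstance, inferInstance, LinearMap.id, hM, Function.surjective_id, ?_⟩
    have : Subsingleton (LinearMap.ker (LinearMap.id : M →ₗ[Rᵐᵒᵖ] M)) := by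
      rw [LinearMap.ker_id]
      infer_instance
    exact isFlat_of_subsingleton _
  · exact hM

theorem isFlat_of_flatDim_eq_zero (M : Type u) [AddCommGroup M] [Module Rᵐᵒᵖ M]
    (h : flatDim R M = 0) : IsFlat R M := by
  have hne : {d : ℕ∞ | ∃ n : ℕ, d = n ∧ HasFlatRes R n M}.Nonempty := by
    by_contra hne
    rw [Set.not_nonempty_iff_eq_empty] at hne
    rw [flatDim, hne, sInf_empty] at h
    exact absurd h (by simp)
  obtain ⟨n, hn, hM⟩ := csInf_mem hne
  have hn1 : (n : ℕ∞) = 0 := by rw [← hn]; exact h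
  have : n = 0 := by exact_mod_cast hn1
  subst this
  exact hM

end Pool.Agent.H34R2.Wgl
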