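import Pool.Agent.H34R2.WglPF

set_option autoImplicit false

/-! From the weak global dimension to matrix interpolation. -/

universe u

namespace Pool.Agent.H34R2.Wgl

open scoped TensorProduct
open MulOpposite Pool.Agent.H34R2.PS

variable {R : Type u} [Ring R]

theorem vnreg_of_wGlDim_eq_zero (h : wGlDim R = 0) : VNReg R := by
  intro a
  let K : Submodule Rᵐᵒᵖ R :=
    { carrier := {w | ∃ v, w = a * v}
      add_mem' := by
        rintro _ _ ⟨v, rfl⟩ ⟨v', rfl⟩
        exact ⟨v + v', by rw [mul_add]⟩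
      zero_mem' := ⟨0, by simp⟩
      smul_mem' := by
        rintro c _ ⟨v, rfl⟩
        exact ⟨v * unop c, by rw [← mul_assoc]; rfl⟩ }
  have hM : IsFlat R (R ⧸ K) := isFlat_of_flatDim_eq_zero _ (by
    have := (le_iSup (fun M : ModuleCat.{u} Rᵐᵒᵖ => flatDim R M) (ModuleCat.of Rᵐᵒᵖ (R ⧸ K)))
    rw [← wGlDim, h] at this
    exact le_antisymm this bot_le)
  obtain ⟨κ, hκ, m', b, h1, h2⟩ := hM.eqFlat Unit (fun _ => a) (fun _ => K.mkQ 1) (by
    rw [Fintype.sum_unique, ← map_smul]
    show K.mkQ (1 * a) = 0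
    rw [Submodule.mkQ_apply, Submodule.Quotient.mk_eq_zero]
    exact ⟨1, by rw [one_mul, mul_one]⟩)
  choose c hc using fun k => K.mkQ_surjective (m' k)
  have h3 : (1 : R) - ∑ k, c k * b k () ∈ K := by
    rw [← Submodule.Quotient.mk_eq_zero, ← Submodule.mkQ_apply, map_sub, h1 (), map_sum,
      sub_eq_zero]
    refine Finset.sum_congr rfl fun k _ => ?_
    rw [← hc k, ← map_smul]
    rfl
  obtain ⟨x, hx⟩ := h3
  refine ⟨x, ?_⟩
  rw [← hx, sub_mul, one_mul, Finset.sum_mul]
  have : ∑ i, c i * b i () * a = 0 := by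
    refine Finset.sum_eq_zero fun k _ => ?_
    have := h2 k
    rw [Fintype.sum_unique] at this
    rw [mul_assoc]
    have e : b k () * a = 0 := this
    rw [e, mul_zero]
  rw [this, sub_zero]

theorem PF_of_wGlDim_le_one (h : wGlDim R ≤ 1) (N : ℕ) : PFn R N := by
  classical
  intro f g hfg
  let K : Submodule Rᵐᵒᵖ (Fin N → R) :=
    { carrier := {w | ∃ v : Fin N → R, w = f.mulVec v}
      add_mem' := by
        rintro _ _ ⟨v, rfl⟩ ⟨v', rfl⟩
        exact ⟨v + v', by rw [Matrix.mulVec_add]⟩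
      zero_mem' := ⟨0, by simp⟩
      smul_mem' := by
        rintro c _ ⟨v, rfl⟩
        exact ⟨c • v, by rw [Matrix.mulVec_smul]⟩ }
  have hM : HasFlatRes R 1 ((Fin N → R) ⧸ K) := hasFlatRes_one_of_le _
    ((le_iSup (fun M : ModuleCat.{u} Rᵐᵒᵖ => flatDim R M)
      (ModuleCat.of Rᵐᵒᵖ ((Fin N → R) ⧸ K))).trans h)
  obtain ⟨F, _, _, π, hF, hπ, hK'⟩ := hM
  have eF := hF.eqFlat
  have eK : EqFlat R (LinearMap.ker π) := IsFlat.eqFlat hK'
  choose φ hφ using fun l : Fin N => hπ (K.mkQ (Pi.single l 1))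
  have hpi : ∀ c : Fin N → R, ∑ l, op (c l) • (Pi.single l 1 : Fin N → R) = c := by
    intro c
    funext a
    rw [Finset.sum_apply, Finset.sum_eq_single a]
    · simp
    · intro l _ hl
      simp [hl.symm]
    · intro ha; exact absurd (Finset.mem_univ a) ha
  have hπφ : ∀ c : Fin N → R, π (∑ l, op (c l) • φ l) = K.mkQ c := by
    intro c
    rw [map_sum]
    conv_rhs => rw [← hpi c, map_sum]
    refine Finset.sum_congr rfl fun l _ => ?_
    rw [map_smul, map_smul, hφ]
  let w : Fin N → LinearMap.ker π := fun i => ⟨∑ l, op (f l i) • φ l, by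
    rw [LinearMap.mem_ker, hπφ, Submodule.mkQ_apply, Submodule.Quotient.mk_eq_zero]
    exact ⟨Pi.single i 1, by
      funext a
      simp⟩⟩
  obtain ⟨κ, hκ, k', b, hb1, hb2⟩ := eK.sys (Finset.univ : Finset (Fin N)) (fun j i => g i j) w (by
    intro j _
    apply Subtype.ext
    rw [Submodule.coe_sum]
    have e1 : ∀ i, ((op (g i j) • w i : LinearMap.ker π) : F) =
        ∑ l, op (f l i * g i j) • φ l := by
      intro i
      show op (g i j) • ∑ l, op (f l i) • φ l = _
      rw [Finset.smul_sum]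
      refine Finset.sum_congr rfl fun l _ => ?_
      rw [op_mul, mul_smul]
    simp only [e1]
    rw [Finset.sum_comm]
    refine Finset.sum_eq_zero fun l _ => ?_
    rw [← Finset.sum_smul, ← Finset.op_sum]
    have e2 : ∑ i, f l i * g i j = 0 := by
      have := congrFun (congrFun hfg l) j
      rwa [Matrix.mul_apply] at this
    rw [e2, op_zero, zero_smul])
  obtain ⟨σ, hσ, fs, c, hc1, hc2⟩ := eF.sys (Finset.univ : Finset (Fin N))
    (fun i (x : Fin N ⊕ κ) => Sum.elim (fun l => f l i) (fun t => - b t i) x)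
    (Sum.elim φ (fun t => (k' t : F))) (by
      intro i _
      rw [Fintype.sum_sum_type]
      simp only [Sum.elim_inl, Sum.elim_inr, op_neg, neg_smul, Finset.sum_neg_distrib]
      have e1 := congrArg (fun x : LinearMap.ker π => (x : F)) (hb1 i)
      have e2 : ((∑ t, op (b t i) • k' t : LinearMap.ker π) : F) = ∑ t, op (b t i) • (k' t : F) := by
        rw [Submodule.coe_sum]
        rfl
      rw [← e2]
      have e3 : ((w i : LinearMap.ker π) : F) = ∑ l, op (f l i) • φ l := rfl
      rw [← e3, ← hb1 i, add_neg_cancel])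
  choose G hG using fun s => K.mkQ_surjective (π (fs s))
  have hY : ∀ l, ∃ v : Fin N → R, (Pi.single l 1 : Fin N → R) -
      ∑ s, op (c s (Sum.inl l)) • G s = f.mulVec v := by
    intro l
    have : (Pi.single l 1 : Fin N → R) - ∑ s, op (c s (Sum.inl l)) • G s ∈ K := by
      rw [← Submodule.Quotient.mk_eq_zero, ← Submodule.mkQ_apply, map_sub, ← hφ l, map_sum]
      have e1 := congrArg π (hc1 (Sum.inl l))
      rw [Sum.elim_inl] at e1
      rw [e1, map_sum, sub_eq_zero]
      refine Finset.sum_congr rfl fun s _ => ?_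
      rw [map_smul, map_smul, hG]
    exact this
  have hY' : ∀ t, ∃ v : Fin N → R, ∑ s, op (c s (Sum.inr t)) • G s = f.mulVec v := by
    intro t
    have : ∑ s, op (c s (Sum.inr t)) • G s ∈ K := by
      rw [← Submodule.Quotient.mk_eq_zero, ← Submodule.mkQ_apply, map_sum]
      have e1 := congrArg π (hc1 (Sum.inr t))
      rw [Sum.elim_inr, LinearMap.mem_ker.1 (k' t).2, map_sum] at e1
      rw [e1]
      refine Finset.sum_congr rfl fun s _ => ?_
      rw [map_smul, map_smul, hG]
    exact this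
  choose Y hY using hY
  choose Y' hY' using hY'
  let Ym : Matrix (Fin N) (Fin N) R := Matrix.of fun a l => Y l a
  let Y'm : Matrix (Fin N) κ R := Matrix.of fun a t => Y' t a
  let Bm : Matrix κ (Fin N) R := Matrix.of b
  let Gm : Matrix (Fin N) σ R := Matrix.of fun a s => G s a
  let Cm : Matrix σ (Fin N) R := Matrix.of fun s l => c s (Sum.inl l)
  let Dm : Matrix σ κ R := Matrix.of fun s t => c s (Sum.inr t)
  have m1 : 1 - Gm * Cm = f * Ym := by
    ext a l
    have := congrFun (hY l) a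
    rw [Pi.sub_apply, Finset.sum_apply] at this
    rw [Matrix.sub_apply, Matrix.mul_apply, Matrix.mul_apply]
    have e1 : (1 : Matrix (Fin N) (Fin N) R) a l = (Pi.single l 1 : Fin N → R) a := by
      rw [Matrix.one_apply, Pi.single_apply]
    rw [e1]
    exact this
  have m2 : Gm * Dm = f * Y'm := by
    ext a t
    have := congrFun (hY' t) a
    rw [Finset.sum_apply] at this
    rw [Matrix.mul_apply, Matrix.mul_apply]
    exact this
  have m3 : Cm * f = Dm * Bm := by
    ext s i
    have := hc2 i (Finset.mem_univ i) s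
    rw [Fintype.sum_sum_type] at this
    simp only [Sum.elim_inl, Sum.elim_inr, mul_neg, Finset.sum_neg_distrib] at this
    rw [Matrix.mul_apply, Matrix.mul_apply]
    exact sub_eq_zero.1 (by rw [sub_eq_add_neg]; exact this)
  have m4 : Bm * g = 0 := by
    ext t j
    rw [Matrix.mul_apply]
    exact hb2 j (Finset.mem_univ j) t
  refine ⟨1 - (Ym * f + Y'm * Bm), ?_, ?_⟩
  · rw [mul_sub, mul_one, mul_add, ← Matrix.mul_assoc, ← Matrix.mul_assoc, ← m1, ← m2,
      Matrix.sub_mul, Matrix.one_mul, Matrix.mul_assoc Gm Cm, m3, Matrix.mul_assoc Gm Dm]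
    abel
  · rw [sub_mul, one_mul, add_mul, Matrix.mul_assoc Ym, hfg, Matrix.mul_zero, Matrix.mul_assoc,
      m4, Matrix.mul_zero, add_zero, sub_zero]

theorem wGlDim_le_one_iff : wGlDim R ≤ 1 ↔ ∀ n, PFn R n :=
  ⟨PF_of_wGlDim_le_one, wGlDim_le_one_of_PF⟩

theorem wGlDim_eq_zero_of_subsingleton [Subsingleton R] : wGlDim R = 0 := by
  refine le_antisymm (iSup_le fun M => ?_) bot_le
  refine sInf_le ⟨0, by simp, ?_⟩
  have : Subsingleton M := ⟨fun x y => by
    rw [← one_smul Rᵐᵒᵖ x, ← one_smul Rᵐᵒᵖ y, Subsingleton.elim (1 : Rᵐᵒᵖ) 0, zero_smul,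
      zero_smul]⟩
  exact isFlat_of_subsingleton M

end Pool.Agent.H34R2.Wgl
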