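import Mathlib

/-!
# A countably generated projective module attached to an idempotent ideal

Let `R` be a ring and `t 0, …, t (n-1)` elements of `R` such that each `t j` lies in the right
ideal generated by the products `t i * t l`. The left `R`-module with generators `e w`, `w` a finite
word in `Fin n`, and relations `e w = ∑ l, t l • e (l :: w)` is projective.
-/

set_option autoImplicit false

namespace Pool.Agent.H34R2.Whitehead

universe u v

open Finsupp

variable {R : Type u} [Ring R] {n : ℕ} (t : Fin n → R)

/-- The relation attached to the word `w`. -/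
noncomputable def rel (w : List (Fin n)) : (List (Fin n) →₀ R) :=
  Finsupp.single w 1 - ∑ l, t l • Finsupp.single (l :: w) (1 : R)

/-- The submodule of relations. -/
noncomputable def relSub : Submodule R (List (Fin n) →₀ R) :=
  Submodule.span R (Set.range (rel t))

/-- The module with generators the words and the relations `rel`. -/
abbrev WMod := (List (Fin n) →₀ R) ⧸ relSub t

/-- The generators. -/
noncomputable def gen (w : List (Fin n)) : WMod t := (relSub t).mkQ (Finsupp.single w 1)

theorem gen_rel (w : List (Fin n)) : gen t w = ∑ l, t l • gen t (l :: w) := by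
  have h : (relSub t).mkQ (rel t w) = 0 := by
    rw [Submodule.mkQ_apply, Submodule.Quotient.mk_eq_zero]
    exact Submodule.subset_span ⟨w, rfl⟩
  rw [rel, map_sub, map_sum, sub_eq_zero] at h
  simp only [map_smul] at h
  exact h

/-- A family satisfying the relations defines a linear map. -/
noncomputable def desc {M : Type v} [AddCommGroup M] [Module R M] (m : List (Fin n) → M)
    (hm : ∀ w, m w = ∑ l, t l • m (l :: w)) : WMod t →ₗ[R] M :=
  (relSub t).liftQ (Finsupp.linearCombination R m) (by
    rw [relSub, Submodule.span_le]
    rintro _ ⟨w, rfl⟩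
    simp only [SetLike.mem_coe, LinearMap.mem_ker, rel, map_sub, map_sum, map_smul,
      Finsupp.linearCombination_single, one_smul]
    rw [sub_eq_zero]
    exact hm w)

@[simp] theorem desc_gen {M : Type v} [AddCommGroup M] [Module R M] (m : List (Fin n) → M)
    (hm : ∀ w, m w = ∑ l, t l • m (l :: w)) (w : List (Fin n)) :
    desc t m hm (gen t w) = m w := by
  rw [desc, gen, Submodule.mkQ_apply, Submodule.liftQ_apply]
  simp

theorem hom_ext {M : Type v} [AddCommGroup M] [Module R M] {f g : WMod t →ₗ[R] M}
    (h : ∀ w, f (gen t w) = g (gen t w)) : f = g := by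
  apply Submodule.linearMap_qext
  apply Finsupp.lhom_ext'
  intro w
  apply LinearMap.ext_ring
  exact h w

/-- The recursive correction of lifts. -/
noncomputable def psi {M : Type v} [AddCommGroup M] [Module R M] (c : Fin n → Fin n → Fin n → R)
    (θ : List (Fin n) → M) : List (Fin n) → Fin n → M
  | [] => fun j => θ [j]
  | i :: u => fun l => θ (l :: i :: u) +
      ∑ j, c i l j • (psi c θ u j - ∑ l', t l' • θ (l' :: j :: u))

theorem projective (c : Fin n → Fin n → Fin n → R)
    (hc : ∀ j, t j = ∑ i, ∑ l, t i * t l * c i l j) : Module.Projective R (WMod t) := by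
  apply Module.Projective.of_lifting_property
  intro M N _ _ _ _ f g hf
  choose θ hθ using fun w => hf (g (gen t w))
  have hg : ∀ w, g (gen t w) = ∑ l, t l • g (gen t (l :: w)) := by
    intro w
    conv_lhs => rw [gen_rel]
    rw [map_sum]
    simp only [map_smul]
  have hpsi : ∀ u j, f (psi t c θ u j) = g (gen t (j :: u)) := by
    intro u
    induction u with
    | nil => intro j; simp only [psi]; exact hθ _
    | cons i u ih =>
      intro l
      simp only [psi, map_add, map_sum, map_smul, map_sub, hθ, ih]
      have : ∀ j, g (gen t (j :: u)) - ∑ l', t l' • g (gen t (l' :: j :: u)) = 0 := by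
        intro j; rw [sub_eq_zero]; exact hg _
      simp only [this, smul_zero, Finset.sum_const_zero, add_zero]
  have hm : ∀ u, (∑ j, t j • psi t c θ u j) = ∑ i, t i • ∑ l, t l • psi t c θ (i :: u) l := by
    intro u
    simp only [psi, smul_add, Finset.sum_add_distrib, Finset.smul_sum]
    have key : ∑ i, ∑ l, ∑ j, t i • t l • c i l j • (psi t c θ u j - ∑ l', t l' • θ (l' :: j :: u))
        = ∑ j, t j • (psi t c θ u j - ∑ l', t l' • θ (l' :: j :: u)) := by
      have h1 : ∀ j, t j • (psi t c θ u j - ∑ l', t l' • θ (l' :: j :: u)) =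
          ∑ i, ∑ l, t i • t l • c i l j • (psi t c θ u j - ∑ l', t l' • θ (l' :: j :: u)) := by
        intro j
        conv_lhs => rw [hc j]
        rw [Finset.sum_smul]
        refine Finset.sum_congr rfl fun i _ => ?_
        rw [Finset.sum_smul]
        refine Finset.sum_congr rfl fun l _ => ?_
        rw [mul_smul, mul_smul]
      rw [Finset.sum_congr rfl fun j _ => h1 j]
      rw [Finset.sum_congr rfl fun i _ => Finset.sum_comm]
      rw [Finset.sum_comm]
    rw [key]
    simp only [smul_sub, Finset.sum_sub_distrib, Finset.smul_sum]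
    abel
  refine ⟨desc t (fun u => ∑ j, t j • psi t c θ u j) (fun w => ?_), ?_⟩
  · exact hm w
  · apply hom_ext
    intro w
    rw [LinearMap.comp_apply, desc_gen, map_sum]
    simp only [map_smul, hpsi]
    exact (hg w).symm

/-- Every linear map from `WMod t` to `R` has image in the kernel of any ring hom killing `t`. -/
theorem hom_mem_ker {S : Type v} [Ring S] (ε : R →+* S) (ht : ∀ l, ε (t l) = 0)
    (φ : WMod t →ₗ[R] R) (x : WMod t) : ε (φ x) = 0 := by
  obtain ⟨y, rfl⟩ := (relSub t).mkQ_surjective x
  have hgen : ∀ w, ε (φ (gen t w)) = 0 := by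
    intro w
    rw [gen_rel, map_sum, map_sum]
    refine Finset.sum_eq_zero fun l _ => ?_
    rw [map_smul, smul_eq_mul, map_mul, ht, zero_mul]
  induction y using Finsupp.induction_linear with
  | zero => simp
  | add a b ha hb => rw [map_add, map_add, map_add, ha, hb, add_zero]
  | single w r =>
    have : (relSub t).mkQ (Finsupp.single w r) = r • gen t w := by
      rw [gen, ← map_smul, Finsupp.smul_single, smul_eq_mul, mul_one]
    rw [this, map_smul, smul_eq_mul, map_mul, hgen, mul_zero]

/-- `g ∈ relSub` is of the form `(1 - A) g'`. -/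
theorem exists_of_mem_relSub (y : List (Fin n) →₀ R) (hy : y ∈ relSub t) :
    ∃ g : List (Fin n) →₀ R, y [] = g [] ∧ ∀ l u, y (l :: u) = g (l :: u) - g u * t l := by
  rw [relSub] at hy
  induction hy using Submodule.span_induction with
  | mem x hx =>
    obtain ⟨w, rfl⟩ := hx
    refine ⟨Finsupp.single w 1, ?_, ?_⟩
    · simp only [rel, Finsupp.coe_sub, Pi.sub_apply, Finsupp.coe_finsetSum, Finset.sum_apply,
        Finsupp.coe_smul, Pi.smul_apply]
      rw [Finset.sum_eq_zero, sub_zero]
      intro l _
      rw [Finsupp.single_eq_of_ne (by simp), smul_zero]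
    · intro l u
      simp only [rel, Finsupp.coe_sub, Pi.sub_apply, Finsupp.coe_finsetSum, Finset.sum_apply,
        Finsupp.coe_smul, Pi.smul_apply]
      congr 1
      by_cases h : w = u
      · subst h
        rw [Finset.sum_eq_single l]
        · simp
        · intro b _ hb
          rw [Finsupp.single_eq_of_ne (by simpa using fun h => hb h.symm), smul_zero]
        · simp
      · rw [Finset.sum_eq_zero, Finsupp.single_eq_of_ne (fun h' => h h'.symm), zero_mul]
        intro b _
        rw [Finsupp.single_eq_of_ne (by simp; intro _ h'; exact h h'.symm), smul_zero]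
  | zero => exact ⟨0, by simp, by simp⟩
  | add a b _ _ ha hb =>
    obtain ⟨g, hg1, hg2⟩ := ha
    obtain ⟨g', hg1', hg2'⟩ := hb
    refine ⟨g + g', by simp [hg1, hg1'], fun l u => ?_⟩
    simp only [Finsupp.coe_add, Pi.add_apply, hg2, hg2', add_mul]
    abel
  | smul r x _ hx =>
    obtain ⟨g, hg1, hg2⟩ := hx
    refine ⟨r • g, by simp [hg1], fun l u => ?_⟩
    simp only [Finsupp.coe_smul, Pi.smul_apply, smul_eq_mul, hg2, mul_sub, mul_assoc]

/-- The module is not finitely generated. -/
theorem not_finite {S : Type v} [Ring S] [Nontrivial S] (ε : R →+* S) (ht : ∀ l, ε (t l) = 0)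
    (hinj : ∀ x : R, (∀ l, x * t l = 0) → x = 0) : ¬ Module.Finite R (WMod t) := by
  intro hfin
  have hR : Nontrivial R := ε.domain_nontrivial
  -- there is at least one letter
  have hn : Nonempty (Fin n) := by
    by_contra h
    rw [not_nonempty_iff] at h
    exact one_ne_zero (hinj 1 (fun l => (h.false l).elim))
  obtain ⟨l₀⟩ := hn
  let F : ℕ → Submodule R (WMod t) := fun m =>
    Submodule.span R ((gen t) '' {w | w.length ≤ m})
  have hmono : Monotone F := by
    intro a b hab
    apply Submodule.span_mono
    apply Set.image_mono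
    intro w hw
    exact le_trans hw hab
  have hsup : (⨆ m, F m) = ⊤ := by
    rw [eq_top_iff]
    rintro x -
    obtain ⟨y, rfl⟩ := (relSub t).mkQ_surjective x
    induction y using Finsupp.induction_linear with
    | zero => simp
    | add a b ha hb => rw [map_add]; exact Submodule.add_mem _ ha hb
    | single w r =>
      have : (relSub t).mkQ (Finsupp.single w r) = r • gen t w := by
        rw [gen, ← map_smul, Finsupp.smul_single, smul_eq_mul, mul_one]
      rw [this]
      apply Submodule.smul_mem
      apply Submodule.mem_iSup_of_mem w.length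
      exact Submodule.subset_span ⟨w, le_refl w.length, rfl⟩
  obtain ⟨m, hm⟩ : ∃ m, F m = ⊤ := by
    have hfg : (⊤ : Submodule R (WMod t)).FG := Module.Finite.fg_top
    obtain ⟨s, hs⟩ := hfg
    have : ∀ x ∈ s, ∃ m, x ∈ F m := by
      intro x _
      have hx : x ∈ ⨆ m, F m := by rw [hsup]; trivial
      exact (Submodule.mem_iSup_of_directed F hmono.directed_le).1 hx
    choose! k hk using this
    refine ⟨s.sup k, ?_⟩
    rw [eq_top_iff, ← hs, Submodule.span_le]
    intro x hx
    exact hmono (Finset.le_sup (f := k) hx) (hk x hx)
  -- the generator of a word of length m+1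
  let w : List (Fin n) := List.replicate (m + 1) l₀
  have hw : gen t w ∈ F m := by rw [hm]; trivial
  -- represent by an element supported in length ≤ m
  obtain ⟨y, hy1, hy2⟩ : ∃ y : List (Fin n) →₀ R, (∀ v, m < v.length → y v = 0) ∧
      (relSub t).mkQ y = gen t w := by
    generalize gen t w = x₀ at hw
    induction hw using Submodule.span_induction with
    | mem x hx =>
      obtain ⟨v, hv, rfl⟩ := hx
      refine ⟨Finsupp.single v 1, ?_, rfl⟩
      intro v' hv'
      rw [Finsupp.single_eq_of_ne]
      rintro rfl
      exact absurd hv (not_le.2 hv')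
    | zero => exact ⟨0, by simp, by simp⟩
    | add a b _ _ ha hb =>
      obtain ⟨g, hg1, hg2⟩ := ha
      obtain ⟨g', hg1', hg2'⟩ := hb
      refine ⟨g + g', fun v hv => by simp [hg1 v hv, hg1' v hv], by rw [map_add, hg2, hg2']⟩
    | smul r x _ hx =>
      obtain ⟨g, hg1, hg2⟩ := hx
      refine ⟨r • g, fun v hv => by simp [hg1 v hv], by rw [map_smul, hg2]⟩
  have hmem : Finsupp.single w 1 - y ∈ relSub t := by
    rw [← Submodule.Quotient.mk_eq_zero, ← Submodule.mkQ_apply, map_sub, hy2]
    exact sub_self _
  obtain ⟨g, -, hg⟩ := exists_of_mem_relSub t _ hmem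
  -- g vanishes on words of length ≥ m+1
  have hgz : ∀ v : List (Fin n), m < v.length → g v = 0 := by
    intro v hv
    by_contra hne
    -- build arbitrarily long words in the support
    have : ∀ k : ℕ, ∃ v' : List (Fin n), v.length + k ≤ v'.length ∧ g v' ≠ 0 := by
      intro k
      induction k with
      | zero => exact ⟨v, le_refl _, hne⟩
      | succ k ih =>
        obtain ⟨v', hv', hg'⟩ := ih
        have : ∃ l, g v' * t l ≠ 0 := by
          by_contra h
          push Not at h
          exact hg' (hinj _ h)
        obtain ⟨l, hl⟩ := this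
        refine ⟨l :: v', by simp; omega, ?_⟩
        have h1 := hg l v'
        have hy0 : y (l :: v') = 0 := hy1 _ (by simp; omega)
        have hs0 : (Finsupp.single w (1 : R)) (l :: v') = 0 := by
          rw [Finsupp.single_eq_of_ne]
          intro h
          have := congrArg List.length h
          simp [w] at this
          omega
        rw [Finsupp.sub_apply, hy0, hs0, sub_zero] at h1
        rw [eq_comm, sub_eq_zero] at h1
        rw [h1]
        exact hl
    obtain ⟨v', hv', hg'⟩ := this (g.support.sup List.length + 1)
    have : v'.length ≤ g.support.sup List.length :=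
      Finset.le_sup (f := List.length) (Finsupp.mem_support_iff.2 hg')
    omega
  -- evaluate at w
  have h1 := hg l₀ (List.replicate m l₀)
  have hww : l₀ :: List.replicate m l₀ = w := by simp [w, List.replicate_succ]
  rw [hww, hgz w (by simp [w]), Finsupp.sub_apply, hy1 w (by simp [w]), sub_zero,
    Finsupp.single_eq_same, zero_sub] at h1
  have h2 := congrArg ε h1
  rw [map_one, map_neg, map_mul, ht, mul_zero, neg_zero] at h2
  exact one_ne_zero h2

/-- Main module-theoretic statement. -/
theorem main {S : Type v} [Ring S] [Nontrivial S] [IsNoetherianRing R] (ε : R →+* S)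
    (ht : ∀ l, ε (t l) = 0)
    (hinj : ∀ x : R, (∀ l, x * t l = 0) → x = 0)
    {F : Type*} [AddCommGroup F] [Module R F] (hF : Module.Free R F) (I : Submodule R R)
    (e : WMod t ≃ₗ[R] (F × I)) : False := by
  -- `F` is trivial
  have hsub : Subsingleton F := by
    obtain ⟨⟨ι, b⟩⟩ := hF.exists_basis
    by_cases hι : IsEmpty ι
    · exact b.repr.toEquiv.subsingleton
    · rw [not_isEmpty_iff] at hι
      obtain ⟨i⟩ := hι
      exfalso
      let φ : WMod t →ₗ[R] R := (b.coord i) ∘ₗ (LinearMap.fst R F I) ∘ₗ e.toLinearMap
      have h := hom_mem_ker t ε ht φ (e.symm (b i, 0))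
      have h1 : φ (e.symm (b i, 0)) = 1 := by
        simp [φ]
      rw [h1, map_one] at h
      exact one_ne_zero h
  have hfin : Module.Finite R (F × I) := by
    have : Module.Finite R F := inferInstance
    infer_instance
  exact not_finite t ε ht hinj (Module.Finite.equiv e.symm)

end Pool.Agent.H34R2.Whitehead
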